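import Mathlib

/-! Ladder data on a well-ordered set of type `ω₁`. -/

set_option autoImplicit false

namespace Pool.Agent.TH313.SC

open Set Filter Topology

/-- A labelled ladder system: labels `c α ∈ (0, 1)`, a sequence `q` in `[0, 1]`, and for every `α` (which is not the
least element) a sequence of pairs `(a α i, n α i)` with `a α i < α`, eventually above every `β < α`,
`n α i` strictly increasing in `i` and positive, and `q (n α i) → c α`. -/
structure Lad (I : Type) [LinearOrder I] where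
  c : I → ℝ
  c_inj : Function.Injective c
  c_mem : ∀ α, c α ∈ Ioo (0 : ℝ) 1
  q : ℕ → ℝ
  q_mem : ∀ n, q n ∈ Icc (0 : ℝ) 1
  a : I → ℕ → I
  n : I → ℕ → ℕ
  a_lt : ∀ α, (∃ β, β < α) → ∀ i, a α i < α
  cof : ∀ α β, β < α → ∀ᶠ i in atTop, β ≤ a α i
  n_mono : ∀ α, StrictMono (n α)
  n_pos : ∀ α i, 0 < n α i
  lim : ∀ α, Tendsto (fun i => q (n α i)) atTop (𝓝 (c α))

end Pool.Agent.TH313.SC
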