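import Pool.Agent.TH313.SC.Symbol
import Pool.Agent.TH511.SC_dc
import Pool.Agent.TH113.SC_exists_cut
import Pool.Agent.TH993.SC_locId
import Pool.Agent.TH73.SC_Lad
import Pool.Agent.TH111.SC_exists_space
import Pool.Agent.W711.SCP.Eqv

/-! Assembly: the separable complementation property does not pass to complemented subspaces. -/

set_option autoImplicit false

namespace Pool.Agent.TH313.SC

open Filter Topology Pool.Agent.TH313.HI TopologicalSpace

noncomputable section

/-- the continuity of the limits of the approximate traces -/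
def TRC {Ω M : Type} [TopologicalSpace Ω] [MetricSpace M] (F : C(Ω, M)) (N : Net M) : Prop :=
  ∀ (T : YT F N →L[ℝ] YT F N) (f : Ω → ℝ) (hf : C0 f) (B : Ω → ℂ),
      (∀ t, Tendsto (fun k => bt N F T f hf k t) atTop (𝓝 (B t))) → Continuous B

theorem counter (htr : ∀ {Ω M : Type} [TopologicalSpace Ω] [MetricSpace M] (F : C(Ω, M)) (N : Net M), TRC F N) :
    ∃ (Y : Type) (_ : NormedAddCommGroup Y) (_ : NormedSpace ℝ Y) (_ : CompleteSpace Y),
      Pool.Agent.W711.SCP.HasLocId Y ∧ ¬ Pool.Agent.W711.SCP.HasSCP Y := by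
  obtain ⟨I, iO, iW, iB, hc, hb, ⟨L⟩⟩ := Pool.Agent.TH73.SC3.exists_lad
  obtain ⟨Ω, iT, M, iM, F, hlc, hT2, hconn, hcpt, hFc, hFi, hbig, hcut⟩ :=
    Pool.Agent.TH111.SC4.exists_space (I := I) hc hb L
  haveI := hlc
  haveI := hT2
  haveI := hconn
  haveI := hcpt
  obtain ⟨s₀⟩ : Nonempty Ω := hconn.toNonempty
  haveI : Nonempty Ω := ⟨s₀⟩
  haveI : Nonempty M := ⟨F s₀⟩
  obtain ⟨N⟩ := exists_net (M := M)
  let F' : C(Ω, M) := ⟨F, hFc⟩
  have hFi' : Function.Injective F' := hFi
  have hdc : DC F' N := fun S D C hD h0 => Pool.Agent.TH511.SC5.dc S D C hD h0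
  have cuts : ∀ s, Cut F' s := fun s => Classical.choice (Pool.Agent.TH113.SC6.exists_cut F' hFi' s)
  refine ⟨YT F' N, inferInstance, inferInstance, inferInstance, ?_, ?_⟩
  · intro S hS
    exact Pool.Agent.TH993.SC8.locId F' hFi' N hcut S hS
  · intro hscp
    -- the separable subspace
    let S : Submodule ℝ (YT F' N) := Submodule.span ℝ (Set.range fun p : ℕ × ℕ => zc N (cuts s₀) p.1 p.2)
    have hS : IsSeparable (S : Set (YT F' N)) := ((Set.countable_range _).isSeparable).span
    obtain ⟨T, hST, hTs, f, hf⟩ := hscp S hS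
    let P : YT F' N →L[ℝ] YT F' N := T.subtypeL.comp f
    have hPT : ∀ y, P y ∈ T := fun y => (f y).2
    have hPf : ∀ y ∈ T, P y = y := fun y hy => by
      have := hf ⟨y, hy⟩
      show ((f y : T) : YT F' N) = y
      rw [this]
    refine not_compl hFi' hdc (fun T f hf B hB => htr F' N T f hf B hB) cuts hbig s₀ P
      (fun y => hPf _ (hPT y)) ?_ ?_
    · exact hTs.mono (by rintro _ ⟨y, rfl⟩; exact hPT y)
    · intro k j _
      exact hPf _ (hST (Submodule.subset_span ⟨(k, j), rfl⟩))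

theorem not_question (htr : ∀ {Ω M : Type} [TopologicalSpace Ω] [MetricSpace M] (F : C(Ω, M)) (N : Net M), TRC F N) :
    ¬ Pool.Agent.W711.SCP.Question := by
  rw [Pool.Agent.W711.SCP.question_iff]
  intro h
  obtain ⟨Y, i1, i2, i3, h1, h2⟩ := counter htr
  exact h2 (h Y h1)

end

end Pool.Agent.TH313.SC
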