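import Mathlib

/-! Real functions vanishing at infinity on a topological space. -/

set_option autoImplicit false

namespace Pool.Agent.TH313.SC

open Set Filter Topology

variable {Ω : Type*} [TopologicalSpace Ω]

/-- continuous functions vanishing at infinity -/
def C0 (f : Ω → ℝ) : Prop := Continuous f ∧ ∀ ε > 0, IsCompact {t | ε ≤ |f t|}

theorem C0.cont {f : Ω → ℝ} (h : C0 f) : Continuous f := h.1

/-- a continuous function dominated by a function which vanishes at infinity -/
theorem C0.of_le {f g : Ω → ℝ} (hf : C0 f) (hg : Continuous g) {c : ℝ} (hc : 0 < c) (h : ∀ t, |g t| ≤ c * |f t|) :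
    C0 g := by
  refine ⟨hg, fun ε hε => ?_⟩
  refine (hf.2 (ε / c) (by positivity)).of_isClosed_subset (isClosed_le continuous_const hg.abs) ?_
  intro t ht
  have h1 : ε ≤ |g t| := ht
  show ε / c ≤ |f t|
  rw [div_le_iff₀ hc, mul_comm]
  exact h1.trans (h t)

theorem C0.zero : C0 (fun _ : Ω => (0 : ℝ)) := by
  refine ⟨continuous_const, fun ε hε => ?_⟩
  have : {t : Ω | ε ≤ |(0 : ℝ)|} = ∅ := by
    ext t
    simp only [abs_zero, mem_ofPred_eq, mem_empty_iff_false, iff_false, not_le]
    exact hε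
  rw [this]
  exact isCompact_empty

theorem C0.add {f g : Ω → ℝ} (hf : C0 f) (hg : C0 g) : C0 (fun t => f t + g t) := by
  refine ⟨hf.1.add hg.1, fun ε hε => ?_⟩
  refine ((hf.2 (ε / 2) (by positivity)).union (hg.2 (ε / 2) (by positivity))).of_isClosed_subset
    (isClosed_le continuous_const (hf.1.add hg.1).abs) ?_
  intro t ht
  have h1 : ε ≤ |f t + g t| := ht
  have h2 := abs_add_le (f t) (g t)
  rcases le_total (ε / 2) (|f t|) with h3 | h3
  · exact Or.inl h3
  · refine Or.inr ?_
    show ε / 2 ≤ |g t|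
    linarith

theorem C0.mul_left {f g : Ω → ℝ} (hf : C0 f) (hg : Continuous g) {c : ℝ} (hc : 0 < c) (h : ∀ t, |g t| ≤ c) :
    C0 (fun t => g t * f t) := by
  refine hf.of_le (hg.mul hf.1) hc fun t => ?_
  rw [abs_mul]
  exact mul_le_mul_of_nonneg_right (h t) (abs_nonneg _)

theorem C0.const_mul {f : Ω → ℝ} (hf : C0 f) (c : ℝ) : C0 (fun t => c * f t) :=
  hf.mul_left continuous_const (c := |c| + 1) (by positivity) (fun _ => by linarith)

theorem C0.neg {f : Ω → ℝ} (hf : C0 f) : C0 (fun t => -f t) := by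
  have := hf.const_mul (-1)
  simpa using this

theorem C0.sub {f g : Ω → ℝ} (hf : C0 f) (hg : C0 g) : C0 (fun t => f t - g t) := by
  have := hf.add hg.neg
  simpa [sub_eq_add_neg] using this

theorem C0.max {f g : Ω → ℝ} (hf : C0 f) (hg : C0 g) : C0 (fun t => max (f t) (g t)) := by
  refine ⟨hf.1.max hg.1, fun ε hε => ?_⟩
  refine ((hf.2 ε hε).union (hg.2 ε hε)).of_isClosed_subset (isClosed_le continuous_const (hf.1.max hg.1).abs) ?_
  intro t ht
  have h1 : ε ≤ |Max.max (f t) (g t)| := ht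
  rcases max_choice (f t) (g t) with h2 | h2
  · rw [h2] at h1; exact Or.inl h1
  · rw [h2] at h1; exact Or.inr h1

theorem C0.min {f g : Ω → ℝ} (hf : C0 f) (hg : C0 g) : C0 (fun t => min (f t) (g t)) := by
  refine ⟨hf.1.min hg.1, fun ε hε => ?_⟩
  refine ((hf.2 ε hε).union (hg.2 ε hε)).of_isClosed_subset (isClosed_le continuous_const (hf.1.min hg.1).abs) ?_
  intro t ht
  have h1 : ε ≤ |Min.min (f t) (g t)| := ht
  rcases min_choice (f t) (g t) with h2 | h2
  · rw [h2] at h1; exact Or.inl h1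
  · rw [h2] at h1; exact Or.inr h1

theorem C0.abs {f : Ω → ℝ} (hf : C0 f) : C0 (fun t => |f t|) := by
  refine hf.of_le hf.1.abs one_pos fun t => ?_
  rw [abs_abs, one_mul]

/-- functions vanishing at infinity are bounded -/
theorem C0.bdd {f : Ω → ℝ} (hf : C0 f) : ∃ c, 0 < c ∧ ∀ t, |f t| ≤ c := by
  obtain ⟨c, hc⟩ := (hf.2 1 one_pos).bddAbove_image (f := fun t => |f t|) hf.1.abs.continuousOn
  refine ⟨Max.max c 1, by positivity, fun t => ?_⟩
  rcases le_total 1 |f t| with h | h
  · exact (hc (mem_image_of_mem _ h)).trans (le_max_left _ _)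
  · exact h.trans (le_max_right _ _)

end Pool.Agent.TH313.SC
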