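import Pool.Agent.TH313.HI.Op1

/-! The contradiction with special functionals, for spaces normed by a family of evaluations. -/

set_option autoImplicit false

namespace Pool.Agent.TH313.SC

open Finset Filter Topology Pool.Agent.TH313.HI
open scoped BoundedContinuousFunction

noncomputable section

theorem cw_rsmul (r : ℝ) (w : WT) : cw (r • w) = (r : ℂ) • cw w := by
  have h : r • w = (r : ℂ) • w := rfl
  rw [h, _root_.map_smul]

variable {E Ω : Type*} [NormedAddCommGroup E] [NormedSpace ℝ E]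

/-- the evaluations determine the norm -/
def Norming (e : Ω → E →ₗ[ℝ] WT) : Prop := ∀ (y : E) (C : ℝ), 0 ≤ C → (∀ t, ‖e t y‖ ≤ C) → ‖y‖ ≤ C

/-- the data of the localized functionals -/
structure LocData (e : Ω → E →ₗ[ℝ] WT) (T : E →L[ℝ] WT) (z : ℕ → E) (w : ℕ → ℕ) (φ : ℕ → V → ℂ) (Δ : ℂ) : Prop where
  wm : StrictMono w
  lev : ∀ i t, OnLv (w i) (w (i + 1) - 1) (cw (e t (z i)))
  loc : ∀ i, Loc (w i) (w (i + 1) - 1) (φ i)
  off : ∀ i i', i ≠ i' → ‖φ i (cw (T (z i')))‖ ≤ (1 / 2) ^ i * (1 / 2) ^ i'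
  bal : ∃ C₀ : ℝ, 0 ≤ C₀ ∧ ∀ η > 0, ∃ a₀ : ℕ, ∀ a ≥ a₀, ∀ (m : ℕ) (t : Ω),
    ‖∑ i ∈ Ico (2 * a) (2 * a + 2 * m), φ i (cw (e t (z i)))‖ ≤ m * η + C₀
  diag1 : Tendsto (fun i => φ (2 * i) (cw (T (z (2 * i)))) + φ (2 * i + 1) (cw (T (z (2 * i + 1))))) atTop
    (𝓝 (2 * Δ))
  ne : Δ ≠ 0

open Contra in
theorem contra [Nonempty Ω] {e : Ω → E →ₗ[ℝ] WT} (he : Norming e) (T : E →L[ℝ] WT) {C : ℝ} {z : ℕ → E}
    {A B J : ℕ → ℕ} (h : ∀ s, RIS C (fun l => cw (e s (z l))) A B J) {w : ℕ → ℕ} {φ : ℕ → V → ℂ} {Δ : ℂ}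
    (hL : LocData e T z w φ Δ) : False := by
  classical
  obtain ⟨s₀⟩ := ‹Nonempty Ω›
  have hC1 := (h s₀).hC
  have hC : 0 ≤ C := by linarith
  have hΔ : 0 < ‖Δ‖ := norm_pos_iff.2 hL.ne
  have hw := hL.wm
  have hloc := hL.loc
  choose c t a b hc ht ha hab hb hφ using hL.loc
  obtain ⟨C₀, hC₀, hbal⟩ := hL.bal
  -- the special weight
  obtain ⟨N, hN⟩ := exists_nat_gt (16 / ‖Δ‖ + 16 * C * ‖T‖ / ‖Δ‖ + C₀)
  let p : ℕ := 2 * N + 1
  have hp : p % 2 = 1 := by show (2 * N + 1) % 2 = 1; omega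
  have hNp : N ≤ p := by show N ≤ 2 * N + 1; omega
  have hpN : (N : ℝ) < mm p := lt_of_le_of_lt (by exact_mod_cast hNp) (lt_mm' p)
  have hnp := nn_pos' p
  have hmp := mm_pos' p
  -- the first index
  have hd1 := (Metric.tendsto_atTop.1 hL.diag1) (‖Δ‖ / 2) (by positivity)
  obtain ⟨a₀, ha₀⟩ := hbal (1 / nn p) (by positivity)
  obtain ⟨a₁, ha₁⟩ := hd1
  let i₀ : ℕ := 2 * max a₀ a₁
  let q₀ : ℕ := 4 * thr p + 2
  let q : ℕ → ℕ := qk w c t a b q₀ i₀
  let ii : ℕ → ℕ := ik w c t a b q₀ i₀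
  let G : ℕ → Tr × ℕ × ℕ := Gk w c t a b q₀ i₀
  have hq0 : q₀ % 4 = 2 := by show (4 * thr p + 2) % 4 = 2; omega
  have hqe : ∀ k, q k % 2 = 0 := fun k => qk_even w c t a b q₀ i₀ k hq0
  have hii : StrictMono ii := ik_strictMono w c t a b q₀ i₀
  have hiis : ∀ k, ii (k + 1) = ii k + nn (q k) := fun k => ik_succ w c t a b q₀ i₀ k
  have hii0 : ii 0 = i₀ := rfl
  have hiie : ∀ k, 2 ∣ ii k := fun k => ik_even w c t a b q₀ i₀ k (dvd_mul_right 2 _)
  have hG : ∀ k, G k = mk w c t a b (q k) (ii k) := fun _ => rfl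
  have hG1 : ∀ k, (G k).2.1 = w (ii k) := fun _ => rfl
  have hG2 : ∀ k, (G k).2.2 = w (ii (k + 1)) - 1 := fun k => by rw [hiis]; rfl
  have hwf : ∀ k, (G k).1.Wf := fun k => mk_wf hw hc ht ha hab hb (hqe k) (ii k)
  let x : ℕ → E := fun k => ((mm (q k) : ℝ) / nn (q k)) • ∑ i ∈ Ico (ii k) (ii (k + 1)), z i
  have hcard : ∀ k, #(Ico (ii k) (ii (k + 1))) = nn (q k) := fun k => by
    rw [Nat.card_Ico, hiis]; omega
  have hcx : ∀ s k, cw (e s (x k)) =
      ((mm (q k) : ℂ) / nn (q k)) • ∑ i ∈ Ico (ii k) (ii (k + 1)), cw (e s (z i)) := by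
    intro s k
    show cw (e s (((mm (q k) : ℝ) / nn (q k)) • ∑ i ∈ Ico (ii k) (ii (k + 1)), z i)) = _
    rw [_root_.map_smul, cw_rsmul, _root_.map_sum, _root_.map_sum]
    push_cast
    rfl
  have hw1 : ∀ k, 1 ≤ w (ii (k + 1)) := fun k => by
    have h1 := hw.id_le (ii (k + 1))
    have h2 := hii.id_le (k + 1)
    simp only [id] at h1 h2
    omega
  -- values of the functionals on the averages
  have hφz : ∀ s i i', i ≠ i' → φ i (cw (e s (z i'))) = 0 := by
    intro s i i' hii'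
    rw [hφ]
    have h1 := hL.lev i' s
    have h2 : cut (a i) (b i) (cw (e s (z i'))) = 0 := by
      apply h1.cut_zero
      have h3 := ha i
      have h4 := hb i
      have h6 := hw (Nat.lt_succ_self i)
      have h7 := hw (Nat.lt_succ_self i')
      simp only [Nat.succ_eq_add_one] at h6 h7
      rcases lt_or_gt_of_ne hii' with h5 | h5
      · have := hw.monotone (show i + 1 ≤ i' from h5)
        omega
      · have := hw.monotone (show i' + 1 ≤ i from h5)
        omega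
    rw [h2, _root_.map_zero, mul_zero]
  have hevG : ∀ k y, ev (G k).1 (cut (G k).2.1 (G k).2.2 y) =
      (mm (q k) : ℂ)⁻¹ * ∑ i ∈ Ico (ii k) (ii (k + 1)), φ i y := by
    intro k y
    rw [hG, ev_mk hw ha hb, hiis]
    congr 1
    refine Finset.sum_congr rfl fun i _ => ?_
    rw [hφ]
  have hlevz : ∀ s k, ∀ i ∈ Ico (ii k) (ii (k + 1)), OnLv (w (ii k)) (w (ii (k + 1)) - 1) (cw (e s (z i))) := by
    intro s k i hi
    rw [mem_Ico] at hi
    refine (hL.lev i s).mono (hw.monotone hi.1) ?_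
    have := hw.monotone (show i + 1 ≤ ii (k + 1) from hi.2)
    omega
  have hlevx : ∀ s k, OnLv (w (ii k)) (w (ii (k + 1)) - 1) (cw (e s (x k))) := by
    intro s k l g hlg
    rw [hcx]
    show ((mm (q k) : ℂ) / nn (q k)) • (∑ i ∈ Ico (ii k) (ii (k + 1)), cw (e s (z i))) l g = 0
    rw [Finset.sum_apply, Finset.sum_apply, Finset.sum_eq_zero, smul_zero]
    intro i hi
    exact hlevz s k i hi l g hlg
  -- pair sums
  have hpair : ∀ (g : ℕ → ℂ) (D : ℂ) (η : ℝ),
      (∀ j, max a₀ a₁ ≤ j → ‖g (2 * j) + g (2 * j + 1) - 2 * D‖ ≤ 2 * η) → ∀ k,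
      ‖(nn (q k) : ℂ)⁻¹ * ∑ i ∈ Ico (ii k) (ii (k + 1)), g i - D‖ ≤ η := by
    intro g D η hg k
    obtain ⟨a', ha'⟩ := hiie k
    obtain ⟨m', hm'⟩ := two_dvd_nn (q k)
    have h1 : max a₀ a₁ ≤ a' := by
      have h2 : ii 0 ≤ ii k := hii.monotone (Nat.zero_le k)
      rw [hii0, ha'] at h2
      have h3 : i₀ = 2 * max a₀ a₁ := rfl
      omega
    have h2 := pairSum g D (2 * η) a' (fun j hj => hg j (h1.trans hj)) m'
    rw [hiis, ha']
    have hn := nn_pos' (q k)
    have h3 : (nn (q k) : ℂ) ≠ 0 := by exact_mod_cast hn.ne'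
    rw [← hm'] at h2
    have h4 : (nn (q k) : ℂ)⁻¹ * ∑ i ∈ Ico (2 * a') (2 * a' + nn (q k)), g i - D =
        (nn (q k) : ℂ)⁻¹ * (∑ i ∈ Ico (2 * a') (2 * a' + nn (q k)), g i - (nn (q k) : ℕ) * D) := by
      field_simp
    rw [h4, norm_mul, norm_inv, Complex.norm_natCast, inv_mul_le_iff₀ hn]
    refine h2.trans (le_of_eq ?_)
    have : (nn (q k) : ℝ) = 2 * m' := by exact_mod_cast hm'
    rw [this]
    ring
  -- the balanced sums
  have hbalk : ∀ s k, ‖(nn (q k) : ℂ)⁻¹ * ∑ i ∈ Ico (ii k) (ii (k + 1)), φ i (cw (e s (z i)))‖ ≤ 1 / nn p := by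
    intro s k
    obtain ⟨a', ha'⟩ := hiie k
    obtain ⟨m', hm'⟩ := two_dvd_nn (q k)
    have h1 : a₀ ≤ a' := by
      have h2 : ii 0 ≤ ii k := hii.monotone (Nat.zero_le k)
      rw [hii0, ha'] at h2
      have h3 : i₀ = 2 * max a₀ a₁ := rfl
      have h4 := le_max_left a₀ a₁
      omega
    have h2 := ha₀ a' h1 m' s
    rw [hiis, ha', norm_mul, norm_inv, Complex.norm_natCast]
    rw [← hm'] at h2
    have hn := nn_pos' (q k)
    have h3 : (nn (q k) : ℝ) = 2 * m' := by exact_mod_cast hm'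
    have h4 : 2 * (nn p : ℝ) ^ 2 ≤ nn (q k) := by
      have h5 : thr p ≤ q k := by
        have h6 : ∀ k, thr p ≤ q k := by
          intro k
          induction k with
          | zero =>
            show thr p ≤ qk w c t a b q₀ i₀ 0
            rw [qk_zero]
            show thr p ≤ 4 * thr p + 2
            omega
          | succ k ih =>
            have h7 : q k < q (k + 1) := by
              show qk w c t a b q₀ i₀ k < qk w c t a b q₀ i₀ (k + 1)
              rw [qk_succ]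
              refine lt_of_le_of_lt ?_ (wsum_lt_sig _)
              unfold wsum
              have h8 : (G k).1.wt ≤ ((List.ofFn fun i : Fin (k + 1) => G i).map fun s => s.1.wt).sum := by
                apply List.single_le_sum (fun _ _ => Nat.zero_le _)
                rw [List.mem_map]
                exact ⟨G k, by rw [List.mem_ofFn]; exact ⟨⟨k, by omega⟩, rfl⟩, rfl⟩
              have h9 : (G k).1.wt = q k + 1 := rfl
              rw [h9] at h8
              exact le_trans (Nat.le_succ _) h8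
            omega
        exact h6 k
      have h7 : (q k : ℝ) ≤ nn (q k) := by
        have h8 := lt_mm' (q k)
        have h9 := mm_le_nn (q k)
        have h10 := one_le_mm (q k)
        have h11 : (mm (q k) : ℝ) ≤ (mm (q k) : ℝ) ^ 4 := le_self_pow₀ (by linarith) (by norm_num)
        linarith
      have h8 : (2 * (nn p : ℝ) ^ 2 + p + 2) ≤ q k := by
        unfold thr at h5
        exact_mod_cast h5
      have h9 : (0 : ℝ) ≤ p := Nat.cast_nonneg _
      linarith
    have h5 : C₀ ≤ nn p := by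
      have h6 : (mm p : ℝ) ≤ nn p := by
        have h9 := mm_le_nn p
        have h10 := one_le_mm p
        have h11 : (mm p : ℝ) ≤ (mm p : ℝ) ^ 4 := le_self_pow₀ (by linarith) (by norm_num)
        linarith
      have h7 : 0 ≤ 16 / ‖Δ‖ := by positivity
      have h8 : 0 ≤ 16 * C * ‖T‖ / ‖Δ‖ := by positivity
      linarith
    rw [inv_mul_le_iff₀ hn]
    refine h2.trans ?_
    have h6 : (nn (q k) : ℝ) * (1 / nn p) = 2 * m' * (1 / nn p) := by rw [h3]
    have h7 : C₀ ≤ m' * (1 / nn p) := by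
      rw [mul_one_div, le_div_iff₀ hnp]
      nlinarith
    rw [h6]
    linarith
  -- the dependent sequence
  have hdep : ∀ s, Dep C p (fun k => cw (e s (x k))) q G := by
    intro s
    refine ⟨(h s).hC, hp, ?_, ?_, ?_, hwf, fun _ => rfl, ?_, ?_, fun k => qk_succ w c t a b q₀ i₀ k, ?_, ?_, ?_, ?_⟩
    · intro k
      rw [hG1, hG2]
      exact hlevx s k
    · intro k
      rw [hG1, hG2]
      have := hw (hii (Nat.lt_succ_self k))
      simp only [Nat.succ_eq_add_one] at this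
      omega
    · intro k k' hk
      rw [hG1, hG2]
      have h1 := hw.monotone (hii.monotone (show k + 1 ≤ k' from hk))
      have h2 := hw1 k
      omega
    · show qk w c t a b q₀ i₀ 0 % 4 = 2
      rw [qk_zero]
      exact hq0
    · show thr p ≤ qk w c t a b q₀ i₀ 0
      rw [qk_zero]
      show thr p ≤ 4 * thr p + 2
      omega
    · intro k
      show Bd (4 * C) (cw (e s (x k)))
      rw [hcx]
      exact (h s).avg_bd (hcard k)
    · intro k t' hw' i hi hiq α β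
      show ‖ev t' (cut α β (cw (e s (x k))))‖ ≤ _
      rw [hcx]
      exact (h s).avg_low (hcard k) t' hw' i hi hiq α β
    · intro k t' hw' i hi α β
      show ‖ev t' (cut α β (cw (e s (x k))))‖ ≤ _
      rw [hcx]
      exact (h s).avg_high (hcard k) t' hw' i hi α β
    · intro k
      show ‖ev (G k).1 (cw (e s (x k)))‖ ≤ 1 / nn p
      have h1 : cut (G k).2.1 (G k).2.2 (cw (e s (x k))) = cw (e s (x k)) :=
        OnLv.cut_eq (by rw [hG1, hG2]; exact hlevx s k) le_rfl le_rfl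
      rw [← h1, hevG]
      have h2 : ∀ i ∈ Ico (ii k) (ii (k + 1)), φ i (cw (e s (x k))) =
          ((mm (q k) : ℂ) / nn (q k)) * φ i (cw (e s (z i))) := by
        intro i hi
        rw [hcx, (hloc i).map_smul, (hloc i).map_sum, Finset.sum_eq_single_of_mem i hi]
        intro i' _ hne
        exact hφz s i i' (Ne.symm hne)
      rw [Finset.sum_congr rfl h2, ← Finset.mul_sum, ← mul_assoc]
      have hm : (mm (q k) : ℂ) ≠ 0 := by exact_mod_cast (mm_pos' (q k)).ne'
      have h3 : (mm (q k) : ℂ)⁻¹ * ((mm (q k) : ℂ) / nn (q k)) = (nn (q k) : ℂ)⁻¹ := by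
        field_simp
      rw [h3]
      exact hbalk s k
  -- the norm of the image
  let X : E := ∑ k ∈ range (nn p), x k
  have hX : ‖X‖ ≤ 8 * C * (nn p / (mm p) ^ 2) := by
    apply he X _ (by positivity)
    intro s
    apply WT.norm_le (by positivity)
    show Bd _ (cw (e s (∑ k ∈ range (nn p), x k)))
    rw [_root_.map_sum, _root_.map_sum]
    exact (hdep s).bound
  have hTX : ‖T X‖ ≤ ‖T‖ * (8 * C * (nn p / (mm p) ^ 2)) :=
    (T.le_opNorm X).trans (mul_le_mul_of_nonneg_left hX (norm_nonneg _))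
  -- the special functional
  let H : Tr := Tr.node p (nn p) (fun _ => (1, 0)) (fun i => (G i).2.1) (fun i => (G i).2.2) (fun i => (G i).1)
  have hHwf : H.Wf := by
    refine ⟨le_rfl, fun i => hwf i, fun i => by simp [HI.cc], fun i => (hdep s₀).le i, fun i i' hi => (hdep s₀).suc _ _ hi,
      fun _ => ⟨fun _ => rfl, fun i => ?_⟩⟩
    split_ifs with hi0
    · refine ⟨q 0, (hdep s₀).q0, (hdep s₀).q0', ?_⟩
      show (G (i : ℕ)).1.wt = q 0 + 1
      rw [hi0]
      rfl
    · obtain ⟨i', hi'⟩ : ∃ i', (i : ℕ) = i' + 1 := ⟨i - 1, by omega⟩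
      have h1 : hist (fun i : Fin (nn p) => (G i).2.1) (fun i : Fin (nn p) => (G i).2.2)
          (fun i : Fin (nn p) => (G i).1) i = List.ofFn fun s : Fin (i' + 1) => G s := by
        unfold hist
        have hil := i.2
        apply List.ext_getElem
        · rw [List.length_take, List.length_ofFn, List.length_ofFn]
          omega
        · intro n h2 h3
          rw [List.getElem_take, List.getElem_ofFn, List.getElem_ofFn]
      rw [hi'] at h1
      show (G (i : ℕ)).1.wt = _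
      rw [hi', h1, ← (hdep s₀).qs]
      rfl
  have hev : ‖ev H (cut 0 (w (ii (nn p))) (cw (T X)))‖ ≤ ‖T X‖ := (T X).bd H hHwf _ _
  -- the value
  have hval : ev H (cut 0 (w (ii (nn p))) (cw (T X))) = (mm p : ℂ)⁻¹ * ∑ k ∈ range (nn p),
      ((mm (q k) : ℂ)⁻¹ * ∑ i ∈ Ico (ii k) (ii (k + 1)), φ i (cw (T X))) := by
    show ev (Tr.node p (nn p) (fun _ => (1, 0)) (fun i => (G i).2.1) (fun i => (G i).2.2) (fun i => (G i).1)) _ = _
    rw [ev_node, ← Fin.sum_univ_eq_sum_range (fun k => (mm (q k) : ℂ)⁻¹ * ∑ i ∈ Ico (ii k) (ii (k + 1)), φ i (cw (T X)))]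
    congr 1
    refine Finset.sum_congr rfl fun k _ => ?_
    rw [← hevG, cut_cut, max_eq_left (Nat.zero_le _)]
    have h1 : (G k).2.2 ≤ w (ii (nn p)) := by
      rw [hG2]
      have := hw.monotone (hii.monotone (show (k : ℕ) + 1 ≤ nn p from k.2))
      omega
    rw [min_eq_left h1]
    simp [HI.cc]
  -- the off-diagonal part
  have hTXeq : ∀ i, φ i (cw (T X)) = ∑ k' ∈ range (nn p), ((mm (q k') : ℂ) / nn (q k')) *
      ∑ i' ∈ Ico (ii k') (ii (k' + 1)), φ i (cw (T (z i'))) := by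
    intro i
    show φ i (cw (T (∑ k ∈ range (nn p), x k))) = _
    rw [_root_.map_sum, _root_.map_sum, (hloc i).map_sum]
    refine Finset.sum_congr rfl fun k' _ => ?_
    show φ i (cw (T (((mm (q k') : ℝ) / nn (q k')) • ∑ i ∈ Ico (ii k') (ii (k' + 1)), z i))) = _
    rw [_root_.map_smul, cw_rsmul, (hloc i).map_smul, _root_.map_sum, _root_.map_sum, (hloc i).map_sum]
    push_cast
    rfl
  have hoff : ∀ k < nn p, ∀ i ∈ Ico (ii k) (ii (k + 1)),
      ‖φ i (cw (T X)) - ((mm (q k) : ℂ) / nn (q k)) * φ i (cw (T (z i)))‖ ≤ 2 * (1 / 2) ^ i := by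
    intro k hk i hi
    have h1 : ((mm (q k) : ℂ) / nn (q k)) * φ i (cw (T (z i))) = ∑ k' ∈ range (nn p),
        ((mm (q k') : ℂ) / nn (q k')) * ∑ i' ∈ Ico (ii k') (ii (k' + 1)), (if i' = i then φ i (cw (T (z i))) else 0) := by
      rw [Finset.sum_eq_single_of_mem k (mem_range.2 hk)]
      · rw [Finset.sum_ite_eq' (Ico (ii k) (ii (k + 1))) i, if_pos hi]
      · intro k' _ hne
        rw [Finset.sum_eq_zero, mul_zero]
        intro i' hi'
        rw [if_neg]
        rintro rfl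
        rw [mem_Ico] at hi hi'
        rcases lt_or_gt_of_ne hne with h5 | h5
        · have := hii.monotone (show k' + 1 ≤ k from h5)
          omega
        · have := hii.monotone (show k + 1 ≤ k' from h5)
          omega
    rw [hTXeq, h1, ← Finset.sum_sub_distrib]
    have h2 : ∀ k' ∈ range (nn p), ‖((mm (q k') : ℂ) / nn (q k')) * ∑ i' ∈ Ico (ii k') (ii (k' + 1)), φ i (cw (T (z i'))) -
        ((mm (q k') : ℂ) / nn (q k')) * ∑ i' ∈ Ico (ii k') (ii (k' + 1)), (if i' = i then φ i (cw (T (z i))) else 0)‖ ≤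
        ∑ i' ∈ Ico (ii k') (ii (k' + 1)), (1 / 2) ^ i * (1 / 2) ^ i' := by
      intro k' _
      rw [← mul_sub, ← Finset.sum_sub_distrib, norm_mul, norm_div, Complex.norm_natCast, Complex.norm_natCast]
      have h3 : (mm (q k') : ℝ) / nn (q k') ≤ 1 := by
        refine (mm_div_nn_le _).trans ?_
        rw [div_le_one (pow_pos (mm_pos' _) 3)]
        exact one_le_pow₀ (by linarith [one_le_mm (q k')])
      have h4 : (0 : ℝ) ≤ (mm (q k') : ℝ) / nn (q k') := by positivity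
      refine (mul_le_of_le_one_left (norm_nonneg _) h3).trans ?_
      refine (norm_sum_le _ _).trans (Finset.sum_le_sum fun i' _ => ?_)
      split_ifs with h5
      · rw [h5, sub_self, norm_zero]; positivity
      · rw [sub_zero]; exact hL.off i i' (Ne.symm h5)
    refine (norm_sum_le _ _).trans ((Finset.sum_le_sum h2).trans ?_)
    have h3 : ∀ n, ∑ k' ∈ range n, ∑ i' ∈ Ico (ii k') (ii (k' + 1)), ((1 : ℝ) / 2) ^ i * (1 / 2) ^ i' =
        ∑ i' ∈ Ico (ii 0) (ii n), (1 / 2) ^ i * (1 / 2) ^ i' := by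
      intro n
      induction n with
      | zero => simp
      | succ n ih =>
        rw [Finset.sum_range_succ, ih, Finset.sum_Ico_consecutive _ (hii.monotone (Nat.zero_le n))
          (hii.monotone (Nat.le_succ n))]
    rw [h3, ← Finset.mul_sum]
    have h4 := sum_half_le (Ico (ii 0) (ii (nn p)))
    have h5 : (0 : ℝ) ≤ (1 / 2) ^ i := by positivity
    nlinarith
  -- each summand is close to `Δ`
  have hterm : ∀ k < nn p, ‖(mm (q k) : ℂ)⁻¹ * ∑ i ∈ Ico (ii k) (ii (k + 1)), φ i (cw (T X)) - Δ‖ ≤ ‖Δ‖ / 2 := by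
    intro k hk
    have h1 := hpair (fun i => φ i (cw (T (z i)))) Δ (‖Δ‖ / 4) (fun j hj => by
      have h5 := (ha₁ j ((le_max_right _ _).trans hj)).le
      rw [dist_eq_norm] at h5
      refine h5.trans (by linarith)) k
    have hm : (mm (q k) : ℂ) ≠ 0 := by exact_mod_cast (mm_pos' (q k)).ne'
    have h2 : (mm (q k) : ℂ)⁻¹ * ∑ i ∈ Ico (ii k) (ii (k + 1)), φ i (cw (T X)) - Δ =
        (mm (q k) : ℂ)⁻¹ * ∑ i ∈ Ico (ii k) (ii (k + 1)),
          (φ i (cw (T X)) - ((mm (q k) : ℂ) / nn (q k)) * φ i (cw (T (z i)))) +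
        ((nn (q k) : ℂ)⁻¹ * ∑ i ∈ Ico (ii k) (ii (k + 1)), φ i (cw (T (z i))) - Δ) := by
      rw [Finset.sum_sub_distrib, ← Finset.mul_sum, mul_sub, ← mul_assoc (mm (q k) : ℂ)⁻¹]
      have h3 : (mm (q k) : ℂ)⁻¹ * ((mm (q k) : ℂ) / nn (q k)) = (nn (q k) : ℂ)⁻¹ := by
        field_simp
      rw [h3]
      ring
    rw [h2]
    refine (norm_add_le _ _).trans ?_
    have h3 : ‖(mm (q k) : ℂ)⁻¹ * ∑ i ∈ Ico (ii k) (ii (k + 1)),
        (φ i (cw (T X)) - ((mm (q k) : ℂ) / nn (q k)) * φ i (cw (T (z i))))‖ ≤ ‖Δ‖ / 4 := by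
      rw [norm_mul, norm_inv, Complex.norm_natCast, inv_mul_le_iff₀ (mm_pos' _)]
      have h4 : ‖∑ i ∈ Ico (ii k) (ii (k + 1)),
          (φ i (cw (T X)) - ((mm (q k) : ℂ) / nn (q k)) * φ i (cw (T (z i))))‖ ≤ 4 := by
        refine (norm_sum_le _ _).trans ((Finset.sum_le_sum (hoff k hk)).trans ?_)
        rw [← Finset.mul_sum]
        have := sum_half_le (Ico (ii k) (ii (k + 1)))
        linarith
      refine h4.trans ?_
      have h5 : (N : ℝ) ≤ mm (q k) := by
        have h6 : thr p ≤ q k := (hdep s₀).thr_le k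
        have h7 : p ≤ thr p := by unfold thr; omega
        have h8 := lt_mm (q k)
        exact_mod_cast (hNp.trans (h7.trans h6)).trans h8.le
      have h6 : 16 / ‖Δ‖ ≤ N := by
        have : (0 : ℝ) ≤ 16 * C * ‖T‖ / ‖Δ‖ := by positivity
        linarith
      rw [div_le_iff₀ hΔ] at h6
      nlinarith
    linarith
  -- the lower estimate
  have hlow : (nn p : ℝ) * (‖Δ‖ / 2) ≤ mm p * ‖T X‖ := by
    have h1 : ‖∑ k ∈ range (nn p), ((mm (q k) : ℂ)⁻¹ * ∑ i ∈ Ico (ii k) (ii (k + 1)), φ i (cw (T X))) -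
        (nn p : ℂ) * Δ‖ ≤ nn p * (‖Δ‖ / 2) := by
      have h2 : (nn p : ℂ) * Δ = ∑ k ∈ range (nn p), Δ := by rw [sum_const, card_range, nsmul_eq_mul]
      rw [h2, ← Finset.sum_sub_distrib]
      refine (norm_sum_le _ _).trans ?_
      calc _ ≤ ∑ k ∈ range (nn p), ‖Δ‖ / 2 := Finset.sum_le_sum fun k hk => hterm k (mem_range.1 hk)
        _ = nn p * (‖Δ‖ / 2) := by rw [sum_const, card_range, nsmul_eq_mul]
    rw [hval, norm_mul, norm_inv, Complex.norm_natCast, inv_mul_le_iff₀ hmp] at hev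
    have h3 : ‖(nn p : ℂ) * Δ‖ = nn p * ‖Δ‖ := by rw [norm_mul, Complex.norm_natCast]
    have h4 := norm_sub_norm_le ((nn p : ℂ) * Δ)
      (∑ k ∈ range (nn p), ((mm (q k) : ℂ)⁻¹ * ∑ i ∈ Ico (ii k) (ii (k + 1)), φ i (cw (T X))))
    rw [norm_sub_rev] at h4
    rw [h3] at h4
    linarith
  have h1 : (nn p : ℝ) * (‖Δ‖ / 2) ≤ nn p * (8 * C * ‖T‖ / mm p) := by
    refine hlow.trans ((mul_le_mul_of_nonneg_left hTX hmp.le).trans (le_of_eq ?_))
    field_simp
  have h2 := le_of_mul_le_mul_left h1 hnp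
  rw [le_div_iff₀ hmp] at h2
  have h3 : 16 * C * ‖T‖ / ‖Δ‖ < mm p := by
    have : 0 < 16 / ‖Δ‖ := by positivity
    linarith
  rw [div_lt_iff₀ hΔ] at h3
  linarith

end

end Pool.Agent.TH313.SC
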