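import Pool.Agent.TH313.SC.Contra
import Pool.Agent.TH313.HI.Op2

/-! Localization of functionals, for spaces normed by a family of evaluations. -/

set_option autoImplicit false

namespace Pool.Agent.TH313.SC

open Finset Filter Topology Pool.Agent.TH313.HI
open scoped BoundedContinuousFunction

noncomputable section

variable {E Ω : Type*} [NormedAddCommGroup E] [NormedSpace ℝ E]

/-- rapidly increasing sequences are weakly null -/
theorem weakNull {e : Ω → E →ₗ[ℝ] WT} (he : Norming e) {C : ℝ} {z : ℕ → E} {A B J : ℕ → ℕ} [Nonempty Ω]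
    (h : ∀ s, RIS C (fun l => cw (e s (z l))) A B J) (φ : E →L[ℝ] ℝ) : Tendsto (fun l => φ (z l)) atTop (𝓝 0) := by
  obtain ⟨s₀⟩ := ‹Nonempty Ω›
  by_contra hcon
  rw [Metric.tendsto_atTop] at hcon
  push Not at hcon
  obtain ⟨ε, hε, hfr⟩ := hcon
  have hfr' : ∃ᶠ l in atTop, ε ≤ ‖φ (z l)‖ := by
    rw [frequently_atTop]
    intro N
    obtain ⟨n, hn, hd⟩ := hfr N
    exact ⟨n, hn, by rwa [dist_zero_right] at hd⟩
  obtain ⟨ψ, hψ, hψε⟩ := extraction_of_frequently_atTop hfr'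
  choose θ hθ hθφ using fun l => show ∃ c : ℝ, ‖c‖ ≤ 1 ∧ c * φ (z (ψ l)) = ‖φ (z (ψ l))‖ by
    rcases le_total 0 (φ (z (ψ l))) with h1 | h1
    · exact ⟨1, by simp, by rw [Real.norm_of_nonneg h1, one_mul]⟩
    · exact ⟨-1, by simp, by rw [Real.norm_of_nonpos h1]; ring⟩
  have h1 : ∀ s, RIS C (fun l => cw (e s (θ l • z (ψ l)))) (fun l => A (ψ l)) (fun l => B (ψ l))
      (fun l => J (ψ l)) := by
    intro s
    have := ((h s).sub hψ).phase (θ := fun l => ((θ l : ℝ) : ℂ)) (fun l => by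
      rw [Complex.norm_real]; exact hθ l)
    simpa only [_root_.map_smul, cw_rsmul] using this
  obtain ⟨q, hq⟩ := exists_nat_gt (‖φ‖ * (4 * C) / ε)
  have hC : 0 ≤ 4 * C := by linarith [(h s₀).hC]
  have h2 : ‖((mm q : ℝ) / nn q) • ∑ l ∈ range (nn q), θ l • z (ψ l)‖ ≤ 4 * C := by
    apply he _ _ hC
    intro s
    apply WT.norm_le hC
    rw [_root_.map_smul, cw_rsmul, _root_.map_sum, _root_.map_sum]
    have hbd := (h1 s).avg_bd (I := range (nn q)) (q := q) (by rw [card_range])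
    push_cast
    exact hbd
  have h3 := (φ.le_opNorm (((mm q : ℝ) / nn q) • ∑ l ∈ range (nn q), θ l • z (ψ l))).trans
    (mul_le_mul_of_nonneg_left h2 (norm_nonneg _))
  rw [_root_.map_smul, _root_.map_sum, norm_smul] at h3
  have h4 : ∑ l ∈ range (nn q), φ (θ l • z (ψ l)) = ∑ l ∈ range (nn q), ‖φ (z (ψ l))‖ := by
    refine Finset.sum_congr rfl fun l _ => ?_
    rw [_root_.map_smul, smul_eq_mul, hθφ]
  have h5 : (nn q : ℝ) * ε ≤ ∑ l ∈ range (nn q), ‖φ (z (ψ l))‖ := by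
    calc (nn q : ℝ) * ε = ∑ l ∈ range (nn q), ε := by rw [sum_const, card_range, nsmul_eq_mul]
      _ ≤ _ := Finset.sum_le_sum fun l _ => hψε l
  have hn := nn_pos' q
  have hm := mm_pos' q
  rw [h4, Real.norm_of_nonneg (le_trans (by positivity) h5), Real.norm_of_nonneg (by positivity)] at h3
  have h6 : (mm q : ℝ) * ε ≤ ‖φ‖ * (4 * C) := by
    refine le_trans ?_ h3
    calc (mm q : ℝ) * ε = mm q / nn q * (nn q * ε) := by field_simp
      _ ≤ _ := mul_le_mul_of_nonneg_left h5 (by positivity)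
  rw [div_lt_iff₀ hε] at hq
  have h7 := lt_mm' q
  nlinarith

/-- the coordinates of the images of a rapidly increasing sequence tend to zero -/
theorem coord_null {e : Ω → E →ₗ[ℝ] WT} (he : Norming e) {C : ℝ} {z : ℕ → E} {A B J : ℕ → ℕ} [Nonempty Ω]
    (h : ∀ s, RIS C (fun l => cw (e s (z l))) A B J) (T : E →L[ℝ] WT) (k g : ℕ) :
    Tendsto (fun l => cw (T (z l)) k g) atTop (𝓝 0) := by
  let φ : E →L[ℝ] ℂ := ((coordL k g).restrictScalars ℝ).comp T
  have h1 := weakNull he h (Complex.reCLM.comp φ)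
  have h2 := weakNull he h (Complex.imCLM.comp φ)
  rw [tendsto_zero_iff_norm_tendsto_zero]
  have h3 := h1.abs.add h2.abs
  simp only [abs_zero, add_zero] at h3
  refine squeeze_zero (fun _ => norm_nonneg _) (fun l => ?_) h3
  exact Complex.norm_le_abs_re_add_abs_im _

theorem lowSmall {x : ℕ → WT} (hx : ∀ k g, Tendsto (fun l => cw (x l) k g) atTop (𝓝 0)) (N : ℕ) {ε : ℝ}
    (hε : 0 < ε) : ∀ᶠ l in atTop, Bd ε (cut 0 N (cw (x l))) := by
  have h1 : ∀ k ∈ range (N + 1), ∀ g ∈ range (2 ^ (k + 2)), ∀ᶠ l in atTop, ‖cw (x l) k g‖ ≤ ε / (N + 1) := by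
    intro k _ g _
    have h3 := (Metric.tendsto_nhds.1 (hx k g)) (ε / (N + 1)) (by positivity)
    filter_upwards [h3] with l hl
    rw [dist_zero_right] at hl
    exact hl.le
  have h2 : ∀ᶠ l in atTop, ∀ k ∈ range (N + 1), ∀ g ∈ range (2 ^ (k + 2)), ‖cw (x l) k g‖ ≤ ε / (N + 1) := by
    rw [Filter.eventually_all_finset]
    intro k hk
    rw [Filter.eventually_all_finset]
    exact h1 k hk
  filter_upwards [h2] with l hl
  have h3 := bd_of_coord (OnLv_cut 0 N (cw (x l))) (η := ε / (N + 1)) (by positivity) (by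
    intro k _ hk g hg
    rw [cut_apply, if_pos ⟨Nat.zero_le _, hk⟩]
    exact hl k (mem_range.2 (by omega)) g (mem_range.2 hg))
  have h4 : ((N : ℝ) + 1) * (ε / (N + 1)) = ε := by field_simp
  rwa [h4] at h3

theorem exists_windows {x : ℕ → WT} (hx : ∀ k g, Tendsto (fun l => cw (x l) k g) atTop (𝓝 0)) {A : ℕ → ℕ}
    (B : ℕ → ℕ) (hA : ∀ l, l ≤ A l) :
    ∃ ψ w : ℕ → ℕ, StrictMono ψ ∧ StrictMono w ∧ (∀ i, w i ≤ A (ψ i)) ∧ (∀ i, B (ψ i) < w (i + 1)) ∧
      (∀ i, 1 ≤ i → Bd ((1 / 4) ^ i) (cut 0 (w i) (cw (x (ψ i))))) ∧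
      (∀ i i', i' < i → ∀ b, Bd ((1 / 4) ^ i) (cut (w i) b (cw (x (ψ i'))))) := by
  have hN : ∀ l n : ℕ, ∃ N, ∀ l' ≤ l, (∀ a b, N ≤ a → Bd ((1 / 4) ^ n) (cut a b (cw (x l')))) ∧ B l' < N := by
    intro l n
    have h1 : ∀ l', ∃ N, ∀ a b, N ≤ a → Bd ((1 / 4) ^ n) (cut a b (cw (x l'))) :=
      fun l' => tail _ (by positivity)
    choose N hN using h1
    refine ⟨∑ l' ∈ range (l + 1), (N l' + B l' + 1), fun l' hl' => ?_⟩
    have h2 : N l' + B l' + 1 ≤ ∑ l' ∈ range (l + 1), (N l' + B l' + 1) :=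
      Finset.single_le_sum (f := fun l' => N l' + B l' + 1) (fun _ _ => Nat.zero_le _)
        (mem_range.2 (by omega))
    exact ⟨fun a b hab => hN l' a b (by omega), by omega⟩
  have hL : ∀ N n : ℕ, ∃ L, ∀ l ≥ L, N ≤ A l ∧ Bd ((1 / 4) ^ n) (cut 0 N (cw (x l))) := by
    intro N n
    obtain ⟨L, hL⟩ := eventually_atTop.1 (lowSmall hx N (ε := (1 / 4) ^ n) (by positivity))
    exact ⟨max L N, fun l hl => ⟨(le_trans (le_max_right _ _) hl).trans (hA l), hL l ((le_max_left _ _).trans hl)⟩⟩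
  choose Nf hNf using hN
  choose Lf hLf using hL
  let st : ℕ → ℕ × ℕ := fun i => Nat.rec (Lf 0 0, 0)
    (fun i s => (max (s.1 + 1) (Lf (max (s.2 + 1) (Nf s.1 (i + 1))) (i + 1)), max (s.2 + 1) (Nf s.1 (i + 1)))) i
  have hst : ∀ i, st (i + 1) = (max ((st i).1 + 1) (Lf (max ((st i).2 + 1) (Nf (st i).1 (i + 1))) (i + 1)),
      max ((st i).2 + 1) (Nf (st i).1 (i + 1))) := fun _ => rfl
  have hst0 : st 0 = (Lf 0 0, 0) := rfl
  have hψ : StrictMono fun i => (st i).1 := strictMono_nat_of_lt_succ fun i => by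
    rw [hst]
    exact lt_of_lt_of_le (Nat.lt_succ_self _) (le_max_left _ _)
  have hw : StrictMono fun i => (st i).2 := strictMono_nat_of_lt_succ fun i => by
    rw [hst]
    exact lt_of_lt_of_le (Nat.lt_succ_self _) (le_max_left _ _)
  refine ⟨fun i => (st i).1, fun i => (st i).2, hψ, hw, ?_, ?_, ?_, ?_⟩
  · intro i
    cases i with
    | zero => exact Nat.zero_le _
    | succ i =>
      have := (hLf (max ((st i).2 + 1) (Nf (st i).1 (i + 1))) (i + 1) (st (i + 1)).1 (by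
        rw [hst]; exact le_max_right _ _)).1
      exact this
  · intro i
    have := (hNf (st i).1 (i + 1) (st i).1 le_rfl).2
    show B (st i).1 < (st (i + 1)).2
    rw [hst]
    exact lt_of_lt_of_le this (le_max_right _ _)
  · intro i hi
    obtain ⟨i, rfl⟩ : ∃ i', i = i' + 1 := ⟨i - 1, by omega⟩
    have := (hLf (max ((st i).2 + 1) (Nf (st i).1 (i + 1))) (i + 1) (st (i + 1)).1 (by
        rw [hst]; exact le_max_right _ _)).2
    have h2 : (st (i + 1)).2 = max ((st i).2 + 1) (Nf (st i).1 (i + 1)) := by rw [hst]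
    rw [← h2] at this
    exact this
  · intro i i' hi b
    obtain ⟨i, rfl⟩ : ∃ i', i = i' + 1 := ⟨i - 1, by omega⟩
    have h1 : (st i').1 ≤ (st i).1 := hψ.monotone (by omega : i' ≤ i)
    refine (hNf (st i).1 (i + 1) (st i').1 h1).1 _ b ?_
    show Nf (st i).1 (i + 1) ≤ (st (i + 1)).2
    rw [hst]
    exact le_max_right _ _

/-- the value of a restricted tree at an evaluation -/
def vl (e : Ω → E →ₗ[ℝ] WT) (f : Tr × ℕ × ℕ) (s : Ω) (y : E) : ℂ := ev f.1 (cut f.2.1 f.2.2 (cw (e s y)))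

/-- balanced functionals -/
def Bal (e : Ω → E →ₗ[ℝ] WT) (z : ℕ → E) (f f' : ℕ → Tr × ℕ × ℕ) (σ τ : ℂ) : Prop :=
  ∀ ψ : ℕ → ℕ, StrictMono ψ → ∃ C₀ : ℝ, 0 ≤ C₀ ∧ ∀ η > 0, ∃ a₀ : ℕ, ∀ a ≥ a₀, ∀ (m : ℕ) (s : Ω),
    ‖∑ j ∈ Ico a (a + m), (σ * vl e (f (ψ (2 * j))) s (z (ψ (2 * j))) +
      τ * vl e (f' (ψ (2 * j + 1))) s (z (ψ (2 * j + 1))))‖ ≤ m * η + C₀

theorem sum_pairs (g : ℕ → ℂ) (a m : ℕ) :
    ∑ i ∈ Ico (2 * a) (2 * a + 2 * m), g i = ∑ j ∈ Ico a (a + m), (g (2 * j) + g (2 * j + 1)) := by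
  induction m with
  | zero => simp
  | succ m ih =>
    have h1 : 2 * a + 2 * (m + 1) = 2 * a + 2 * m + 1 + 1 := by ring
    rw [h1, Finset.sum_Ico_succ_top (by omega), Finset.sum_Ico_succ_top (by omega), ih, ← add_assoc a m 1,
      Finset.sum_Ico_succ_top (by omega)]
    have h2 : 2 * (a + m) = 2 * a + 2 * m := by ring
    rw [h2, add_assoc]

theorem opCore [Nonempty Ω] {e : Ω → E →ₗ[ℝ] WT} (he : Norming e) (T : E →L[ℝ] WT) {C : ℝ} {z : ℕ → E}
    {A B J : ℕ → ℕ} (h : ∀ s, RIS C (fun l => cw (e s (z l))) A B J) (f f' : ℕ → Tr × ℕ × ℕ)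
    (hf : ∀ l, (f l).1.Wf) (hf' : ∀ l, (f' l).1.Wf) (s t b b' : ℂ) (hs : ‖s‖ ≤ 1) (ht : ‖t‖ ≤ 1)
    (hb : Tendsto (fun l => ev (f l).1 (cut (f l).2.1 (f l).2.2 (cw (T (z l))))) atTop (𝓝 b))
    (hb' : Tendsto (fun l => ev (f' l).1 (cut (f' l).2.1 (f' l).2.2 (cw (T (z l))))) atTop (𝓝 b'))
    (hbal : Bal e z f f' s t) : s * b + t * b' = 0 := by
  obtain ⟨s₀⟩ := id ‹Nonempty Ω›
  have hC : 0 ≤ C := by linarith [(h s₀).hC]
  by_contra hne
  obtain ⟨ψ, w, hψ, hw, hwA, hwB, hlow, hhigh⟩ := exists_windows (coord_null he h T) B (h s₀).le_A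
  have happ : ∀ (s : ℂ), ‖s‖ ≤ 1 → ∀ i : ℕ, ∃ c : ℚ × ℚ, ‖cc c‖ ≤ 1 ∧ ‖cc c - s‖ ≤ 2 * (1 / ((i : ℝ) + 1)) := by
    intro s hs i
    exact exists_approx s hs (by positivity) (by rw [div_le_one (by positivity)]; linarith [(Nat.cast_nonneg i : (0:ℝ) ≤ i)])
  choose cs hcs hcs' using happ s hs
  choose ct hct hct' using happ t ht
  have hlim : ∀ (s : ℂ) (c : ℕ → ℚ × ℚ), (∀ i, ‖cc (c i) - s‖ ≤ 2 * (1 / ((i : ℝ) + 1))) →
      Tendsto (fun i => cc (c i)) atTop (𝓝 s) := by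
    intro s c hc
    rw [tendsto_iff_norm_sub_tendsto_zero]
    refine squeeze_zero (fun _ => norm_nonneg _) hc ?_
    have := (tendsto_one_div_add_atTop_nhds_zero_nat (𝕜 := ℝ)).const_mul 2
    rwa [mul_zero] at this
  have hls := hlim s cs hcs'
  have hlt := hlim t ct hct'
  let c : ℕ → ℚ × ℚ := fun i => if i % 2 = 0 then cs i else ct i
  let g : ℕ → Tr × ℕ × ℕ := fun i => if i % 2 = 0 then f (ψ i) else f' (ψ i)
  have hc : ∀ i, ‖cc (c i)‖ ≤ 1 := by
    intro i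
    show ‖cc (if i % 2 = 0 then cs i else ct i)‖ ≤ 1
    split_ifs
    · exact hcs i
    · exact hct i
  have hg : ∀ i, (g i).1.Wf := by
    intro i
    show (if i % 2 = 0 then f (ψ i) else f' (ψ i)).1.Wf
    split_ifs
    · exact hf _
    · exact hf' _
  let φ : ℕ → V → ℂ := fun i x => cc (c i) * ev (g i).1 (cut (g i).2.1 (g i).2.2 (cut (w i) (w (i + 1) - 1) x))
  have hww : ∀ i, w i ≤ w (i + 1) - 1 := fun i => by
    have := hw (Nat.lt_succ_self i); simp only [Nat.succ_eq_add_one] at this; omega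
  -- values on `z`
  have hφz : ∀ u i, φ i (cw (e u (z (ψ i)))) = cc (c i) * vl e (g i) u (z (ψ i)) := by
    intro u i
    show cc (c i) * ev (g i).1 (cut (g i).2.1 (g i).2.2 (cut (w i) (w (i + 1) - 1) (cw (e u (z (ψ i)))))) = _
    have h1 : cut (w i) (w (i + 1) - 1) (cw (e u (z (ψ i)))) = cw (e u (z (ψ i))) :=
      OnLv.cut_eq ((h u).succ.1 (ψ i)) (hwA i) (by have := hwB i; omega)
    rw [h1]
    rfl
  -- values on `T z`
  have hφT : ∀ i, 1 ≤ i → ‖φ i (cw (T (z (ψ i)))) -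
      cc (c i) * ev (g i).1 (cut (g i).2.1 (g i).2.2 (cw (T (z (ψ i)))))‖ ≤ 2 * (1 / 4) ^ i := by
    intro i hi
    have hwi : 1 ≤ w i := hi.trans (hw.id_le i)
    have h1 : cut (g i).2.1 (g i).2.2 (cw (T (z (ψ i)))) =
        cut (g i).2.1 (g i).2.2 (cut (w i) (w (i + 1) - 1) (cw (T (z (ψ i))))) +
        (cut (g i).2.1 (g i).2.2 (cut 0 (w i - 1) (cut 0 (w i) (cw (T (z (ψ i)))))) +
        cut (g i).2.1 (g i).2.2 (cut (w (i + 1)) (g i).2.2 (cw (T (z (ψ i)))))) := by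
      funext k g'
      show cut (g i).2.1 (g i).2.2 (cw (T (z (ψ i)))) k g' =
        cut (g i).2.1 (g i).2.2 (cut (w i) (w (i + 1) - 1) (cw (T (z (ψ i))))) k g' +
        (cut (g i).2.1 (g i).2.2 (cut 0 (w i - 1) (cut 0 (w i) (cw (T (z (ψ i)))))) k g' +
        cut (g i).2.1 (g i).2.2 (cut (w (i + 1)) (g i).2.2 (cw (T (z (ψ i))))) k g')
      simp only [cut_apply]
      have h2 := hww i
      by_cases h3 : (g i).2.1 ≤ k ∧ k ≤ (g i).2.2
      · simp only [if_pos h3]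
        rcases lt_or_ge k (w i) with h4 | h4
        · rw [if_neg (by omega), if_pos (by omega), if_pos (by omega), if_neg (by omega), zero_add, add_zero]
        · rcases lt_or_ge k (w (i + 1)) with h5 | h5
          · rw [if_pos (by omega), if_neg (by omega), if_neg (by omega), add_zero, add_zero]
          · rw [if_neg (by omega), if_neg (by omega), if_pos (by omega), zero_add, zero_add]
      · simp only [if_neg h3, add_zero]
    show ‖cc (c i) * ev (g i).1 (cut (g i).2.1 (g i).2.2 (cut (w i) (w (i + 1) - 1) (cw (T (z (ψ i)))))) -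
      cc (c i) * ev (g i).1 (cut (g i).2.1 (g i).2.2 (cw (T (z (ψ i)))))‖ ≤ _
    rw [h1, map_add, map_add, mul_add, sub_add_cancel_left, norm_neg, norm_mul]
    refine (mul_le_of_le_one_left (norm_nonneg _) (hc i)).trans ?_
    refine (norm_add_le _ _).trans ?_
    have e1 : ‖ev (g i).1 (cut (g i).2.1 (g i).2.2 (cut 0 (w i - 1) (cut 0 (w i) (cw (T (z (ψ i)))))))‖ ≤ (1 / 4) ^ i :=
      ((hlow i hi).cut 0 (w i - 1)) _ (hg i) _ _
    have e2 : ‖ev (g i).1 (cut (g i).2.1 (g i).2.2 (cut (w (i + 1)) (g i).2.2 (cw (T (z (ψ i))))))‖ ≤ (1 / 4) ^ (i + 1) :=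
      (hhigh (i + 1) i (Nat.lt_succ_self i) _) _ (hg i) _ _
    have e3 : ((1 : ℝ) / 4) ^ (i + 1) ≤ (1 / 4) ^ i :=
      pow_le_pow_of_le_one (by norm_num) (by norm_num) (Nat.le_succ i)
    linarith
  have ev2 : Tendsto (fun i : ℕ => 2 * i) atTop atTop :=
    tendsto_atTop_mono (fun i => by simp only [id]; omega) tendsto_id
  have ev21 : Tendsto (fun i : ℕ => 2 * i + 1) atTop atTop :=
    tendsto_atTop_mono (fun i => by simp only [id]; omega) tendsto_id
  have hψt : Tendsto ψ atTop atTop := hψ.tendsto_atTop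
  have hc2 : ∀ i, c (2 * i) = cs (2 * i) := fun i => by
    show (if (2 * i) % 2 = 0 then cs (2 * i) else ct (2 * i)) = _
    rw [if_pos (by omega)]
  have hc21 : ∀ i, c (2 * i + 1) = ct (2 * i + 1) := fun i => by
    show (if (2 * i + 1) % 2 = 0 then cs (2 * i + 1) else ct (2 * i + 1)) = _
    rw [if_neg (by omega)]
  have hg2 : ∀ i, g (2 * i) = f (ψ (2 * i)) := fun i => by
    show (if (2 * i) % 2 = 0 then f (ψ (2 * i)) else f' (ψ (2 * i))) = _
    rw [if_pos (by omega)]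
  have hg21 : ∀ i, g (2 * i + 1) = f' (ψ (2 * i + 1)) := fun i => by
    show (if (2 * i + 1) % 2 = 0 then f (ψ (2 * i + 1)) else f' (ψ (2 * i + 1))) = _
    rw [if_neg (by omega)]
  have hvl : ∀ (i : ℕ) u, ‖vl e (g i) u (z (ψ i))‖ ≤ C := fun i u => (h u).bd (ψ i) _ (hg i) _ _
  have hL : LocData e T (fun i => z (ψ i)) w φ ((s * b + t * b') / 2) := by
    refine ⟨hw, ?_, fun i => loc_of _ (hc i) _ (hg i) _ _ (hww i), ?_, ?_, ?_, ?_⟩
    · intro i u
      exact ((h u).succ.1 (ψ i)).mono (hwA i) (by have := hwB i; omega)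
    · intro i i' hii'
      show ‖cc (c i) * ev (g i).1 (cut (g i).2.1 (g i).2.2 (cut (w i) (w (i + 1) - 1) (cw (T (z (ψ i'))))))‖ ≤ _
      rw [norm_mul]
      refine (mul_le_of_le_one_left (norm_nonneg _) (hc i)).trans ?_
      rcases lt_or_gt_of_ne hii' with h1 | h1
      · have h2 : cut (w i) (w (i + 1) - 1) (cw (T (z (ψ i')))) =
            cut (w i) (w (i + 1) - 1) (cut 0 (w i') (cw (T (z (ψ i'))))) := by
          rw [cut_cut, max_eq_left (Nat.zero_le _), min_eq_left]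
          have := hw.monotone (show i + 1 ≤ i' from h1)
          omega
        rw [h2]
        refine (((hlow i' (by omega)).cut _ _) _ (hg i) _ _).trans ?_
        have h3 : ((1 : ℝ) / 4) ^ i' = (1 / 2) ^ i' * (1 / 2) ^ i' := by rw [← mul_pow]; norm_num
        rw [h3]
        refine mul_le_mul_of_nonneg_right ?_ (by positivity)
        exact pow_le_pow_of_le_one (by norm_num) (by norm_num) h1.le
      · refine ((hhigh i i' h1 _) _ (hg i) _ _).trans ?_
        have h3 : ((1 : ℝ) / 4) ^ i = (1 / 2) ^ i * (1 / 2) ^ i := by rw [← mul_pow]; norm_num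
        rw [h3]
        refine mul_le_mul_of_nonneg_left ?_ (by positivity)
        exact pow_le_pow_of_le_one (by norm_num) (by norm_num) h1.le
    · obtain ⟨C₀, hC₀, hbal'⟩ := hbal ψ hψ
      refine ⟨C₀, hC₀, fun η hη => ?_⟩
      obtain ⟨a₀, ha₀⟩ := hbal' (η / 2) (by positivity)
      obtain ⟨a₁, ha₁⟩ := exists_nat_gt (4 * C / (η / 2))
      refine ⟨max a₀ a₁, fun a ha m u => ?_⟩
      have haa₀ : a₀ ≤ a := (le_max_left _ _).trans ha
      have haa₁ : a₁ ≤ a := (le_max_right _ _).trans ha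
      have h1 := ha₀ a haa₀ m u
      rw [sum_pairs]
      have h2 : ∀ j ∈ Ico a (a + m), ‖(φ (2 * j) (cw (e u (z (ψ (2 * j))))) +
          φ (2 * j + 1) (cw (e u (z (ψ (2 * j + 1)))))) - (s * vl e (f (ψ (2 * j))) u (z (ψ (2 * j))) +
          t * vl e (f' (ψ (2 * j + 1))) u (z (ψ (2 * j + 1))))‖ ≤ η / 2 := by
        intro j hj
        rw [mem_Ico] at hj
        rw [hφz, hφz, hc2, hc21]
        have e1 : ‖vl e (f (ψ (2 * j))) u (z (ψ (2 * j)))‖ ≤ C := (h u).bd _ _ (hf _) _ _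
        have e2 : ‖vl e (f' (ψ (2 * j + 1))) u (z (ψ (2 * j + 1)))‖ ≤ C := (h u).bd _ _ (hf' _) _ _
        rw [hg2, hg21]
        have e3 : cc (cs (2 * j)) * vl e (f (ψ (2 * j))) u (z (ψ (2 * j))) +
            cc (ct (2 * j + 1)) * vl e (f' (ψ (2 * j + 1))) u (z (ψ (2 * j + 1))) -
            (s * vl e (f (ψ (2 * j))) u (z (ψ (2 * j))) +
            t * vl e (f' (ψ (2 * j + 1))) u (z (ψ (2 * j + 1)))) =
            (cc (cs (2 * j)) - s) * vl e (f (ψ (2 * j))) u (z (ψ (2 * j))) +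
            (cc (ct (2 * j + 1)) - t) * vl e (f' (ψ (2 * j + 1))) u (z (ψ (2 * j + 1))) := by ring
        rw [e3]
        refine (norm_add_le _ _).trans ?_
        rw [norm_mul, norm_mul]
        have e4 := hcs' (2 * j)
        have e5 := hct' (2 * j + 1)
        have ha1 : (a₁ : ℝ) ≤ j := by exact_mod_cast haa₁.trans hj.1
        have hpos : 0 < (j : ℝ) := by
          refine lt_of_lt_of_le (lt_of_le_of_lt ?_ ha₁) ha1
          positivity
        have e6 : (2 : ℝ) * (1 / (((2 * j : ℕ) : ℝ) + 1)) ≤ 1 / j := by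
          push_cast
          rw [mul_one_div, div_le_div_iff₀ (by positivity) hpos]
          linarith
        have e7 : (2 : ℝ) * (1 / (((2 * j + 1 : ℕ) : ℝ) + 1)) ≤ 1 / j := by
          push_cast
          rw [mul_one_div, div_le_div_iff₀ (by positivity) hpos]
          linarith
        have e8 : ‖cc (cs (2 * j)) - s‖ * ‖vl e (f (ψ (2 * j))) u (z (ψ (2 * j)))‖ ≤ 1 / j * C :=
          mul_le_mul (e4.trans e6) e1 (norm_nonneg _) (by positivity)
        have e9 : ‖cc (ct (2 * j + 1)) - t‖ * ‖vl e (f' (ψ (2 * j + 1))) u (z (ψ (2 * j + 1)))‖ ≤ 1 / j * C :=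
          mul_le_mul (e5.trans e7) e2 (norm_nonneg _) (by positivity)
        have e10 : 1 / (j : ℝ) * C ≤ η / 4 := by
          rw [one_div_mul_eq_div, div_le_iff₀ hpos]
          rw [div_lt_iff₀ (by positivity)] at ha₁
          nlinarith
        linarith
      have h3 : ∑ j ∈ Ico a (a + m), (φ (2 * j) (cw (e u (z (ψ (2 * j))))) +
          φ (2 * j + 1) (cw (e u (z (ψ (2 * j + 1)))))) =
          ∑ j ∈ Ico a (a + m), ((φ (2 * j) (cw (e u (z (ψ (2 * j))))) +
          φ (2 * j + 1) (cw (e u (z (ψ (2 * j + 1)))))) - (s * vl e (f (ψ (2 * j))) u (z (ψ (2 * j))) +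
          t * vl e (f' (ψ (2 * j + 1))) u (z (ψ (2 * j + 1))))) +
          ∑ j ∈ Ico a (a + m), (s * vl e (f (ψ (2 * j))) u (z (ψ (2 * j))) +
          t * vl e (f' (ψ (2 * j + 1))) u (z (ψ (2 * j + 1)))) := by
        rw [← Finset.sum_add_distrib]
        exact Finset.sum_congr rfl fun j _ => by ring
      rw [h3]
      refine (norm_add_le _ _).trans ?_
      have h4 : ‖∑ j ∈ Ico a (a + m), ((φ (2 * j) (cw (e u (z (ψ (2 * j))))) +
          φ (2 * j + 1) (cw (e u (z (ψ (2 * j + 1)))))) - (s * vl e (f (ψ (2 * j))) u (z (ψ (2 * j))) +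
          t * vl e (f' (ψ (2 * j + 1))) u (z (ψ (2 * j + 1)))))‖ ≤ m * (η / 2) := by
        refine (norm_sum_le _ _).trans ((Finset.sum_le_sum h2).trans (le_of_eq ?_))
        rw [Finset.sum_const, Nat.card_Ico, nsmul_eq_mul]
        congr 2
        omega
      linarith
    · have h1 : Tendsto (fun i => cc (cs (2 * i)) * ev (f (ψ (2 * i))).1
          (cut (f (ψ (2 * i))).2.1 (f (ψ (2 * i))).2.2 (cw (T (z (ψ (2 * i)))))) + cc (ct (2 * i + 1)) *
          ev (f' (ψ (2 * i + 1))).1 (cut (f' (ψ (2 * i + 1))).2.1 (f' (ψ (2 * i + 1))).2.2 (cw (T (z (ψ (2 * i + 1)))))))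
          atTop (𝓝 (s * b + t * b')) :=
        ((hls.comp ev2).mul (hb.comp (hψt.comp ev2))).add ((hlt.comp ev21).mul (hb'.comp (hψt.comp ev21)))
      have h2 : Tendsto (fun i => φ i (cw (T (z (ψ i)))) -
          cc (c i) * ev (g i).1 (cut (g i).2.1 (g i).2.2 (cw (T (z (ψ i)))))) atTop (𝓝 0) := by
        rw [tendsto_zero_iff_norm_tendsto_zero]
        have h3 : Tendsto (fun i : ℕ => 2 * ((1 : ℝ) / 4) ^ i) atTop (𝓝 0) := by
          have := (tendsto_pow_atTop_nhds_zero_of_lt_one (r := (1 : ℝ) / 4) (by norm_num) (by norm_num)).const_mul 2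
          rwa [mul_zero] at this
        refine squeeze_zero' (Eventually.of_forall fun _ => norm_nonneg _) ?_ h3
        filter_upwards [eventually_ge_atTop 1] with i hi
        exact hφT i hi
      have h3 := (h1.add (h2.comp ev2)).add (h2.comp ev21)
      have h4 : s * b + t * b' + 0 + 0 = 2 * ((s * b + t * b') / 2) := by ring
      rw [h4] at h3
      refine h3.congr fun i => ?_
      simp only [Function.comp_apply]
      rw [hc2, hc21, hg2, hg21]
      ring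
    · intro h1
      apply hne
      rw [div_eq_zero_iff] at h1
      rcases h1 with h1 | h1
      · exact h1
      · norm_num at h1
  exact contra he T (fun u => (h u).sub hψ) hL

/-- localized sequences -/
def LocAt (e : Ω → E →ₗ[ℝ] WT) (z : ℕ → E) (s₀ : Ω) : Prop :=
  ∀ s, (∀ l, Bd ((1 / 2) ^ l) (cw (e s (z l)) - cw (e s₀ (z l)))) ∨
    ∃ i, (∀ l < i, Bd ((1 / 2) ^ l) (cw (e s (z l)) - cw (e s₀ (z l)))) ∧ ∀ l > i, e s (z l) = 0

theorem bal_of_locAt {e : Ω → E →ₗ[ℝ] WT} {C : ℝ} {z : ℕ → E} {A B J : ℕ → ℕ} {s₀ : Ω}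
    (h : ∀ s, RIS C (fun l => cw (e s (z l))) A B J) (hz : LocAt e z s₀) (f f' : ℕ → Tr × ℕ × ℕ)
    (hf : ∀ l, (f l).1.Wf) (hf' : ∀ l, (f' l).1.Wf) (σ τ a a' : ℂ) (hσ : ‖σ‖ ≤ 1) (hτ : ‖τ‖ ≤ 1)
    (ha : Tendsto (fun l => vl e (f l) s₀ (z l)) atTop (𝓝 a))
    (ha' : Tendsto (fun l => vl e (f' l) s₀ (z l)) atTop (𝓝 a'))
    (h0 : σ * a + τ * a' = 0) : Bal e z f f' σ τ := by
  classical
  intro ψ hψ
  have hC : 0 ≤ C := by linarith [(h s₀).hC]
  refine ⟨2 * C + 4, by positivity, fun η hη => ?_⟩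
  have ev2 : Tendsto (fun i : ℕ => 2 * i) atTop atTop :=
    tendsto_atTop_mono (fun i => by simp only [id]; omega) tendsto_id
  have ev21 : Tendsto (fun i : ℕ => 2 * i + 1) atTop atTop :=
    tendsto_atTop_mono (fun i => by simp only [id]; omega) tendsto_id
  have hψt : Tendsto ψ atTop atTop := hψ.tendsto_atTop
  have h1 : Tendsto (fun j => σ * vl e (f (ψ (2 * j))) s₀ (z (ψ (2 * j))) +
      τ * vl e (f' (ψ (2 * j + 1))) s₀ (z (ψ (2 * j + 1)))) atTop (𝓝 (σ * a + τ * a')) :=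
    ((ha.comp (hψt.comp ev2)).const_mul σ).add ((ha'.comp (hψt.comp ev21)).const_mul τ)
  rw [h0] at h1
  obtain ⟨a₀, ha₀⟩ := (Metric.tendsto_atTop.1 h1) η hη
  refine ⟨a₀, fun a haa m s => ?_⟩
  -- the difference of the two evaluations
  have hclose : ∀ (g : Tr × ℕ × ℕ), g.1.Wf → ∀ l, Bd ((1 / 2) ^ l) (cw (e s (z l)) - cw (e s₀ (z l))) →
      ‖vl e g s (z l) - vl e g s₀ (z l)‖ ≤ (1 / 2) ^ l := by
    intro g hg l hl
    have := hl g.1 hg g.2.1 g.2.2
    rw [_root_.map_sub, _root_.map_sub] at this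
    exact this
  have hbd : ∀ (g : Tr × ℕ × ℕ), g.1.Wf → ∀ l, ‖vl e g s (z l)‖ ≤ C := fun g hg l => (h s).bd l _ hg _ _
  obtain ⟨X, hX, hXj⟩ : ∃ X : ℕ → Prop, (∀ j j', X j → X j' → j = j') ∧
      ∀ j, a₀ ≤ j → ‖σ * vl e (f (ψ (2 * j))) s (z (ψ (2 * j))) +
        τ * vl e (f' (ψ (2 * j + 1))) s (z (ψ (2 * j + 1)))‖ ≤
        η + 2 * (1 / 2) ^ j + if X j then 2 * C else 0 := by
    have key : ∀ j, a₀ ≤ j → Bd ((1 / 2) ^ ψ (2 * j)) (cw (e s (z (ψ (2 * j)))) - cw (e s₀ (z (ψ (2 * j))))) →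
        Bd ((1 / 2) ^ ψ (2 * j + 1)) (cw (e s (z (ψ (2 * j + 1)))) - cw (e s₀ (z (ψ (2 * j + 1))))) →
        ‖σ * vl e (f (ψ (2 * j))) s (z (ψ (2 * j))) +
        τ * vl e (f' (ψ (2 * j + 1))) s (z (ψ (2 * j + 1)))‖ ≤ η + 2 * (1 / 2) ^ j := by
      intro j hj hb1 hb2
      have e1 := hclose _ (hf (ψ (2 * j))) _ hb1
      have e2 := hclose _ (hf' (ψ (2 * j + 1))) _ hb2
      have e3 := (ha₀ j hj).le
      rw [dist_zero_right] at e3
      have e4 : ((1 : ℝ) / 2) ^ ψ (2 * j) ≤ (1 / 2) ^ j :=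
        pow_le_pow_of_le_one (by norm_num) (by norm_num) (by have := hψ.id_le (2 * j); simp only [id] at this; omega)
      have e5 : ((1 : ℝ) / 2) ^ ψ (2 * j + 1) ≤ (1 / 2) ^ j :=
        pow_le_pow_of_le_one (by norm_num) (by norm_num)
          (by have := hψ.id_le (2 * j + 1); simp only [id] at this; omega)
      have e6 : σ * vl e (f (ψ (2 * j))) s (z (ψ (2 * j))) + τ * vl e (f' (ψ (2 * j + 1))) s (z (ψ (2 * j + 1))) =
          (σ * vl e (f (ψ (2 * j))) s₀ (z (ψ (2 * j))) + τ * vl e (f' (ψ (2 * j + 1))) s₀ (z (ψ (2 * j + 1)))) +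
          (σ * (vl e (f (ψ (2 * j))) s (z (ψ (2 * j))) - vl e (f (ψ (2 * j))) s₀ (z (ψ (2 * j)))) +
          τ * (vl e (f' (ψ (2 * j + 1))) s (z (ψ (2 * j + 1))) -
            vl e (f' (ψ (2 * j + 1))) s₀ (z (ψ (2 * j + 1))))) := by ring
      rw [e6]
      refine (norm_add_le _ _).trans (add_le_add e3 ((norm_add_le _ _).trans ?_))
      rw [norm_mul, norm_mul]
      have e7 := (mul_le_of_le_one_left (norm_nonneg _) hσ).trans (e1.trans e4)
      have e8 := (mul_le_of_le_one_left (norm_nonneg _) hτ).trans (e2.trans e5)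
      linarith
    rcases hz s with hz' | ⟨i, hz1, hz2⟩
    · refine ⟨fun _ => False, fun _ _ h => h.elim, fun j hj => ?_⟩
      rw [if_neg not_false, add_zero]
      exact key j hj (hz' _) (hz' _)
    · refine ⟨fun j => ψ (2 * j) ≤ i ∧ i ≤ ψ (2 * j + 1), ?_, ?_⟩
      · intro j j' hj hj'
        rcases lt_trichotomy j j' with h2 | h2 | h2
        · have := hψ (show 2 * j + 1 < 2 * j' by omega)
          omega
        · exact h2
        · have := hψ (show 2 * j' + 1 < 2 * j by omega)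
          omega
      · intro j hj
        by_cases h2 : ψ (2 * j) ≤ i ∧ i ≤ ψ (2 * j + 1)
        · rw [if_pos h2]
          refine (norm_add_le _ _).trans ?_
          rw [norm_mul, norm_mul]
          have e7 := (mul_le_of_le_one_left (norm_nonneg _) hσ).trans (hbd _ (hf (ψ (2 * j))) (ψ (2 * j)))
          have e8 := (mul_le_of_le_one_left (norm_nonneg _) hτ).trans (hbd _ (hf' (ψ (2 * j + 1))) (ψ (2 * j + 1)))
          have e9 : (0 : ℝ) ≤ 2 * (1 / 2) ^ j := by positivity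
          linarith
        · rw [if_neg h2, add_zero]
          rcases lt_or_ge i (ψ (2 * j)) with h3 | h3
          · have h4 : i < ψ (2 * j + 1) := h3.trans (hψ (by omega))
            have e1 : vl e (f (ψ (2 * j))) s (z (ψ (2 * j))) = 0 := by
              unfold vl; rw [hz2 _ h3, _root_.map_zero, _root_.map_zero, _root_.map_zero]
            have e2 : vl e (f' (ψ (2 * j + 1))) s (z (ψ (2 * j + 1))) = 0 := by
              unfold vl; rw [hz2 _ h4, _root_.map_zero, _root_.map_zero, _root_.map_zero]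
            rw [e1, e2, mul_zero, mul_zero, add_zero, norm_zero]
            positivity
          · have h4 : ψ (2 * j + 1) < i := by
              by_contra h5
              exact h2 ⟨h3, by omega⟩
            exact key j hj (hz1 _ ((hψ (by omega)).trans h4)) (hz1 _ h4)
  refine (norm_sum_le _ _).trans ?_
  refine (Finset.sum_le_sum fun j hj => hXj j (haa.trans (mem_Ico.1 hj).1)).trans ?_
  rw [Finset.sum_add_distrib, Finset.sum_add_distrib, Finset.sum_const, Nat.card_Ico, nsmul_eq_mul, ← Finset.mul_sum]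
  have e1 := sum_half_le (Ico a (a + m))
  have e2 : ∑ j ∈ Ico a (a + m), (if X j then 2 * C else 0) ≤ 2 * C := by
    rw [← Finset.sum_filter, Finset.sum_const, nsmul_eq_mul]
    have h5 : ((Ico a (a + m)).filter X).card ≤ 1 := by
      rw [Finset.card_le_one]
      intro l hl l' hl'
      exact hX _ _ (Finset.mem_filter.1 hl).2 (Finset.mem_filter.1 hl').2
    have h9 : (((Ico a (a + m)).filter X).card : ℝ) ≤ 1 := by exact_mod_cast h5
    calc (((Ico a (a + m)).filter X).card : ℝ) * (2 * C) ≤ 1 * (2 * C) :=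
          mul_le_mul_of_nonneg_right h9 (by positivity)
      _ = 2 * C := one_mul _
  have e3 : ((a + m - a : ℕ) : ℝ) = m := by congr 1; omega
  rw [e3]
  linarith

end

end Pool.Agent.TH313.SC
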