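import Pool.Agent.TH313.SC.Sec

/-! Cut-offs at a point, the biorthogonal functionals and the approximate traces. -/

set_option autoImplicit false

namespace Pool.Agent.TH313.SC

open Finset Filter Topology Pool.Agent.TH313.HI
open scoped BoundedContinuousFunction

noncomputable section

variable {Ω M : Type} [TopologicalSpace Ω] [MetricSpace M]

/-- cut-off functions which shrink to the point `s` -/
structure Cut (F : C(Ω, M)) (s : Ω) where
  ρ : ℕ → Ω → ℝ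
  c0 : ∀ r, C0 (ρ r)
  nonneg : ∀ r t, 0 ≤ ρ r t
  le_one : ∀ r t, ρ r t ≤ 1
  self : ∀ r, ρ r s = 1
  nest : ∀ r t, ρ (r + 1) t ≠ 0 → ρ r t = 1
  near : ∀ r t, ρ r t ≠ 0 → dist (F t) (F s) ≤ 2 / 4 ^ r
  small : ∀ U ∈ 𝓝 s, ∃ r, ∀ t, ρ r t ≠ 0 → t ∈ U

variable (N : Net M)

/-- the biorthogonal functionals -/
def alv (m : M) (k j : ℕ) : WT →L[ℂ] ℂ :=
  (1 / 2 ^ (k + 2) : ℂ) • ∑ g ∈ range (2 ^ (k + 2)), ((sys.sg k j g : ℝ) : ℂ) • coordL (lv N k) (ixx k g (dd N m k))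

theorem alv_apply (m : M) (k j : ℕ) (w : WT) : alv N m k j w = (1 / 2 ^ (k + 2) : ℂ) *
    ∑ g ∈ range (2 ^ (k + 2)), ((sys.sg k j g : ℝ) : ℂ) * cw w (lv N k) (ixx k g (dd N m k)) := by
  unfold alv
  rw [smul_apply, _root_.sum_apply, smul_eq_mul]
  congr 1

theorem norm_alv_le (m : M) (k j : ℕ) (w : WT) : ‖alv N m k j w‖ ≤ ‖w‖ := by
  rw [alv_apply, norm_mul]
  have h1 : ‖(1 / 2 ^ (k + 2) : ℂ)‖ = 1 / 2 ^ (k + 2) := by simp
  rw [h1]
  have h2 : ‖∑ g ∈ range (2 ^ (k + 2)), ((sys.sg k j g : ℝ) : ℂ) * cw w (lv N k) (ixx k g (dd N m k))‖ ≤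
      2 ^ (k + 2) * ‖w‖ := by
    refine (norm_sum_le _ _).trans ?_
    have h3 : ∑ g ∈ range (2 ^ (k + 2)), ‖((sys.sg k j g : ℝ) : ℂ) * cw w (lv N k) (ixx k g (dd N m k))‖ ≤
        ∑ g ∈ range (2 ^ (k + 2)), ‖w‖ := by
      refine Finset.sum_le_sum fun g _ => ?_
      rw [norm_mul, Complex.norm_real]
      calc ‖sys.sg k j g‖ * ‖cw w (lv N k) (ixx k g (dd N m k))‖ ≤ 1 * ‖w‖ :=
            mul_le_mul (sys.sg_le k j g) (norm_cw_le w _ _) (norm_nonneg _) zero_le_one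
        _ = ‖w‖ := one_mul _
    refine h3.trans (le_of_eq ?_)
    rw [Finset.sum_const, Finset.card_range, nsmul_eq_mul]
    push_cast
    ring
  calc (1 / 2 ^ (k + 2) : ℝ) * ‖∑ g ∈ range (2 ^ (k + 2)), ((sys.sg k j g : ℝ) : ℂ) *
        cw w (lv N k) (ixx k g (dd N m k))‖
      ≤ (1 / 2 ^ (k + 2)) * (2 ^ (k + 2) * ‖w‖) := by gcongr
    _ = ‖w‖ := by field_simp

theorem alv_EE (m : M) {k j : ℕ} (hj : j < 2 ^ k) : alv N m k j (EE N m k j) = 1 := by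
  rw [alv_apply]
  have h1 : ∀ g ∈ range (2 ^ (k + 2)), ((sys.sg k j g : ℝ) : ℂ) * cw (EE N m k j) (lv N k) (ixx k g (dd N m k)) =
      ((sys.sg k j g * sys.sg k j g : ℝ) : ℂ) := by
    intro g hg
    rw [Finset.mem_range] at hg
    rw [EE_coord N m k j k _ hg, pr_dd, Complex.ofReal_one, mul_one]
    have h2 : gf k j k g = ((sys.sg k j g : ℝ) : ℂ) := by
      unfold gf Pool.Agent.BAPp.ee
      simp only [if_pos hg, if_true]
    rw [h2]
    push_cast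
    ring
  rw [Finset.sum_congr rfl h1, ← Complex.ofReal_sum, sys.sgsg k j hj j hj, if_pos rfl]
  push_cast
  field_simp

variable (F : C(Ω, M))

/-- the approximate traces of an operator on sections -/
def bt (T : YT F N →L[ℝ] YT F N) (f : Ω → ℝ) (hf : C0 f) (k : ℕ) (t : Ω) : ℂ :=
  (1 / 2 ^ k : ℂ) * ∑ j ∈ range (2 ^ k), alv N (F t) k j (evY F N t (T (gY F N f hf k j)))

end

end Pool.Agent.TH313.SC
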