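import Pool.Agent.TH313.SC.Defs

/-! The scalar of an operator at a point. -/

set_option autoImplicit false

namespace Pool.Agent.TH313.SC

open Finset Filter Topology Pool.Agent.TH313.HI
open scoped BoundedContinuousFunction

noncomputable section

section general

variable {E Ω : Type*} [NormedAddCommGroup E] [NormedSpace ℝ E]

theorem LocAt.sub {e : Ω → E →ₗ[ℝ] WT} {z : ℕ → E} {s₀ : Ω} (h : LocAt e z s₀) {φ : ℕ → ℕ} (hφ : StrictMono φ) :
    LocAt e (fun l => z (φ l)) s₀ := by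
  intro s
  have hp : ∀ l, Bd ((1 / 2) ^ φ l) (cw (e s (z (φ l))) - cw (e s₀ (z (φ l)))) →
      Bd ((1 / 2) ^ l) (cw (e s (z (φ l))) - cw (e s₀ (z (φ l)))) := fun l hl =>
    hl.mono (pow_le_pow_of_le_one (by norm_num) (by norm_num) (hφ.id_le l))
  rcases h s with h1 | ⟨i, h1, h2⟩
  · exact Or.inl fun l => hp l (h1 _)
  · right
    by_cases hi : ∃ l, i ≤ φ l
    · classical
      refine ⟨Nat.find hi, fun l hl => hp l (h1 _ ?_), fun l hl => h2 _ ?_⟩
      · have := Nat.find_min hi hl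
        omega
      · have h3 := Nat.find_spec hi
        have h4 := hφ hl
        omega
    · push Not at hi
      exact absurd (hi i) (by have := hφ.id_le i; simp only [id] at this; omega)

/-- an operator maps a localized rapidly increasing sequence nearly in its multiples -/
theorem opLemma [Nonempty Ω] {e : Ω → E →ₗ[ℝ] WT} (he : Norming e) (T : E →L[ℝ] WT) {C : ℝ} {z : ℕ → E}
    {A B J : ℕ → ℕ} (h : ∀ s, RIS C (fun l => cw (e s (z l))) A B J) {s₀ : Ω} (hz : LocAt e z s₀)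
    {ε : ℝ} (hε : 0 < ε) : ∀ᶠ l in atTop, ∃ d : ℂ, ‖T (z l) - d • e s₀ (z l)‖ ≤ ε := by
  by_contra hcon
  rw [not_eventually] at hcon
  obtain ⟨ψ₀, hψ₀, hfar⟩ := extraction_of_frequently_atTop hcon
  push Not at hfar
  have hC : 0 ≤ C := by linarith [(h s₀).hC]
  have hzn : ∀ l, ‖z l‖ ≤ C := fun l => he _ _ hC fun s => WT.norm_le hC ((h s).bd l)
  have hTz : ∀ l, ‖T (z l)‖ ≤ ‖T‖ * C := fun l =>
    (T.le_opNorm _).trans (mul_le_mul_of_nonneg_left (hzn l) (norm_nonneg _))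
  have hbz : ∀ (f : Tr × ℕ × ℕ), f.1.Wf → ∀ l, ‖vl e f s₀ (z l)‖ ≤ max C (‖T‖ * C) :=
    fun f hf l => ((h s₀).bd l f.1 hf _ _).trans (le_max_left _ _)
  have hbT : ∀ (f : Tr × ℕ × ℕ), f.1.Wf → ∀ l, ‖ev f.1 (cut f.2.1 f.2.2 (cw (T (z l))))‖ ≤ max C (‖T‖ * C) :=
    fun f hf l => (((T (z l)).bd f.1 hf _ _).trans (hTz l)).trans (le_max_right _ _)
  -- the first functionals
  have h1 : ∀ l, ∃ f : Tr × ℕ × ℕ, f.1.Wf ∧ ε < ‖ev f.1 (cut f.2.1 f.2.2 (cw (T (z (ψ₀ l)))))‖ := by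
    intro l
    have := hfar l 0
    rw [zero_smul, sub_zero] at this
    exact exists_functional hε.le this
  choose f hf hfε using h1
  obtain ⟨ψ₁, a, b, hψ₁, ha, hb⟩ := exists_two_limits
    (fun l => vl e (f l) s₀ (z (ψ₀ l)))
    (fun l => ev (f l).1 (cut (f l).2.1 (f l).2.2 (cw (T (z (ψ₀ l)))))) _
    (fun l => hbz _ (hf l) _) (fun l => hbT _ (hf l) _)
  have hbε : ε ≤ ‖b‖ := ge_of_tendsto' hb.norm fun l => (hfε _).le
  -- the second functionals
  have h2 : ∀ l, ∃ f' : Tr × ℕ × ℕ, f'.1.Wf ∧ ε < ‖ev f'.1 (cut f'.2.1 f'.2.2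
      (cw (T (z (ψ₀ l)) - (b / a) • e s₀ (z (ψ₀ l)))))‖ := fun l => exists_functional hε.le (hfar l (b / a))
  choose f' hf' hfε' using h2
  obtain ⟨ψ₂, a', b', hψ₂, ha', hb'⟩ := exists_two_limits
    (fun l => vl e (f' (ψ₁ l)) s₀ (z (ψ₀ (ψ₁ l))))
    (fun l => ev (f' (ψ₁ l)).1 (cut (f' (ψ₁ l)).2.1 (f' (ψ₁ l)).2.2 (cw (T (z (ψ₀ (ψ₁ l))))))) _
    (fun l => hbz _ (hf' _) _) (fun l => hbT _ (hf' _) _)
  have hbε' : ε ≤ ‖b' - (b / a) * a'‖ := by
    refine ge_of_tendsto' (hb'.sub (ha'.const_mul (b / a))).norm fun l => ?_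
    have h3 := (hfε' (ψ₁ (ψ₂ l))).le
    rw [_root_.map_sub, _root_.map_smul, _root_.map_sub, _root_.map_sub, _root_.map_smul, _root_.map_smul,
      smul_eq_mul] at h3
    exact h3
  have hA : Tendsto (fun l => vl e (f (ψ₁ (ψ₂ l))) s₀ (z (ψ₀ (ψ₁ (ψ₂ l))))) atTop (𝓝 a) := ha.comp hψ₂.tendsto_atTop
  have hB : Tendsto (fun l => ev (f (ψ₁ (ψ₂ l))).1 (cut (f (ψ₁ (ψ₂ l))).2.1 (f (ψ₁ (ψ₂ l))).2.2
      (cw (T (z (ψ₀ (ψ₁ (ψ₂ l)))))))) atTop (𝓝 b) := hb.comp hψ₂.tendsto_atTop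
  have hm : StrictMono fun l => ψ₀ (ψ₁ (ψ₂ l)) := hψ₀.comp (hψ₁.comp hψ₂)
  have hr := fun s => (h s).sub hm
  have core := fun (s t : ℂ) (hs : ‖s‖ ≤ 1) (ht : ‖t‖ ≤ 1) (h0 : s * a + t * a' = 0) =>
    opCore he T (z := fun l => z (ψ₀ (ψ₁ (ψ₂ l)))) hr (fun l => f (ψ₁ (ψ₂ l))) (fun l => f' (ψ₁ (ψ₂ l)))
      (fun l => hf _) (fun l => hf' _) s t b b' hs ht hB hb'
      (bal_of_locAt hr (hz.sub hm) (fun l => f (ψ₁ (ψ₂ l))) (fun l => f' (ψ₁ (ψ₂ l)))
        (fun l => hf _) (fun l => hf' _) s t a a' hs ht hA ha' h0)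
  by_cases ha0 : a = 0
  · have h3 := core 1 0 (by simp) (by simp) (by rw [ha0]; ring)
    rw [one_mul, zero_mul, add_zero] at h3
    rw [h3, norm_zero] at hbε
    linarith
  · have hM : 0 < max ‖a‖ ‖a'‖ := lt_max_of_lt_left (norm_pos_iff.2 ha0)
    set M := max ‖a‖ ‖a'‖
    have hMc : (M : ℂ) ≠ 0 := by exact_mod_cast hM.ne'
    have h3 := core (a' / M) (-a / M)
      (by rw [norm_div, Complex.norm_real, Real.norm_of_nonneg hM.le, div_le_one hM]; exact le_max_right _ _)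
      (by rw [norm_div, norm_neg, Complex.norm_real, Real.norm_of_nonneg hM.le, div_le_one hM]; exact le_max_left _ _)
      (by field_simp; ring)
    have h4 : b' - (b / a) * a' = 0 := by
      field_simp at h3 ⊢
      linear_combination -h3
    rw [h4, norm_zero] at hbε'
    linarith

/-- the multiples as a sequence -/
theorem opLemma' [Nonempty Ω] {e : Ω → E →ₗ[ℝ] WT} (he : Norming e) (T : E →L[ℝ] WT) {C : ℝ} {z : ℕ → E}
    {A B J : ℕ → ℕ} (h : ∀ s, RIS C (fun l => cw (e s (z l))) A B J) {s₀ : Ω} (hz : LocAt e z s₀) :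
    ∃ d : ℕ → ℂ, Tendsto (fun l => T (z l) - d l • e s₀ (z l)) atTop (𝓝 0) := by
  have h1 : ∀ l, ∃ d : ℂ, ∀ d' : ℂ, ‖T (z l) - d • e s₀ (z l)‖ ≤ ‖T (z l) - d' • e s₀ (z l)‖ + 1 / ((l : ℝ) + 1) := by
    intro l
    have hpos : 0 < 1 / ((l : ℝ) + 1) := by positivity
    obtain ⟨v, ⟨d, rfl⟩, hv⟩ := exists_lt_of_csInf_lt
      (s := Set.range fun d : ℂ => ‖T (z l) - d • e s₀ (z l)‖) ⟨_, ⟨0, rfl⟩⟩ (lt_add_of_pos_right _ hpos)
    refine ⟨d, fun d' => hv.le.trans (add_le_add ?_ le_rfl)⟩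
    exact csInf_le ⟨0, by rintro _ ⟨d, rfl⟩; exact norm_nonneg _⟩ ⟨d', rfl⟩
  choose d hd using h1
  refine ⟨d, ?_⟩
  rw [tendsto_zero_iff_norm_tendsto_zero, Metric.tendsto_atTop]
  intro ε hε
  obtain ⟨N, hN⟩ := eventually_atTop.1 (opLemma he T h hz (ε := ε / 4) (by positivity))
  obtain ⟨N', hN'⟩ := exists_nat_gt (2 / ε)
  refine ⟨max N N', fun l hl => ?_⟩
  obtain ⟨d', hd'⟩ := hN l ((le_max_left _ _).trans hl)
  have h2 := hd l d'
  have h3 : 1 / ((l : ℝ) + 1) ≤ ε / 2 := by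
    rw [div_le_iff₀ (by positivity)]
    have h4 : (N' : ℝ) ≤ l := by exact_mod_cast (le_max_right _ _).trans hl
    rw [div_lt_iff₀ hε] at hN'
    nlinarith
  rw [dist_zero_right, norm_norm]
  linarith

end general

variable {Ω M : Type} [TopologicalSpace Ω] [MetricSpace M] {F : C(Ω, M)} {N : Net M}

theorem Cut.zero_of_ne {s₀ : Ω} (c : Cut F s₀) {r r' : ℕ} {t : Ω} (h : c.ρ r t ≠ 1) (hr : r < r') : c.ρ r' t = 0 := by
  by_contra h1
  have h2 : ∀ n, n < r' → c.ρ (r' - 1 - n) t = 1 := by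
    intro n
    induction n with
    | zero =>
      intro hn
      apply c.nest
      have h3 : r' - 1 - 0 + 1 = r' := by omega
      rwa [h3]
    | succ n ih =>
      intro hn
      apply c.nest
      have h3 : r' - 1 - (n + 1) + 1 = r' - 1 - n := by omega
      rw [h3, ih (by omega)]
      exact one_ne_zero
  apply h
  have := h2 (r' - 1 - r) (by omega)
  have h3 : r' - 1 - (r' - 1 - r) = r := by omega
  rwa [h3] at this

variable (N)

/-- the canonical localized vectors -/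
def zc {s₀ : Ω} (c : Cut F s₀) (k j : ℕ) : YT F N := gY F N (c.ρ (2 * k + 2)) (c.c0 _) k j

variable {N}

theorem ev_zc {s₀ : Ω} (c : Cut F s₀) {k j : ℕ} (hj : j < 2 ^ k) (t : Ω) :
    evY F N t (zc N c k j) = c.ρ (2 * k + 2) t • EE N (F t) k j := ev_gY F N _ hj t

theorem ev_zc_self {s₀ : Ω} (c : Cut F s₀) {k j : ℕ} (hj : j < 2 ^ k) :
    evY F N s₀ (zc N c k j) = EE N (F s₀) k j := by rw [ev_zc c hj, c.self, one_smul]

theorem Cut.abs_le {s₀ : Ω} (c : Cut F s₀) (r : ℕ) (t : Ω) : |c.ρ r t| ≤ 1 := by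
  rw [abs_of_nonneg (c.nonneg r t)]; exact c.le_one r t

theorem norm_zc_le {s₀ : Ω} (c : Cut F s₀) {k j : ℕ} (hj : j < 2 ^ k) : ‖zc N c k j‖ ≤ 2 := by
  have := norm_gY_le F N (c.c0 (2 * k + 2)) hj (c := 1) (fun t => c.abs_le _ t) zero_le_one
  rwa [mul_one] at this

theorem zc_close {s₀ : Ω} (c : Cut F s₀) {k j : ℕ} (hj : j < 2 ^ k) {t : Ω} (h : c.ρ (2 * k + 2) t = 1) :
    Bd ((1 / 2) ^ (k + 1)) (cw (evY F N t (zc N c k j)) - cw (evY F N s₀ (zc N c k j))) := by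
  rw [ev_zc c hj, ev_zc_self c hj, h, one_smul]
  refine (EE_sub N (F t) (F s₀) k j).mono ?_
  have h1 := c.near (2 * k + 2) t (by rw [h]; exact one_ne_zero)
  have h2 : (k : ℝ) + 1 ≤ 2 ^ (k + 1) := by
    have : k + 1 ≤ 2 ^ (k + 1) := Nat.lt_two_pow_self.le
    exact_mod_cast this
  calc 2 * (((k : ℝ) + 1) * dist (F t) (F s₀)) ≤ 2 * (2 ^ (k + 1) * (2 / 4 ^ (2 * k + 2))) := by gcongr
    _ ≤ (1 / 2) ^ (k + 1) := by
      have e1 : (4 : ℝ) ^ (2 * k + 2) = 2 ^ (k + 1) * 2 ^ (k + 1) * (2 ^ (k + 1) * 2 ^ (k + 1)) := by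
        rw [← pow_add, ← pow_add, show (4 : ℝ) = 2 ^ 2 by norm_num, ← pow_mul]
        congr 1
        ring
      have e2 : (2 : ℝ) ≤ 2 ^ (k + 1) := by
        calc (2 : ℝ) = 2 ^ 1 := by norm_num
          _ ≤ 2 ^ (k + 1) := pow_le_pow_right₀ (by norm_num) (by omega)
      rw [e1, one_div, inv_pow]
      set x : ℝ := 2 ^ (k + 1)
      have hx : 0 < x := by positivity
      rw [show 2 * (x * (2 / (x * x * (x * x)))) = (4 / (x * x)) * x⁻¹ by field_simp; norm_num]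
      calc 4 / (x * x) * x⁻¹ ≤ 1 * x⁻¹ := by
            refine mul_le_mul_of_nonneg_right ?_ (by positivity)
            rw [div_le_one (by positivity)]
            nlinarith
        _ = x⁻¹ := one_mul _

theorem zc_zero {s₀ : Ω} (c : Cut F s₀) {k j : ℕ} (hj : j < 2 ^ k) {t : Ω} (h : c.ρ (2 * k + 2) t = 0) :
    evY F N t (zc N c k j) = 0 := by
  rw [ev_zc c hj, h, zero_smul]

theorem zc_ris {s₀ : Ω} (c : Cut F s₀) {k j : ℕ → ℕ} (hk : ∀ l, k l + 2 ≤ k (l + 1)) (hj : ∀ l, j l < 2 ^ k l)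
    (t : Ω) : RIS 2 (fun l => cw (eY t (zc N c (k l) (j l)))) (fun l => lv N (k l - 1)) (fun l => lv N (k l))
      (fun l => l) := by
  have h1 : (fun l => cw (eY t (zc N c (k l) (j l)))) =
      fun l => cw (c.ρ (2 * k l + 2) t • EE N (F t) (k l) (j l)) := by
    funext l
    rw [eY_apply, ev_zc c (hj l)]
  rw [h1]
  exact EE_ris N (F t) hk (θ := fun l => c.ρ (2 * k l + 2) t) fun l => c.abs_le _ t

theorem zc_loc {s₀ : Ω} (c : Cut F s₀) {k j : ℕ → ℕ} (hk : ∀ l, k l + 2 ≤ k (l + 1)) (hj : ∀ l, j l < 2 ^ k l) :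
    LocAt (eY : Ω → YT F N →ₗ[ℝ] WT) (fun l => zc N c (k l) (j l)) s₀ := by
  classical
  have hkm : StrictMono k := strictMono_nat_of_lt_succ fun l => by have := hk l; omega
  intro t
  have hcl : ∀ l, c.ρ (2 * k l + 2) t = 1 →
      Bd ((1 / 2) ^ l) (cw (eY t (zc N c (k l) (j l))) - cw (eY s₀ (zc N c (k l) (j l)))) := fun l hl =>
    (zc_close c (hj l) hl).mono (pow_le_pow_of_le_one (by norm_num) (by norm_num)
      (by have := hkm.id_le l; simp only [id] at this; omega))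
  by_cases h : ∃ l, c.ρ (2 * k l + 2) t ≠ 1
  · right
    refine ⟨Nat.find h, fun l hl => hcl l (not_not.1 (Nat.find_min h hl)), fun l hl => ?_⟩
    apply zc_zero c (hj l)
    refine c.zero_of_ne (Nat.find_spec h) ?_
    have := hkm hl
    omega
  · push Not at h
    exact Or.inl fun l => hcl l (h l)

/-- the existence of the scalar of an operator at a point -/
theorem lam_exists [Nonempty Ω] (T : YT F N →L[ℝ] WT) {s₀ : Ω} (c : Cut F s₀) : ∃ lam : ℂ, ∀ k j : ℕ → ℕ,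
    (∀ l, k l + 2 ≤ k (l + 1)) → (∀ l, j l < 2 ^ k l) →
    Tendsto (fun l => T (zc N c (k l) (j l)) - lam • EE N (F s₀) (k l) (j l)) atTop (𝓝 0) := by
  -- multiples for each sequence
  have hmul : ∀ k j : ℕ → ℕ, (∀ l, k l + 2 ≤ k (l + 1)) → (∀ l, j l < 2 ^ k l) → ∃ d : ℕ → ℂ,
      Tendsto (fun l => T (zc N c (k l) (j l)) - d l • EE N (F s₀) (k l) (j l)) atTop (𝓝 0) := by
    intro k j hk hj
    obtain ⟨d, hd⟩ := opLemma' norming T (zc_ris c hk hj) (zc_loc c hk hj)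
    refine ⟨d, hd.congr fun l => ?_⟩
    rw [eY_apply, ev_zc_self c (hj l)]
  -- the multiples are bounded
  have hbdd : ∀ k j : ℕ, j < 2 ^ k → ∀ d : ℂ, ‖d‖ ≤ ‖T (zc N c k j) - d • EE N (F s₀) k j‖ + ‖T‖ * 2 := by
    intro k j hj d
    have h1 : ‖d‖ ≤ ‖d • EE N (F s₀) k j‖ := by
      rw [norm_smul]
      exact le_mul_of_one_le_right (norm_nonneg _) (one_le_norm_EE N _ hj)
    have h2 : d • EE N (F s₀) k j = T (zc N c k j) - (T (zc N c k j) - d • EE N (F s₀) k j) := by abel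
    rw [h2] at h1
    refine h1.trans ((norm_sub_le _ _).trans ?_)
    rw [add_comm]
    exact add_le_add le_rfl ((T.le_opNorm _).trans (mul_le_mul_of_nonneg_left (norm_zc_le c hj) (norm_nonneg _)))
  -- the reference sequence
  have hj0 : ∀ l : ℕ, (fun _ => 0 : ℕ → ℕ) l < 2 ^ (fun l => 2 * l : ℕ → ℕ) l := fun l => by positivity
  obtain ⟨d₀, hd₀⟩ := hmul (fun l => 2 * l) (fun _ => 0) (fun l => by omega) hj0
  have hd₀b : ∃ K, ∀ l, ‖d₀ l‖ ≤ K := by
    obtain ⟨K, hK⟩ := (tendsto_zero_iff_norm_tendsto_zero.1 hd₀).bddAbove_range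
    exact ⟨K + ‖T‖ * 2, fun l => (hbdd _ _ (hj0 l) _).trans (add_le_add (hK ⟨l, rfl⟩) le_rfl)⟩
  obtain ⟨K, hK⟩ := hd₀b
  obtain ⟨lam, -, κ, hκ, hlam⟩ := (isCompact_closedBall (0 : ℂ) K).tendsto_subseq (x := d₀)
    (fun l => by rw [mem_closedBall_zero_iff]; exact hK l)
  refine ⟨lam, fun k j hk hj => ?_⟩
  have hkm : StrictMono k := strictMono_nat_of_lt_succ fun l => by have := hk l; omega
  obtain ⟨d, hd⟩ := hmul k j hk hj
  have hnE : ∀ l, ‖EE N (F s₀) (k l) (j l)‖ ≤ 2 := fun l => norm_EE_le N _ _ _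
  -- it is enough that the multiples tend to `lam`
  suffices hdl : Tendsto d atTop (𝓝 lam) by
    have h1 : Tendsto (fun l => (d l - lam) • EE N (F s₀) (k l) (j l)) atTop (𝓝 0) := by
      rw [tendsto_zero_iff_norm_tendsto_zero]
      have h2 := (tendsto_zero_iff_norm_tendsto_zero.1 (tendsto_sub_nhds_zero_iff.2 hdl)).mul_const (2 : ℝ)
      rw [zero_mul] at h2
      refine squeeze_zero (fun _ => norm_nonneg _) (fun l => ?_) h2
      rw [norm_smul]
      exact mul_le_mul_of_nonneg_left (hnE l) (norm_nonneg _)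
    have h2 := hd.add h1
    rw [add_zero] at h2
    refine h2.congr fun l => ?_
    rw [sub_smul]
    abel
  by_contra hcon
  rw [Metric.tendsto_atTop] at hcon
  push Not at hcon
  obtain ⟨ε, hε, hfr⟩ := hcon
  have hfr' : ∃ᶠ l in atTop, ε ≤ dist (d l) lam := by
    rw [frequently_atTop]
    intro n
    obtain ⟨l, hl, hd⟩ := hfr n
    exact ⟨l, hl, hd⟩
  obtain ⟨ψ, hψ, hψε⟩ := extraction_of_frequently_atTop hfr'
  -- interleaved sequences
  obtain ⟨m, hm, hm0⟩ := exists_fast (fun n => n + lv N (k (ψ n)) + lv N (2 * κ n) + k (ψ (n + 1)) + 2 * κ (n + 1) + 4 + n)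
  have hmm : StrictMono m := strictMono_nat_of_lt_succ fun i => by have := hm i; omega
  have hz : ∀ t, RIS 2 (fun l => cw (eY t (zc N c (k (ψ l)) (j (ψ l))))) (fun l => lv N (k (ψ l) - 1))
      (fun l => lv N (k (ψ l))) (fun l => ψ l) := fun t => (zc_ris c hk hj t).sub hψ
  have he : ∀ t, RIS 2 (fun l => cw (eY t (zc N c (2 * κ l) 0))) (fun l => lv N (2 * κ l - 1))
      (fun l => lv N (2 * κ l)) (fun l => κ l) := fun t =>
    (zc_ris c (k := fun l => 2 * l) (j := fun _ => 0) (fun l => by omega) hj0 t).sub hκ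
  have hm' : ∀ i, m i + lv N (k (ψ (m i))) + lv N (2 * κ (m i)) + ψ (m i + 1) + κ (m i + 1) < m (i + 1) := by
    intro i
    have h1 := hm i
    have h2 := hkm.id_le (ψ (m i + 1))
    simp only [id] at h2
    omega
  have hadd : ∀ t, _ := fun t => (hz t).add (he t) hm' hm0
  let u : ℕ → YT F N := fun i => zc N c (k (ψ (m (2 * i)))) (j (ψ (m (2 * i)))) + zc N c (2 * κ (m (2 * i + 1))) 0
  have hsep : ∀ i, lv N (k (ψ (m (2 * i)))) < lv N (2 * κ (m (2 * i + 1)) - 1) := (hadd s₀).2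
  have hsepk : ∀ i, k (ψ (m (2 * i))) < 2 * κ (m (2 * i + 1)) - 1 := fun i => (lv_strictMono N).lt_iff_lt.1 (hsep i)
  have hnext : ∀ i, 2 * κ (m (2 * i + 1)) < k (ψ (m (2 * (i + 1)))) := by
    intro i
    have h1 := hm (2 * i + 1)
    have h2 : 2 * (i + 1) = 2 * i + 1 + 1 := by ring
    rw [h2]
    have h3 := hψ.id_le (m (2 * i + 1 + 1))
    have h4 := hkm.id_le (ψ (m (2 * i + 1 + 1)))
    have h5 := le_lv N (2 * κ (m (2 * i + 1)))
    simp only [id] at h3 h4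
    omega
  have hkk : StrictMono fun i => k (ψ (m (2 * i))) := strictMono_nat_of_lt_succ fun i => by
    have h1 := hsepk i
    have h2 := hnext i
    omega
  have hκκ : StrictMono fun i => 2 * κ (m (2 * i + 1)) := strictMono_nat_of_lt_succ fun i => by
    have h1 := hsepk (i + 1)
    have h2 := hnext i
    omega
  have hur : ∀ t, RIS (2 + 2) (fun i => cw (eY t (u i))) (fun i => lv N (k (ψ (m (2 * i))) - 1))
      (fun i => lv N (2 * κ (m (2 * i + 1))))
      (fun i => i + if i = 0 then 0 else ψ (m (2 * i - 2) + 1) + κ (m (2 * i - 1) + 1)) := by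
    intro t
    have := (hadd t).1
    simpa only [_root_.map_add, u] using this
  have hul : LocAt (eY : Ω → YT F N →ₗ[ℝ] WT) u s₀ := by
    classical
    intro t
    have hcl : ∀ i, c.ρ (2 * (2 * κ (m (2 * i + 1))) + 2) t = 1 →
        Bd ((1 / 2) ^ i) (cw (eY t (u i)) - cw (eY s₀ (u i))) := by
      intro i hi
      have hi' : c.ρ (2 * k (ψ (m (2 * i))) + 2) t = 1 := by
        by_contra h1
        have h2 := c.zero_of_ne h1 (show 2 * k (ψ (m (2 * i))) + 2 < 2 * (2 * κ (m (2 * i + 1))) + 2 by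
          have := hsepk i; omega)
        rw [h2] at hi
        exact zero_ne_one hi
      have e1 := zc_close (N := N) c (hj (ψ (m (2 * i)))) hi'
      have e2 := zc_close (N := N) c (k := 2 * κ (m (2 * i + 1))) (j := 0) (by positivity) hi
      have e3 : cw (eY t (u i)) - cw (eY s₀ (u i)) =
          (cw (evY F N t (zc N c (k (ψ (m (2 * i)))) (j (ψ (m (2 * i)))))) -
            cw (evY F N s₀ (zc N c (k (ψ (m (2 * i)))) (j (ψ (m (2 * i))))))) +
          (cw (evY F N t (zc N c (2 * κ (m (2 * i + 1))) 0)) -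
            cw (evY F N s₀ (zc N c (2 * κ (m (2 * i + 1))) 0))) := by
        show cw (eY t (_ + _)) - cw (eY s₀ (_ + _)) = _
        rw [_root_.map_add, _root_.map_add, _root_.map_add, _root_.map_add]
        simp only [eY_apply]
        abel
      rw [e3]
      refine (e1.add e2).mono ?_
      have f1 : ((1 : ℝ) / 2) ^ (k (ψ (m (2 * i))) + 1) ≤ (1 / 2) ^ (i + 1) :=
        pow_le_pow_of_le_one (by norm_num) (by norm_num) (by have := hkk.id_le i; simp only [id] at this; omega)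
      have f2 : ((1 : ℝ) / 2) ^ (2 * κ (m (2 * i + 1)) + 1) ≤ (1 / 2) ^ (i + 1) :=
        pow_le_pow_of_le_one (by norm_num) (by norm_num) (by have := hκκ.id_le i; simp only [id] at this; omega)
      have f3 : ((1 : ℝ) / 2) ^ i = (1 / 2) ^ (i + 1) + (1 / 2) ^ (i + 1) := by rw [pow_succ]; ring
      rw [f3]
      exact add_le_add f1 f2
    by_cases h : ∃ i, c.ρ (2 * (2 * κ (m (2 * i + 1))) + 2) t ≠ 1
    · right
      refine ⟨Nat.find h, fun i hi => hcl i (not_not.1 (Nat.find_min h hi)), fun i hi => ?_⟩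
      have h0 := Nat.find_spec h
      have h1 : c.ρ (2 * k (ψ (m (2 * i))) + 2) t = 0 := by
        refine c.zero_of_ne h0 ?_
        have h2 := hnext (Nat.find h)
        have h3 : k (ψ (m (2 * (Nat.find h + 1)))) ≤ k (ψ (m (2 * i))) := hkk.monotone (show Nat.find h + 1 ≤ i from hi)
        omega
      have h2 : c.ρ (2 * (2 * κ (m (2 * i + 1))) + 2) t = 0 := by
        refine c.zero_of_ne h0 ?_
        have h3 : 2 * κ (m (2 * Nat.find h + 1)) < 2 * κ (m (2 * i + 1)) := hκκ hi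
        omega
      show eY t (_ + _) = 0
      rw [_root_.map_add, eY_apply, eY_apply, zc_zero c (hj _) h1, zc_zero c (by positivity) h2, add_zero]
    · push Not at h
      exact Or.inl fun i => hcl i (h i)
  obtain ⟨d', hd'⟩ := opLemma' norming T hur hul
  have ev2 : Tendsto (fun i : ℕ => 2 * i) atTop atTop :=
    tendsto_atTop_mono (fun i => by simp only [id]; omega) tendsto_id
  have ev21 : Tendsto (fun i : ℕ => 2 * i + 1) atTop atTop :=
    tendsto_atTop_mono (fun i => by simp only [id]; omega) tendsto_id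
  have hA := hd.comp (hψ.tendsto_atTop.comp (hmm.tendsto_atTop.comp ev2))
  have hB := hd₀.comp (hκ.tendsto_atTop.comp (hmm.tendsto_atTop.comp ev21))
  have hlam' : Tendsto (fun i => d₀ (κ (m (2 * i + 1)))) atTop (𝓝 lam) :=
    hlam.comp (hmm.tendsto_atTop.comp ev21)
  have hdiff : Tendsto (fun i => (d (ψ (m (2 * i))) - d' i) • EE N (F s₀) (k (ψ (m (2 * i)))) (j (ψ (m (2 * i)))) +
      (d₀ (κ (m (2 * i + 1))) - d' i) • EE N (F s₀) (2 * κ (m (2 * i + 1))) 0) atTop (𝓝 0) := by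
    have h1 := (hd'.sub hA).sub hB
    rw [sub_zero, sub_zero] at h1
    refine h1.congr fun i => ?_
    simp only [Function.comp_apply]
    show T (_ + _) - d' i • eY s₀ (_ + _) - _ - _ = _
    rw [_root_.map_add, _root_.map_add, eY_apply, eY_apply, ev_zc_self c (hj _), ev_zc_self c (by positivity),
      sub_smul, sub_smul, smul_add]
    abel
  -- the peaks
  have hp1 : Tendsto (fun i => ‖d (ψ (m (2 * i))) - d' i‖) atTop (𝓝 0) := by
    refine squeeze_zero (fun _ => norm_nonneg _) (fun i => ?_) (tendsto_zero_iff_norm_tendsto_zero.1 hdiff)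
    obtain ⟨g, hg, -, hpk⟩ := EE_peak N (F s₀) (hj (ψ (m (2 * i))))
    refine le_trans (le_of_eq ?_) (norm_cw_le _ (lv N (k (ψ (m (2 * i))))) (ixx (k (ψ (m (2 * i)))) g
      (dd N (F s₀) (k (ψ (m (2 * i)))))))
    rw [_root_.map_add, _root_.map_smul, _root_.map_smul]
    have h0 : cw (EE N (F s₀) (2 * κ (m (2 * i + 1))) 0) (lv N (k (ψ (m (2 * i))))) (ixx (k (ψ (m (2 * i)))) g
        (dd N (F s₀) (k (ψ (m (2 * i)))))) = 0 := EE_lv N _ _ _ _ _ (Or.inl (hsep i))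
    show _ = ‖(d (ψ (m (2 * i))) - d' i) * _ + (d₀ (κ (m (2 * i + 1))) - d' i) * _‖
    rw [h0, mul_zero, add_zero, norm_mul, hpk, mul_one]
  have hp2 : Tendsto (fun i => ‖d₀ (κ (m (2 * i + 1))) - d' i‖) atTop (𝓝 0) := by
    refine squeeze_zero (fun _ => norm_nonneg _) (fun i => ?_) (tendsto_zero_iff_norm_tendsto_zero.1 hdiff)
    have hj1 : 0 < 2 ^ (2 * κ (m (2 * i + 1))) := by positivity
    obtain ⟨g, hg, -, hpk⟩ := EE_peak N (F s₀) hj1
    refine le_trans (le_of_eq ?_) (norm_cw_le _ (lv N (2 * κ (m (2 * i + 1)))) (ixx (2 * κ (m (2 * i + 1))) g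
      (dd N (F s₀) (2 * κ (m (2 * i + 1))))))
    rw [_root_.map_add, _root_.map_smul, _root_.map_smul]
    have h0 : cw (EE N (F s₀) (k (ψ (m (2 * i)))) (j (ψ (m (2 * i))))) (lv N (2 * κ (m (2 * i + 1))))
        (ixx (2 * κ (m (2 * i + 1))) g (dd N (F s₀) (2 * κ (m (2 * i + 1))))) = 0 := by
      refine EE_lv N _ _ _ _ _ (Or.inr ?_)
      apply lv_strictMono N
      have := hsepk i
      omega
    show _ = ‖(d (ψ (m (2 * i))) - d' i) * _ + (d₀ (κ (m (2 * i + 1))) - d' i) * _‖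
    rw [h0, mul_zero, zero_add, norm_mul, hpk, mul_one]
  have hfin : Tendsto (fun i => dist (d (ψ (m (2 * i)))) lam) atTop (𝓝 0) := by
    have h3 := (hp1.add hp2).add (tendsto_iff_dist_tendsto_zero.1 hlam')
    simp only [add_zero] at h3
    refine squeeze_zero (fun _ => dist_nonneg) (fun i => ?_) h3
    have e1 := dist_triangle_right (d (ψ (m (2 * i)))) (d₀ (κ (m (2 * i + 1)))) (d' i)
    have e2 := dist_triangle (d (ψ (m (2 * i)))) (d₀ (κ (m (2 * i + 1)))) lam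
    rw [dist_eq_norm _ (d' i), dist_eq_norm _ (d' i)] at e1
    exact e2.trans (add_le_add e1 le_rfl)
  have h1 := ge_of_tendsto' hfin fun i => hψε (m (2 * i))
  linarith

end

end Pool.Agent.TH313.SC
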