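import Pool.Agent.TH313.SC.Lam

/-! Off-diagonal scalars vanish, scalars are real, locality. -/

set_option autoImplicit false

namespace Pool.Agent.TH313.SC

open Finset Filter Topology Pool.Agent.TH313.HI
open scoped BoundedContinuousFunction

noncomputable section

variable {Ω M : Type} [TopologicalSpace Ω] [MetricSpace M] {F : C(Ω, M)} {N : Net M}

/-- sections vanish at the peaks of distant points -/
theorem YT.coord_far (y : YT F N) {t : Ω} {m : M} {k g : ℕ} (hg : g < 2 ^ (k + 2))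
    (h : 3 / ((k : ℝ) + 1) ≤ dist m (F t)) : cw (evY F N t y) (lv N k) (ixx k g (dd N m k)) = 0 := by
  refine YT.kills F N t ((coordL (lv N k) (ixx k g (dd N m k))).restrictScalars ℝ) (fun l j _ => ?_) y
  show cw (EE N (F t) l j) (lv N k) (ixx k g (dd N m k)) = 0
  rw [EE_coord N _ l j k _ hg, pr_far N h, Complex.ofReal_zero, mul_zero]

/-- the coordinates of sections are real -/
theorem YT.coord_im (y : YT F N) (t : Ω) (k g : ℕ) : (cw (evY F N t y) k g).im = 0 := by
  refine YT.kills F N t (Complex.imCLM.comp ((coordL k g).restrictScalars ℝ)) (fun l j _ => ?_) y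
  show (cw (EE N (F t) l j) k g).im = 0
  rw [cw_EE, th_apply]
  split_ifs
  · unfold gf
    rw [← Complex.ofReal_mul, Complex.ofReal_im]
  · simp

/-- the scalar of an operator at a point, and the images at other points -/
theorem off_null [Nonempty Ω] (T : YT F N →L[ℝ] YT F N) {s t : Ω} (hst : F t ≠ F s) (c : Cut F s) {k j : ℕ → ℕ}
    (hk : ∀ l, k l + 2 ≤ k (l + 1)) (hj : ∀ l, j l < 2 ^ k l) :
    Tendsto (fun l => evY F N t (T (zc N c (k l) (j l)))) atTop (𝓝 0) := by
  have hkm : StrictMono k := strictMono_nat_of_lt_succ fun l => by have := hk l; omega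
  obtain ⟨lam, hlam⟩ := lam_exists ((evY F N t).comp T) c
  have h1 := hlam k j hk hj
  have h2 : lam = 0 := by
    by_contra hne
    have hpos : 0 < ‖lam‖ := norm_pos_iff.2 hne
    have hd : 0 < dist (F s) (F t) := dist_pos.2 (Ne.symm hst)
    obtain ⟨n, hn⟩ := exists_nat_gt (3 / dist (F s) (F t))
    have h3 := (Metric.tendsto_atTop.1 (tendsto_zero_iff_norm_tendsto_zero.1 h1)) ‖lam‖ hpos
    obtain ⟨L, hL⟩ := h3
    have h4 := hL (max L n) (le_max_left _ _)
    rw [dist_zero_right, norm_norm] at h4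
    set l := max L n
    have hln : n ≤ k l := (le_max_right L n).trans (hkm.id_le l)
    obtain ⟨g, hg, -, hpk⟩ := EE_peak N (F s) (hj l)
    have h5 : cw (evY F N t (T (zc N c (k l) (j l)))) (lv N (k l)) (ixx (k l) g (dd N (F s) (k l))) = 0 := by
      apply YT.coord_far _ hg
      rw [div_le_iff₀ (by positivity)]
      rw [div_lt_iff₀ hd] at hn
      have : (n : ℝ) ≤ k l := by exact_mod_cast hln
      nlinarith
    have h6 := norm_cw_le (((evY F N t).comp T) (zc N c (k l) (j l)) - lam • EE N (F s) (k l) (j l)) (lv N (k l))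
      (ixx (k l) g (dd N (F s) (k l)))
    rw [_root_.map_sub, _root_.map_smul] at h6
    have h7 : ‖cw (evY F N t (T (zc N c (k l) (j l)))) (lv N (k l)) (ixx (k l) g (dd N (F s) (k l))) -
        lam * cw (EE N (F s) (k l) (j l)) (lv N (k l)) (ixx (k l) g (dd N (F s) (k l)))‖ ≤
        ‖((evY F N t).comp T) (zc N c (k l) (j l)) - lam • EE N (F s) (k l) (j l)‖ := h6
    rw [h5, zero_sub, norm_neg, norm_mul, hpk, mul_one] at h7
    linarith
  rw [h2] at h1
  refine h1.congr fun l => ?_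
  rw [zero_smul, sub_zero]
  rfl

/-- the real scalar of an operator at a point -/
theorem lamR_exists [Nonempty Ω] (T : YT F N →L[ℝ] YT F N) {s : Ω} (c : Cut F s) : ∃ lam : ℝ, ∀ k j : ℕ → ℕ,
    (∀ l, k l + 2 ≤ k (l + 1)) → (∀ l, j l < 2 ^ k l) →
    Tendsto (fun l => evY F N s (T (zc N c (k l) (j l))) - lam • EE N (F s) (k l) (j l)) atTop (𝓝 0) := by
  obtain ⟨lam, hlam⟩ := lam_exists ((evY F N s).comp T) c
  have him : lam.im = 0 := by
    by_contra hne
    have hpos : 0 < |lam.im| := abs_pos.2 hne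
    have hj0 : ∀ l : ℕ, (fun _ => 0 : ℕ → ℕ) l < 2 ^ (fun l => 2 * l : ℕ → ℕ) l := fun l => by positivity
    have h1 := hlam (fun l => 2 * l) (fun _ => 0) (fun l => by omega) hj0
    obtain ⟨L, hL⟩ := (Metric.tendsto_atTop.1 (tendsto_zero_iff_norm_tendsto_zero.1 h1)) |lam.im| hpos
    have h4 := hL L le_rfl
    rw [dist_zero_right, norm_norm] at h4
    have hjL := hj0 L
    simp only at hjL
    obtain ⟨g, hg, hgf, hpk⟩ := EE_peak N (F s) hjL
    have h6 := norm_cw_le (((evY F N s).comp T) (zc N c (2 * L) 0) - lam • EE N (F s) (2 * L) 0) (lv N (2 * L))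
      (ixx (2 * L) g (dd N (F s) (2 * L)))
    rw [_root_.map_sub, _root_.map_smul] at h6
    have h7 : ‖cw (evY F N s (T (zc N c (2 * L) 0))) (lv N (2 * L)) (ixx (2 * L) g (dd N (F s) (2 * L))) -
        lam * cw (EE N (F s) (2 * L) 0) (lv N (2 * L)) (ixx (2 * L) g (dd N (F s) (2 * L)))‖ ≤
        ‖((evY F N s).comp T) (zc N c (2 * L) 0) - lam • EE N (F s) (2 * L) 0‖ := h6
    have h8 := (Complex.abs_im_le_norm _).trans h7
    rw [Complex.sub_im, YT.coord_im, zero_sub, abs_neg] at h8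
    have h9 : cw (EE N (F s) (2 * L) 0) (lv N (2 * L)) (ixx (2 * L) g (dd N (F s) (2 * L))) =
        ((Pool.Agent.BAPp.ee sys.sg sys.tt (2 * L) 0 (2 * L, g) : ℝ) : ℂ) := by
      rw [EE_coord N _ _ _ _ _ hg, pr_dd, Complex.ofReal_one, mul_one]
      rfl
    rw [h9, Complex.im_mul_ofReal, abs_mul] at h8
    rw [h9, Complex.norm_real, Real.norm_eq_abs] at hpk
    rw [hpk, mul_one] at h8
    linarith
  refine ⟨lam.re, fun k j hk hj => ?_⟩
  refine (hlam k j hk hj).congr fun l => ?_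
  have h1 : lam = ((lam.re : ℝ) : ℂ) := by
    apply Complex.ext
    · rw [Complex.ofReal_re]
    · rw [Complex.ofReal_im, him]
  have h2 : lam.re • EE N (F s) (k l) (j l) = ((lam.re : ℝ) : ℂ) • EE N (F s) (k l) (j l) := rfl
  rw [h2, ← h1]
  rfl

/-! ### algebra of generators -/

theorem gY_add {f g : Ω → ℝ} (hf : C0 f) (hg : C0 g) {k j : ℕ} (hj : j < 2 ^ k) :
    gY F N (fun t => f t + g t) (hf.add hg) k j = gY F N f hf k j + gY F N g hg k j := by
  apply YT.ext
  intro t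
  rw [_root_.map_add, ev_gY F N _ hj, ev_gY F N _ hj, ev_gY F N _ hj, add_smul]

theorem gY_smul {f : Ω → ℝ} (hf : C0 f) (c : ℝ) {k j : ℕ} (hj : j < 2 ^ k) :
    gY F N (fun t => c * f t) (hf.const_mul c) k j = c • gY F N f hf k j := by
  apply YT.ext
  intro t
  rw [_root_.map_smul, ev_gY F N _ hj, ev_gY F N _ hj, smul_smul]

theorem gY_congr {f g : Ω → ℝ} (hf : C0 f) (hg : C0 g) (h : ∀ t, f t = g t) (k j : ℕ) :
    gY F N f hf k j = gY F N g hg k j := by
  have : f = g := funext h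
  subst this
  rfl

/-! ### locality -/

/-- the core of the locality argument -/
theorem far_core [Nonempty Ω] (T : YT F N →L[ℝ] WT) {f : Ω → ℝ} (hf : C0 f) (hf1 : ∀ t, |f t| ≤ 1) {m : M} {δ : ℝ}
    (hδ : 0 < δ) (hfar : ∀ t, f t ≠ 0 → δ ≤ dist m (F t)) {k j g : ℕ → ℕ} (hk : ∀ l, k l + 2 ≤ k (l + 1))
    (hj : ∀ l, j l < 2 ^ k l) (hg : ∀ l, g l < 2 ^ (k l + 2)) :
    Tendsto (fun l => cw (T (gY F N f hf (k l) (j l))) (lv N (k l)) (ixx (k l) (g l) (dd N m (k l)))) atTop (𝓝 0) := by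
  have hkm : StrictMono k := strictMono_nat_of_lt_succ fun l => by have := hk l; omega
  by_contra hcon
  rw [Metric.tendsto_atTop] at hcon
  push Not at hcon
  obtain ⟨ε, hε, hfr⟩ := hcon
  obtain ⟨n, hn⟩ := exists_nat_gt (3 / δ)
  have hfr' : ∃ᶠ l in atTop, ε ≤ ‖cw (T (gY F N f hf (k l) (j l))) (lv N (k l)) (ixx (k l) (g l) (dd N m (k l)))‖ ∧
      n ≤ l := by
    rw [frequently_atTop]
    intro L
    obtain ⟨l, hl, hd⟩ := hfr (max L n)
    exact ⟨l, (le_max_left _ _).trans hl, by rwa [dist_zero_right] at hd, (le_max_right _ _).trans hl⟩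
  obtain ⟨ψ, hψ, hψε⟩ := extraction_of_frequently_atTop hfr'
  have hgn : ∀ l, ‖gY F N f hf (k l) (j l)‖ ≤ 2 := fun l => by
    have := norm_gY_le F N hf (hj l) hf1 zero_le_one
    rwa [mul_one] at this
  obtain ⟨b, -, κ, hκ, hb⟩ := (isCompact_closedBall (0 : ℂ) (‖T‖ * 2)).tendsto_subseq
    (x := fun l => cw (T (gY F N f hf (k (ψ l)) (j (ψ l)))) (lv N (k (ψ l))) (ixx (k (ψ l)) (g (ψ l)) (dd N m (k (ψ l)))))
    (fun l => by
      rw [mem_closedBall_zero_iff]
      exact (norm_cw_le _ _ _).trans ((T.le_opNorm _).trans (mul_le_mul_of_nonneg_left (hgn _) (norm_nonneg _))))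
  have hbε : ε ≤ ‖b‖ := ge_of_tendsto' hb.norm fun l => (hψε _).1
  have hm : StrictMono fun l => ψ (κ l) := hψ.comp hκ
  let z : ℕ → YT F N := fun l => gY F N f hf (k (ψ (κ l))) (j (ψ (κ l)))
  have hr : ∀ t, RIS 2 (fun l => cw (eY t (z l))) (fun l => lv N (k (ψ (κ l)) - 1)) (fun l => lv N (k (ψ (κ l))))
      (fun l => ψ (κ l)) := by
    intro t
    have h1 := (EE_ris N (F t) (j := j) hk (θ := fun _ => f t) (fun _ => hf1 t)).sub hm
    have h2 : (fun l => cw (eY t (z l))) = fun l => cw (f t • EE N (F t) (k (ψ (κ l))) (j (ψ (κ l)))) := by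
      funext l
      rw [eY_apply, ev_gY F N hf (hj _)]
    rw [h2]
    exact h1
  let φ : ℕ → Tr × ℕ × ℕ := fun l => (.base (lv N (k (ψ (κ l)))) (ixx (k (ψ (κ l))) (g (ψ (κ l))) (dd N m (k (ψ (κ l))))),
    lv N (k (ψ (κ l))), lv N (k (ψ (κ l))))
  have hφ : ∀ l, (φ l).1.Wf := fun l => ixx_lt N (hg _) (dd_lt N _ _)
  have hval : ∀ l (w : WT), ev (φ l).1 (cut (φ l).2.1 (φ l).2.2 (cw w)) =
      cw w (lv N (k (ψ (κ l)))) (ixx (k (ψ (κ l))) (g (ψ (κ l))) (dd N m (k (ψ (κ l))))) := by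
    intro l w
    show ev (.base _ _) _ = _
    rw [ev_base, cut_apply, if_pos ⟨le_rfl, le_rfl⟩]
  have hz0 : ∀ l t, vl eY (φ l) t (z l) = 0 := by
    intro l t
    unfold vl
    rw [hval]
    by_cases h0 : f t = 0
    · have : eY t (z l) = 0 := by rw [eY_apply, ev_gY F N hf (hj _), h0, zero_smul]
      rw [this, _root_.map_zero]
      rfl
    · apply YT.coord_far _ (hg _)
      refine le_trans ?_ (hfar t h0)
      rw [div_le_iff₀ (by positivity)]
      rw [div_lt_iff₀ hδ] at hn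
      have h1 : n ≤ k (ψ (κ l)) := (hψε (κ l)).2.trans (hkm.id_le _)
      have h2 : (n : ℝ) ≤ k (ψ (κ l)) := by exact_mod_cast h1
      nlinarith
  have hbal : Bal eY z φ φ 1 0 := by
    intro ψ' _
    refine ⟨0, le_rfl, fun η hη => ⟨0, fun a _ m' t => ?_⟩⟩
    rw [Finset.sum_eq_zero]
    · rw [norm_zero]; positivity
    · intro i _
      rw [hz0, hz0]
      ring
  have hT : Tendsto (fun l => ev (φ l).1 (cut (φ l).2.1 (φ l).2.2 (cw (T (z l))))) atTop (𝓝 b) := by
    refine hb.congr fun l => ?_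
    rw [hval]
    rfl
  have h3 := opCore norming T hr φ φ hφ hφ 1 0 b b (by simp) (by simp) hT hT hbal
  rw [one_mul, zero_mul, add_zero] at h3
  rw [h3, norm_zero] at hbε
  linarith

theorem exists_big_coord (m : M) (k j : ℕ) (w : WT) :
    ∃ g < 2 ^ (k + 2), ‖alv N m k j w‖ ≤ ‖cw w (lv N k) (ixx k g (dd N m k))‖ := by
  by_contra hcon
  push Not at hcon
  have h0 : 0 < ‖alv N m k j w‖ := (norm_nonneg _).trans_lt (hcon 0 (by positivity))
  have h1 : ‖alv N m k j w‖ < ‖alv N m k j w‖ := by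
    conv_lhs => rw [alv_apply]
    rw [norm_mul]
    have h2 : ‖(1 / 2 ^ (k + 2) : ℂ)‖ = 1 / 2 ^ (k + 2) := by simp
    rw [h2, one_div, inv_mul_lt_iff₀ (by positivity)]
    calc ‖∑ g ∈ range (2 ^ (k + 2)), ((sys.sg k j g : ℝ) : ℂ) * cw w (lv N k) (ixx k g (dd N m k))‖
        ≤ ∑ g ∈ range (2 ^ (k + 2)), ‖((sys.sg k j g : ℝ) : ℂ) * cw w (lv N k) (ixx k g (dd N m k))‖ := norm_sum_le _ _
      _ < ∑ g ∈ range (2 ^ (k + 2)), ‖alv N m k j w‖ := by
          refine Finset.sum_lt_sum_of_nonempty ⟨0, mem_range.2 (by positivity)⟩ fun g hg => ?_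
          rw [norm_mul, Complex.norm_real]
          refine lt_of_le_of_lt ?_ (hcon g (mem_range.1 hg))
          exact mul_le_of_le_one_left (norm_nonneg _) (sys.sg_le k j g)
      _ = 2 ^ (k + 2) * ‖alv N m k j w‖ := by
          rw [Finset.sum_const, Finset.card_range, nsmul_eq_mul]; push_cast; ring
  exact lt_irrefl _ h1

/-- locality: functions vanishing near `s` -/
theorem far_null [Nonempty Ω] (hF : Function.Injective F) (T : YT F N →L[ℝ] WT) {f : Ω → ℝ} (hf : C0 f) {s : Ω}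
    (hs : ∀ᶠ t in 𝓝 s, f t = 0) {k j : ℕ → ℕ} (hk : ∀ l, k l + 2 ≤ k (l + 1)) (hj : ∀ l, j l < 2 ^ k l) :
    Tendsto (fun l => alv N (F s) (k l) (j l) (T (gY F N f hf (k l) (j l)))) atTop (𝓝 0) := by
  rw [Metric.tendsto_atTop]
  intro ε hε
  -- truncation
  obtain ⟨c, hc, hfc⟩ := hf.bdd
  set η : ℝ := ε / (4 * (‖T‖ + 1)) with hη
  have hT1 : 0 < ‖T‖ + 1 := by positivity
  have hηpos : 0 < η := by positivity
  let f₁ : Ω → ℝ := fun t => max 0 (f t - η) + -max 0 (-f t - η)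
  have hmx : ∀ x : ℝ, |max 0 (x - η)| ≤ |x| := by
    intro x
    rw [abs_of_nonneg (le_max_left _ _)]
    refine max_le (abs_nonneg _) ?_
    linarith [le_abs_self x]
  have h1a : C0 (fun t => max 0 (f t - η)) :=
    hf.of_le (continuous_const.max (hf.1.sub continuous_const)) one_pos fun t => by rw [one_mul]; exact hmx _
  have h1b : C0 (fun t => max 0 (-f t - η)) :=
    hf.of_le (continuous_const.max (hf.1.neg.sub continuous_const)) one_pos fun t => by
      rw [one_mul, ← abs_neg (f t)]; exact hmx _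
  have hf₁ : C0 f₁ := h1a.add h1b.neg
  have hf₂ : C0 (fun t => f t - f₁ t) := hf.sub hf₁
  have hd : ∀ t, |f t - f₁ t| ≤ η := by
    intro t
    show |f t - (max 0 (f t - η) + -max 0 (-f t - η))| ≤ η
    rcases le_total (f t) 0 with h | h
    · rw [max_eq_left (by linarith : f t - η ≤ 0)]
      rcases le_total (-f t - η) 0 with h' | h'
      · rw [max_eq_left h', abs_le]; constructor <;> linarith
      · rw [max_eq_right h', abs_le]; constructor <;> linarith
    · rw [max_eq_left (by linarith : -f t - η ≤ 0)]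
      rcases le_total (f t - η) 0 with h' | h'
      · rw [max_eq_left h', abs_le]; constructor <;> linarith
      · rw [max_eq_right h', abs_le]; constructor <;> linarith
  have hne : ∀ t, f₁ t ≠ 0 → η ≤ |f t| := by
    intro t ht
    by_contra hlt
    push Not at hlt
    rw [abs_lt] at hlt
    apply ht
    show max 0 (f t - η) + -max 0 (-f t - η) = 0
    rw [max_eq_left (by linarith), max_eq_left (by linarith)]
    ring
  have hbd₁ : ∀ t, |f₁ t| ≤ c + η := by
    intro t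
    have h2 := abs_sub_abs_le_abs_sub (f₁ t) (f t)
    rw [abs_sub_comm] at h2
    have h3 := hfc t
    have h4 := hd t
    linarith
  -- the distance
  have hK := hf.2 η hηpos
  obtain ⟨δ, hδ, hfar⟩ : ∃ δ > 0, ∀ t, f₁ t ≠ 0 → δ ≤ dist (F s) (F t) := by
    have h2 : IsCompact (F '' {t | η ≤ |f t|}) := hK.image F.continuous
    have h3 : F s ∉ F '' {t | η ≤ |f t|} := by
      rintro ⟨t, ht, hts⟩
      have h4 : t = s := hF hts
      subst h4
      have h5 := hs.self_of_nhds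
      have h6 : η ≤ |f t| := ht
      rw [h5, abs_zero] at h6
      linarith
    rcases Set.eq_empty_or_nonempty (F '' {t | η ≤ |f t|}) with h4 | h4
    · refine ⟨1, one_pos, fun t ht => ?_⟩
      have : F t ∈ F '' {t | η ≤ |f t|} := ⟨t, hne t ht, rfl⟩
      rw [h4] at this
      exact this.elim
    · obtain ⟨p, hp, hmin⟩ := h2.exists_infDist_eq_dist h4 (F s)
      refine ⟨dist (F s) p, dist_pos.2 (fun h => h3 (h ▸ hp)), fun t ht => ?_⟩
      rw [← hmin]
      exact Metric.infDist_le_dist_of_mem ⟨t, hne t ht, rfl⟩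
  -- the normalized function
  have hcη : 0 < c + η := by positivity
  have hf₃ : C0 (fun t => (c + η)⁻¹ * f₁ t) := hf₁.const_mul _
  choose g hg hgc using fun l => exists_big_coord (N := N) (F s) (k l) (j l)
    (T (gY F N (fun t => (c + η)⁻¹ * f₁ t) hf₃ (k l) (j l)))
  have h5 := far_core T hf₃ (fun t => by
    rw [abs_mul, abs_inv, abs_of_pos hcη, inv_mul_le_iff₀ hcη, mul_one]
    exact hbd₁ t) (m := F s) hδ (fun t ht => hfar t (fun h => ht (by rw [h, mul_zero]))) hk hj hg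
  obtain ⟨L, hL⟩ := (Metric.tendsto_atTop.1 h5) (ε / (2 * (c + η))) (by positivity)
  refine ⟨L, fun l hl => ?_⟩
  have h6 := hL l hl
  rw [dist_zero_right] at h6 ⊢
  have h7 := (hgc l).trans h6.le
  have h8 : gY F N f hf (k l) (j l) = gY F N (fun t => f t - f₁ t) hf₂ (k l) (j l) +
      (c + η) • gY F N (fun t => (c + η)⁻¹ * f₁ t) hf₃ (k l) (j l) := by
    apply YT.ext
    intro t
    rw [_root_.map_add, _root_.map_smul, ev_gY F N _ (hj l), ev_gY F N _ (hj l), ev_gY F N _ (hj l), smul_smul,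
      ← add_smul]
    congr 1
    field_simp
    ring
  have h9 : ‖T (gY F N (fun t => f t - f₁ t) hf₂ (k l) (j l))‖ < ε / 2 := by
    have h10 := norm_gY_le F N hf₂ (hj l) hd hηpos.le
    have h11 := (T.le_opNorm (gY F N (fun t => f t - f₁ t) hf₂ (k l) (j l))).trans
      (mul_le_mul_of_nonneg_left h10 (norm_nonneg _))
    refine lt_of_le_of_lt h11 ?_
    have h12 : (‖T‖ + 1) * (4 * η) = ε := by
      rw [hη]; field_simp
    nlinarith
  have h10 : alv N (F s) (k l) (j l) (T (gY F N f hf (k l) (j l))) =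
      alv N (F s) (k l) (j l) (T (gY F N (fun t => f t - f₁ t) hf₂ (k l) (j l))) +
      ((c + η : ℝ) : ℂ) * alv N (F s) (k l) (j l) (T (gY F N (fun t => (c + η)⁻¹ * f₁ t) hf₃ (k l) (j l))) := by
    rw [h8, _root_.map_add, _root_.map_smul, _root_.map_add]
    congr 1
    have : ∀ w : WT, (c + η) • w = ((c + η : ℝ) : ℂ) • w := fun _ => rfl
    rw [this, _root_.map_smul, smul_eq_mul]
  rw [h10]
  refine (norm_add_le _ _).trans_lt ?_
  rw [norm_mul, Complex.norm_real, Real.norm_of_nonneg hcη.le]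
  have h11 := norm_alv_le N (F s) (k l) (j l) (T (gY F N (fun t => f t - f₁ t) hf₂ (k l) (j l)))
  have h12 : (c + η) * ‖alv N (F s) (k l) (j l) (T (gY F N (fun t => (c + η)⁻¹ * f₁ t) hf₃ (k l) (j l)))‖ ≤ ε / 2 := by
    calc (c + η) * ‖alv N (F s) (k l) (j l) (T (gY F N (fun t => (c + η)⁻¹ * f₁ t) hf₃ (k l) (j l)))‖
        ≤ (c + η) * (ε / (2 * (c + η))) := mul_le_mul_of_nonneg_left h7 hcη.le
      _ = ε / 2 := by field_simp
  linarith

end

end Pool.Agent.TH313.SC
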