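import Pool.Agent.TH313.HI.Op3

/-! Profiles on finite nets of a compact metric space and the fibre vectors. -/

set_option autoImplicit false

namespace Pool.Agent.TH313.SC

open Finset Filter Topology Pool.Agent.TH313.HI
open scoped BoundedContinuousFunction

noncomputable section

/-- finite nets of a metric space whose sizes are powers of two -/
structure Net (M : Type*) [MetricSpace M] where
  r : ℕ → ℕ
  mono : Monotone r
  pt : ℕ → ℕ → M
  cov : ∀ (k : ℕ) (m : M), ∃ d < 2 ^ r k, dist m (pt k d) ≤ 1 / ((k : ℝ) + 1)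

variable {M : Type*} [MetricSpace M]

theorem exists_net [CompactSpace M] [Nonempty M] : Nonempty (Net M) := by
  have h1 : ∀ k : ℕ, ∃ s : Finset M, ∀ m : M, ∃ p ∈ s, dist m p < 1 / ((k : ℝ) + 1) := by
    intro k
    obtain ⟨t, ht, hs⟩ := Metric.totallyBounded_iff.1 (isCompact_univ (X := M)).totallyBounded (1 / ((k : ℝ) + 1)) (by positivity)
    refine ⟨ht.toFinset, fun m => ?_⟩
    have := hs (Set.mem_univ m)
    simp only [Set.mem_iUnion, Metric.mem_ball, exists_prop] at this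
    obtain ⟨p, hp, h⟩ := this
    exact ⟨p, ht.mem_toFinset.2 hp, h⟩
  choose s hs using h1
  obtain ⟨m₀⟩ := ‹Nonempty M›
  have h2 : ∀ k, ∃ f : ℕ → M, ∀ p ∈ s k, ∃ d < (s k).card, f d = p := by
    intro k
    refine ⟨fun d => if h : d < (s k).card then ((s k).equivFin.symm ⟨d, h⟩ : M) else m₀, fun p hp => ?_⟩
    refine ⟨(s k).equivFin ⟨p, hp⟩, Fin.is_lt _, ?_⟩
    simp
  choose f hf using h2
  refine ⟨⟨fun k => ∑ i ∈ range (k + 1), (s i).card, fun a b hab =>
    Finset.sum_le_sum_of_subset (Finset.range_mono (by omega)), f, fun k m => ?_⟩⟩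
  obtain ⟨p, hp, hd⟩ := hs k m
  obtain ⟨d, hdc, rfl⟩ := hf k p hp
  refine ⟨d, ?_, hd.le⟩
  have h3 : (s k).card ≤ ∑ i ∈ range (k + 1), (s i).card :=
    Finset.single_le_sum (f := fun i => (s i).card) (fun _ _ => Nat.zero_le _) (mem_range.2 (Nat.lt_succ_self k))
  exact lt_of_lt_of_le (hdc.trans_le h3) Nat.lt_two_pow_self.le

variable (N : Net M)

/-- the profile of a point -/
def pr (m : M) (k d : ℕ) : ℝ := if d < 2 ^ N.r k then max 0 (min 1 (2 - ((k : ℝ) + 1) * dist m (N.pt k d))) else 0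

theorem pr_nonneg (m : M) (k d : ℕ) : 0 ≤ pr N m k d := by
  unfold pr
  split_ifs
  · exact le_max_left _ _
  · exact le_rfl

theorem pr_le_one (m : M) (k d : ℕ) : pr N m k d ≤ 1 := by
  unfold pr
  split_ifs
  · exact max_le zero_le_one (min_le_left _ _)
  · exact zero_le_one

theorem abs_pr_le (m : M) (k d : ℕ) : |pr N m k d| ≤ 1 := by
  rw [abs_of_nonneg (pr_nonneg N m k d)]
  exact pr_le_one N m k d

theorem pr_big {m : M} {k d : ℕ} (h : ¬ d < 2 ^ N.r k) : pr N m k d = 0 := if_neg h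

/-- a net point near `m` -/
def dd (m : M) (k : ℕ) : ℕ := (N.cov k m).choose

theorem dd_lt (m : M) (k : ℕ) : dd N m k < 2 ^ N.r k := (N.cov k m).choose_spec.1

theorem dist_dd (m : M) (k : ℕ) : dist m (N.pt k (dd N m k)) ≤ 1 / ((k : ℝ) + 1) := (N.cov k m).choose_spec.2

theorem pr_dd (m : M) (k : ℕ) : pr N m k (dd N m k) = 1 := by
  unfold pr
  rw [if_pos (dd_lt N m k)]
  have h1 := dist_dd N m k
  rw [le_div_iff₀ (by positivity)] at h1
  rw [min_eq_left (by linarith), max_eq_right zero_le_one]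

theorem pr_sub_le (m m' : M) (k d : ℕ) : |pr N m k d - pr N m' k d| ≤ ((k : ℝ) + 1) * dist m m' := by
  have hk : (0 : ℝ) < (k : ℝ) + 1 := by positivity
  by_cases h : d < 2 ^ N.r k
  · unfold pr
    rw [if_pos h, if_pos h]
    have h1 := abs_max_sub_max_le_abs (min 1 (2 - ((k : ℝ) + 1) * dist m (N.pt k d)))
      (min 1 (2 - ((k : ℝ) + 1) * dist m' (N.pt k d))) 0
    have h2 := abs_min_sub_min_le_max 1 (2 - ((k : ℝ) + 1) * dist m (N.pt k d)) 1
      (2 - ((k : ℝ) + 1) * dist m' (N.pt k d))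
    have h3 := abs_dist_sub_le m m' (N.pt k d)
    rw [max_comm, max_comm (0 : ℝ)]
    refine h1.trans (h2.trans ?_)
    rw [sub_self, abs_zero, max_eq_right (abs_nonneg _)]
    have h4 : 2 - ((k : ℝ) + 1) * dist m (N.pt k d) - (2 - ((k : ℝ) + 1) * dist m' (N.pt k d)) =
        -(((k : ℝ) + 1) * (dist m (N.pt k d) - dist m' (N.pt k d))) := by ring
    rw [h4, abs_neg, abs_mul, abs_of_pos hk]
    exact mul_le_mul_of_nonneg_left h3 hk.le
  · rw [pr_big N h, pr_big N h, sub_self, abs_zero]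
    positivity

/-- profiles of distant points are disjoint near the peak -/
theorem pr_far {m m' : M} {k : ℕ} (h : 3 / ((k : ℝ) + 1) ≤ dist m m') : pr N m' k (dd N m k) = 0 := by
  have hk : (0 : ℝ) < (k : ℝ) + 1 := by positivity
  unfold pr
  rw [if_pos (dd_lt N m k)]
  have h1 := dist_dd N m k
  have h2 := dist_triangle_right m m' (N.pt k (dd N m k))
  rw [div_le_iff₀ hk] at h
  rw [le_div_iff₀ hk] at h1
  have h3 : 2 ≤ ((k : ℝ) + 1) * dist m' (N.pt k (dd N m k)) := by nlinarith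
  rw [max_eq_left]
  exact (min_le_right _ _).trans (by linarith)

/-- the levels -/
def lv (k : ℕ) : ℕ := k + N.r k

theorem lv_strictMono : StrictMono (lv N) := strictMono_nat_of_lt_succ fun k => by
  have := N.mono (Nat.le_succ k)
  unfold lv
  simp only [Nat.succ_eq_add_one] at this
  omega

theorem le_lv (k : ℕ) : k ≤ lv N k := Nat.le_add_right _ _

/-- the inverse of the levels -/
def lvi (K : ℕ) : ℕ := Function.invFun (lv N) K

theorem lvi_lv (k : ℕ) : lvi N (lv N k) = k := Function.leftInverse_invFun (lv_strictMono N).injective k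

/-- the spreading of a level function with a profile -/
def th (m : M) : V →ₗ[ℂ] V where
  toFun x := fun K G => if lv N (lvi N K) = K then
    x (lvi N K) (G % 2 ^ (lvi N K + 2)) * ((pr N m (lvi N K) (G / 2 ^ (lvi N K + 2)) : ℝ) : ℂ) else 0
  map_add' x y := by
    funext K G
    by_cases h : lv N (lvi N K) = K
    · simp only [if_pos h, Pi.add_apply, add_mul]
    · simp only [if_neg h, Pi.add_apply, add_zero]
  map_smul' c x := by
    funext K G
    by_cases h : lv N (lvi N K) = K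
    · simp only [if_pos h, Pi.smul_apply, smul_eq_mul, mul_assoc, RingHom.id_apply]
    · simp only [if_neg h, Pi.smul_apply, smul_zero]

theorem th_apply (m : M) (x : V) (K G : ℕ) : th N m x K G = if lv N (lvi N K) = K then
    x (lvi N K) (G % 2 ^ (lvi N K + 2)) * ((pr N m (lvi N K) (G / 2 ^ (lvi N K + 2)) : ℝ) : ℂ) else 0 := rfl

theorem th_lv (m : M) (x : V) (k G : ℕ) : th N m x (lv N k) G =
    x k (G % 2 ^ (k + 2)) * ((pr N m k (G / 2 ^ (k + 2)) : ℝ) : ℂ) := by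
  rw [th_apply, lvi_lv, if_pos rfl]

theorem th_other (m : M) (x : V) {K : ℕ} (h : ∀ k, lv N k ≠ K) (G : ℕ) : th N m x K G = 0 := by
  rw [th_apply, if_neg (h _)]

/-- the index of a coordinate -/
def ixx (k g d : ℕ) : ℕ := g + 2 ^ (k + 2) * d

theorem ixx_mod {k g : ℕ} (d : ℕ) (h : g < 2 ^ (k + 2)) : ixx k g d % 2 ^ (k + 2) = g := by
  unfold ixx
  rw [Nat.add_mul_mod_self_left, Nat.mod_eq_of_lt h]

theorem ixx_div {k g : ℕ} (d : ℕ) (h : g < 2 ^ (k + 2)) : ixx k g d / 2 ^ (k + 2) = d := by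
  unfold ixx
  rw [Nat.add_mul_div_left _ _ (by positivity), Nat.div_eq_of_lt h, zero_add]

theorem ixx_lt {k g d : ℕ} (h : g < 2 ^ (k + 2)) (hd : d < 2 ^ N.r k) : ixx k g d < 2 ^ (lv N k + 2) := by
  unfold ixx lv
  have h1 : 2 ^ (k + N.r k + 2) = 2 ^ (k + 2) * 2 ^ N.r k := by rw [← pow_add]; congr 1; ring
  rw [h1]
  calc g + 2 ^ (k + 2) * d < 2 ^ (k + 2) + 2 ^ (k + 2) * d := by omega
    _ = 2 ^ (k + 2) * (d + 1) := by ring
    _ ≤ 2 ^ (k + 2) * 2 ^ N.r k := Nat.mul_le_mul_left _ hd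

theorem th_ixx (m : M) (x : V) {k g : ℕ} (d : ℕ) (h : g < 2 ^ (k + 2)) :
    th N m x (lv N k) (ixx k g d) = x k g * ((pr N m k d : ℝ) : ℂ) := by
  rw [th_lv, ixx_mod d h, ixx_div d h]

/-- spread vectors -/
def Spr (A B : ℕ) (y : V) : Prop := ∀ K, (∀ k, A ≤ k → k ≤ B → lv N k ≠ K) → ∀ G, y K G = 0

theorem th_spr {A B : ℕ} {x : V} (hx : OnLv A B x) (m : M) : Spr N A B (th N m x) := by
  intro K hK G
  rw [th_apply]
  split_ifs with h
  · rw [hx]
    · rw [zero_mul]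
    · by_contra h1
      push Not at h1
      exact hK (lvi N K) h1.1 h1.2 h
  · rfl

theorem Spr.onLv {A B : ℕ} {y : V} (h : Spr N A B y) : OnLv (lv N A) (lv N B) y := by
  intro K G hK
  apply h K
  rintro k hk1 hk2 rfl
  have h1 := (lv_strictMono N).monotone hk1
  have h2 := (lv_strictMono N).monotone hk2
  omega

theorem sum_spr (A B : ℕ) (η : ℝ) :
    ∑ K ∈ Icc (lv N A) (lv N B), (if lv N (lvi N K) = K ∧ A ≤ lvi N K ∧ lvi N K ≤ B then η else 0) =
      ((B + 1 - A : ℕ) : ℝ) * η := by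
  rw [← Finset.sum_filter]
  have h1 : (Icc (lv N A) (lv N B)).filter (fun K => lv N (lvi N K) = K ∧ A ≤ lvi N K ∧ lvi N K ≤ B) =
      (Icc A B).image (lv N) := by
    ext K
    simp only [Finset.mem_filter, Finset.mem_Icc, Finset.mem_image]
    constructor
    · rintro ⟨-, h1, h2, h3⟩
      exact ⟨lvi N K, ⟨h2, h3⟩, h1⟩
    · rintro ⟨k, ⟨h1, h2⟩, rfl⟩
      refine ⟨⟨(lv_strictMono N).monotone h1, (lv_strictMono N).monotone h2⟩, ?_⟩
      rw [lvi_lv]
      exact ⟨rfl, h1, h2⟩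
  rw [h1, Finset.sum_const, Finset.card_image_of_injective _ (lv_strictMono N).injective, Nat.card_Icc, nsmul_eq_mul]

theorem spr_coord {A B : ℕ} {y : V} (hy : Spr N A B y) {η : ℝ}
    (h : ∀ k, A ≤ k → k ≤ B → ∀ G, ‖y (lv N k) G‖ ≤ η) (K G : ℕ) :
    ‖y K G‖ ≤ if lv N (lvi N K) = K ∧ A ≤ lvi N K ∧ lvi N K ≤ B then η else 0 := by
  split_ifs with h1
  · have := h _ h1.2.1 h1.2.2 G
    rwa [h1.1] at this
  · rw [hy K, norm_zero]
    rintro k hk1 hk2 rfl
    rw [lvi_lv] at h1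
    exact h1 ⟨rfl, hk1, hk2⟩

theorem spr_bd {A B : ℕ} {y : V} (hy : Spr N A B y) {η : ℝ} (hη : 0 ≤ η)
    (h : ∀ k, A ≤ k → k ≤ B → ∀ G, ‖y (lv N k) G‖ ≤ η) : Bd (((B + 1 - A : ℕ) : ℝ) * η) y := by
  intro t hw a b
  rw [← sum_spr N A B η]
  exact ev_le_sum (hy.onLv N) _ (fun K => by split_ifs <;> [exact hη; exact le_rfl])
    (fun K G _ => spr_coord N hy h K G) t hw a b

theorem spr_node {A B : ℕ} {y : V} (hy : Spr N A B y) {η : ℝ} (hη : 0 ≤ η)
    (h : ∀ k, A ≤ k → k ≤ B → ∀ G, ‖y (lv N k) G‖ ≤ η) (t : Tr) (hw : t.Wf) (j : ℕ) (hj : t.wt = j + 1)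
    (a b : ℕ) : ‖ev t (cut a b y)‖ ≤ ((B + 1 - A : ℕ) : ℝ) * η / mm j := by
  cases t with
  | base k g => simp [Tr.wt] at hj
  | node j' d c a' b' t =>
    have hji : j' = j := by simpa [Tr.wt] using hj
    subst hji
    rw [← sum_spr N A B η, div_eq_inv_mul]
    exact ev_node_le_sum (hy.onLv N) _ (fun K => by split_ifs <;> [exact hη; exact le_rfl])
      (fun K G _ => spr_coord N hy h K G) hw a b

/-- spreading does not increase coordinates -/
theorem norm_th_le (m : M) {x : V} {η : ℝ} (h : ∀ k g, ‖x k g‖ ≤ η) (k G : ℕ) : ‖th N m x (lv N k) G‖ ≤ η := by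
  rw [th_lv, norm_mul, Complex.norm_real]
  have hη : 0 ≤ η := (norm_nonneg _).trans (h k (G % 2 ^ (k + 2)))
  calc ‖x k (G % 2 ^ (k + 2))‖ * ‖pr N m k (G / 2 ^ (k + 2))‖ ≤ η * 1 :=
        mul_le_mul (h _ _) (abs_pr_le N m _ _) (norm_nonneg _) hη
    _ = η := mul_one η

theorem th_adm (m : M) (x : V) : Adm (th N m x) := by
  intro K G hG
  rw [th_apply]
  split_ifs with h
  · rw [pr_big N, Complex.ofReal_zero, mul_zero]
    intro h1
    apply hG
    rw [← h]
    unfold lv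
    have h2 : 2 ^ (lvi N K + N.r (lvi N K) + 2) = 2 ^ (lvi N K + 2) * 2 ^ N.r (lvi N K) := by
      rw [← pow_add]; congr 1; ring
    rw [h2, mul_comm]
    exact (Nat.div_lt_iff_lt_mul (by positivity)).1 h1
  · rfl

theorem th_bd (m : M) {A B : ℕ} {x : V} (hx : OnLv A B x) {η : ℝ} (h : ∀ k g, ‖x k g‖ ≤ η) :
    Bd (((B + 1 - A : ℕ) : ℝ) * η) (th N m x) :=
  spr_bd N (th_spr N hx m) ((norm_nonneg _).trans (h 0 0)) fun k _ _ G => norm_th_le N m h k G

theorem card_two (k : ℕ) : (((k + 1 - (k - 1) : ℕ) : ℝ)) * 1 ≤ 2 := by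
  rw [mul_one]
  have : k + 1 - (k - 1) ≤ 2 := by omega
  exact_mod_cast this

/-- the fibre vectors -/
def EE (m : M) (k j : ℕ) : WT :=
  ofV (th N m (gf k j)) 2 ((th_bd N m (gf_lv k j) (fun _ _ => norm_gf_le _ _ _ _)).mono (card_two k)) (th_adm N m _)

theorem cw_EE (m : M) (k j : ℕ) : cw (EE N m k j) = th N m (gf k j) := cw_ofV _ _ _ _

theorem EE_bd (m : M) (k j : ℕ) : Bd 2 (cw (EE N m k j)) := by
  rw [cw_EE]
  exact (th_bd N m (gf_lv k j) (fun _ _ => norm_gf_le _ _ _ _)).mono (card_two k)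

theorem norm_EE_le (m : M) (k j : ℕ) : ‖EE N m k j‖ ≤ 2 := WT.norm_le (by norm_num) (EE_bd N m k j)

theorem EE_node (m : M) (k j : ℕ) (t : Tr) (hw : t.Wf) (i : ℕ) (hi : t.wt = i + 1) (a b : ℕ) :
    ‖ev t (cut a b (cw (EE N m k j)))‖ ≤ 2 / mm i := by
  rw [cw_EE]
  refine (spr_node N (th_spr N (gf_lv k j) m) zero_le_one
    (fun k' _ _ G => norm_th_le N m (fun _ _ => norm_gf_le _ _ _ _) k' G) t hw i hi a b).trans ?_
  exact div_le_div_of_nonneg_right (card_two k) (mm_pos' i).le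

theorem EE_lv (m : M) (k j : ℕ) : OnLv (lv N (k - 1)) (lv N k) (cw (EE N m k j)) := by
  rw [cw_EE]
  exact (th_spr N (gf_lv k j) m).onLv N

/-- the values on the coordinates -/
theorem EE_coord (m : M) (k j l : ℕ) {g : ℕ} (d : ℕ) (hg : g < 2 ^ (l + 2)) :
    cw (EE N m k j) (lv N l) (ixx l g d) = gf k j l g * ((pr N m l d : ℝ) : ℂ) := by
  rw [cw_EE, th_ixx N m _ d hg]

theorem EE_sub (m m' : M) (k j : ℕ) :
    Bd (2 * (((k : ℝ) + 1) * dist m m')) (cw (EE N m k j) - cw (EE N m' k j)) := by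
  have hd : 0 ≤ ((k : ℝ) + 1) * dist m m' := by positivity
  have h : Spr N (k - 1) k (cw (EE N m k j) - cw (EE N m' k j)) := by
    intro K hK G
    show cw (EE N m k j) K G - cw (EE N m' k j) K G = 0
    rw [cw_EE, cw_EE, th_spr N (gf_lv k j) m K hK G, th_spr N (gf_lv k j) m' K hK G, sub_zero]
  refine (spr_bd N h hd fun l _ hl G => ?_).mono ?_
  · show ‖cw (EE N m k j) (lv N l) G - cw (EE N m' k j) (lv N l) G‖ ≤ _
    rw [cw_EE, cw_EE, th_lv, th_lv, ← mul_sub, norm_mul, ← Complex.ofReal_sub, Complex.norm_real]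
    have h1 : ((l : ℝ) + 1) * dist m m' ≤ ((k : ℝ) + 1) * dist m m' := by
      have : (l : ℝ) ≤ k := by exact_mod_cast hl
      nlinarith [dist_nonneg (x := m) (y := m')]
    calc ‖gf k j l (G % 2 ^ (l + 2))‖ * ‖pr N m l (G / 2 ^ (l + 2)) - pr N m' l (G / 2 ^ (l + 2))‖
        ≤ 1 * (((k : ℝ) + 1) * dist m m') :=
          mul_le_mul (norm_gf_le _ _ _ _) ((pr_sub_le N m m' _ _).trans h1) (norm_nonneg _) zero_le_one
      _ = _ := one_mul _
  · have := card_two k
    nlinarith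

theorem norm_EE_sub (m m' : M) (k j : ℕ) : ‖EE N m k j - EE N m' k j‖ ≤ 2 * (((k : ℝ) + 1) * dist m m') := by
  apply WT.norm_le (by positivity)
  rw [_root_.map_sub]
  exact EE_sub N m m' k j

theorem continuous_EE (k j : ℕ) : Continuous fun m : M => EE N m k j := by
  rw [Metric.continuous_iff]
  intro m ε hε
  refine ⟨ε / (2 * ((k : ℝ) + 1)), by positivity, fun m' hm' => ?_⟩
  rw [dist_eq_norm]
  refine (norm_EE_sub N m' m k j).trans_lt ?_
  rw [lt_div_iff₀ (by positivity)] at hm'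
  linarith

/-- the peak coordinate of a fibre vector -/
theorem EE_peak (m : M) {k j : ℕ} (hj : j < 2 ^ k) :
    ∃ g < 2 ^ (k + 2), ‖gf k j k g‖ = 1 ∧ ‖cw (EE N m k j) (lv N k) (ixx k g (dd N m k))‖ = 1 := by
  obtain ⟨g, hg, h⟩ := exists_coord hj
  refine ⟨g, hg, h, ?_⟩
  rw [EE_coord N m k j k _ hg, norm_mul, h, pr_dd]
  simp

theorem one_le_norm_EE (m : M) {k j : ℕ} (hj : j < 2 ^ k) : 1 ≤ ‖EE N m k j‖ := by
  obtain ⟨g, hg, -, h⟩ := EE_peak N m hj
  rw [← h]
  exact norm_cw_le _ _ _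

/-- fibre vectors form rapidly increasing sequences, also after multiplication with scalars -/
theorem EE_ris (m : M) {k j : ℕ → ℕ} (hk : ∀ l, k l + 2 ≤ k (l + 1)) {θ : ℕ → ℝ} (hθ : ∀ l, |θ l| ≤ 1) :
    RIS 2 (fun l => cw (θ l • EE N m (k l) (j l))) (fun l => lv N (k l - 1)) (fun l => lv N (k l)) (fun l => l) := by
  have hkm : StrictMono k := strictMono_nat_of_lt_succ fun l => by have := hk l; omega
  have h0 : RIS 2 (fun l => cw (EE N m (k l) (j l))) (fun l => lv N (k l - 1)) (fun l => lv N (k l))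
      (fun l => l) := by
    refine ⟨by norm_num, ⟨fun l => EE_lv N _ _ _, fun l => (lv_strictMono N).monotone (Nat.sub_le _ _),
      fun l l' hl => ?_⟩, fun l => EE_bd N _ _ _, strictMono_id, ?_, ?_⟩
    · apply lv_strictMono N
      have h1 := hk l
      have h2 := hkm.monotone (show l + 1 ≤ l' from hl)
      show k l < k l' - 1
      omega
    · intro l t hw n hn _ α β
      exact EE_node N _ _ _ t hw n hn α β
    · intro l t hw n hn hJ α β
      refine (EE_node N _ _ _ t hw n hn α β).trans ?_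
      have h1 : l + 1 ≤ n := hJ
      have h2 : (2 : ℝ) ^ (l + 1) ≤ mm n := by
        have h3 : l + 1 ≤ 2 ^ (n + 1) := h1.trans ((Nat.le_succ n).trans Nat.lt_two_pow_self.le)
        have h4 : 2 ^ (l + 1) ≤ mm n := by
          unfold mm
          exact Nat.pow_le_pow_right (by norm_num) h3
        exact_mod_cast h4
      rw [div_le_iff₀ (mm_pos' n)]
      calc (2 : ℝ) = (1 / 2) ^ l * 2 ^ (l + 1) := by
            rw [pow_succ, ← mul_assoc, ← mul_pow]; norm_num
        _ ≤ (1 / 2) ^ l * mm n := mul_le_mul_of_nonneg_left h2 (by positivity)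
  have h1 := h0.phase (θ := fun l => ((θ l : ℝ) : ℂ)) (fun l => by rw [Complex.norm_real]; exact hθ l)
  have h2 : (fun l => cw (θ l • EE N m (k l) (j l))) = fun l => ((θ l : ℝ) : ℂ) • cw (EE N m (k l) (j l)) := by
    funext l
    have : θ l • EE N m (k l) (j l) = ((θ l : ℝ) : ℂ) • EE N m (k l) (j l) := rfl
    rw [this, _root_.map_smul]
  rw [h2]
  exact h1

end

end Pool.Agent.TH313.SC
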