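import Pool.Agent.TH313.SC.Prof
import Pool.Agent.TH313.SC.Core
import Pool.Agent.TH313.SC.C0

/-! The space of sections. -/

set_option autoImplicit false

namespace Pool.Agent.TH313.SC

open Finset Filter Topology Pool.Agent.TH313.HI
open scoped BoundedContinuousFunction

noncomputable section

variable {Ω M : Type} [TopologicalSpace Ω] [MetricSpace M] (F : C(Ω, M)) (N : Net M)

/-- the generating sections -/
def sec (f : Ω → ℝ) (k j : ℕ) (hf : C0 f) : Ω →ᵇ WT :=
  BoundedContinuousFunction.ofNormedAddCommGroup (fun t => f t • EE N (F t) k j)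
    (hf.1.smul ((continuous_EE N k j).comp F.continuous)) (2 * hf.bdd.choose) (fun t => by
      rw [norm_smul, Real.norm_eq_abs, mul_comm]
      exact mul_le_mul (norm_EE_le N _ _ _) (hf.bdd.choose_spec.2 t) (abs_nonneg _) (by norm_num))

theorem sec_apply (f : Ω → ℝ) (k j : ℕ) (hf : C0 f) (t : Ω) : sec F N f k j hf t = f t • EE N (F t) k j := rfl

/-- the generators -/
def gensY : Set (Ω →ᵇ WT) := {y | ∃ (f : Ω → ℝ) (hf : C0 f) (k j : ℕ), j < 2 ^ k ∧ y = sec F N f k j hf}

/-- the finite combinations -/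
def Yf : Submodule ℝ (Ω →ᵇ WT) := Submodule.span ℝ (gensY F N)

/-- the space of sections -/
def YY : Submodule ℝ (Ω →ᵇ WT) := (Yf F N).topologicalClosure

theorem isClosed_YY : IsClosed (YY F N : Set (Ω →ᵇ WT)) := Submodule.isClosed_topologicalClosure _

/-- the space of sections as a type -/
def YT : Type := ↥(YY F N)

instance : NormedAddCommGroup (YT F N) := inferInstanceAs (NormedAddCommGroup ↥(YY F N))
instance : NormedSpace ℝ (YT F N) := inferInstanceAs (NormedSpace ℝ ↥(YY F N))
instance : CompleteSpace (YT F N) := ((isClosed_YY F N).completeSpace_coe : CompleteSpace ↥(YY F N))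

variable {F N}

/-- the element given by a member of the subspace -/
def YT.mk (y : Ω →ᵇ WT) (h : y ∈ YY F N) : YT F N := (⟨y, h⟩ : ↥(YY F N))

/-- the underlying section -/
def YT.val : YT F N →L[ℝ] (Ω →ᵇ WT) := (YY F N).subtypeL

theorem YT.val_mk (y : Ω →ᵇ WT) (h : y ∈ YY F N) : (YT.mk y h).val = y := rfl

theorem YT.val_mem (y : YT F N) : y.val ∈ YY F N := Subtype.property (p := fun y => y ∈ YY F N) y

theorem YT.norm_val (y : YT F N) : ‖y.val‖ = ‖y‖ := rfl

theorem YT.val_injective : Function.Injective (YT.val : YT F N → (Ω →ᵇ WT)) := Subtype.val_injective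

variable (F N)

/-- the evaluation at a point -/
def evY (t : Ω) : YT F N →L[ℝ] WT :=
  LinearMap.mkContinuous
    { toFun := fun y => y.val t
      map_add' := fun y y' => by rw [_root_.map_add]; rfl
      map_smul' := fun c y => by rw [_root_.map_smul]; rfl } 1
    (fun y => by rw [one_mul]; exact y.val.norm_coe_le_norm t)

variable {F N}

theorem evY_apply (t : Ω) (y : YT F N) : evY F N t y = y.val t := rfl

theorem norm_evY_le (t : Ω) (y : YT F N) : ‖evY F N t y‖ ≤ ‖y‖ := y.val.norm_coe_le_norm t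

theorem YT.norm_le {y : YT F N} {C : ℝ} (hC : 0 ≤ C) (h : ∀ t, ‖evY F N t y‖ ≤ C) : ‖y‖ ≤ C :=
  (BoundedContinuousFunction.norm_le (f := y.val) hC).2 h

theorem YT.ext {y y' : YT F N} (h : ∀ t, evY F N t y = evY F N t y') : y = y' :=
  YT.val_injective (BoundedContinuousFunction.ext h)

/-- the evaluations as linear maps -/
def eY (t : Ω) : YT F N →ₗ[ℝ] WT := (evY F N t : YT F N →ₗ[ℝ] WT)

theorem eY_apply (t : Ω) (y : YT F N) : eY t y = evY F N t y := rfl

theorem norming : Norming (eY : Ω → YT F N →ₗ[ℝ] WT) := fun _ _ hC h => YT.norm_le hC h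

theorem continuous_ev_YT (y : YT F N) : Continuous fun t => evY F N t y := y.val.continuous

variable (F N)

theorem sec_mem {f : Ω → ℝ} (hf : C0 f) {k j : ℕ} (hj : j < 2 ^ k) : sec F N f k j hf ∈ YY F N :=
  Submodule.le_topologicalClosure _ (Submodule.subset_span ⟨f, hf, k, j, hj, rfl⟩)

/-- the generators as elements -/
def gY (f : Ω → ℝ) (hf : C0 f) (k j : ℕ) : YT F N :=
  if hj : j < 2 ^ k then YT.mk (sec F N f k j hf) (sec_mem F N hf hj) else 0

theorem ev_gY {f : Ω → ℝ} (hf : C0 f) {k j : ℕ} (hj : j < 2 ^ k) (t : Ω) :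
    evY F N t (gY F N f hf k j) = f t • EE N (F t) k j := by
  unfold gY
  rw [dif_pos hj]
  rfl

theorem norm_gY_le {f : Ω → ℝ} (hf : C0 f) {k j : ℕ} (hj : j < 2 ^ k) {c : ℝ} (hc : ∀ t, |f t| ≤ c) (hc0 : 0 ≤ c) :
    ‖gY F N f hf k j‖ ≤ 2 * c := by
  apply YT.norm_le (by positivity)
  intro t
  rw [ev_gY F N hf hj, norm_smul, Real.norm_eq_abs, mul_comm]
  exact mul_le_mul (norm_EE_le N _ _ _) (hc t) (abs_nonneg _) (by norm_num)

/-- closed relations on the fibres -/
theorem YT.kills {G : Type*} [NormedAddCommGroup G] [NormedSpace ℝ G] (t : Ω) (L : WT →L[ℝ] G)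
    (hL : ∀ k j, j < 2 ^ k → L (EE N (F t) k j) = 0) (y : YT F N) : L (evY F N t y) = 0 := by
  let e : (Ω →ᵇ WT) →L[ℝ] WT := LinearMap.mkContinuous
    { toFun := fun y => y t
      map_add' := fun y y' => rfl
      map_smul' := fun c y => rfl } 1
    (fun y => by rw [one_mul]; exact y.norm_coe_le_norm t)
  have h1 : Yf F N ≤ LinearMap.ker ((L.comp e : (Ω →ᵇ WT) →L[ℝ] G) : (Ω →ᵇ WT) →ₗ[ℝ] G) := by
    unfold Yf
    rw [Submodule.span_le]
    rintro _ ⟨f, hf, k, j, hj, rfl⟩
    show L (f t • EE N (F t) k j) = 0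
    rw [_root_.map_smul, hL k j hj, smul_zero]
  have h2 : IsClosed ((LinearMap.ker ((L.comp e : (Ω →ᵇ WT) →L[ℝ] G) : (Ω →ᵇ WT) →ₗ[ℝ] G) : Submodule ℝ (Ω →ᵇ WT)) :
      Set (Ω →ᵇ WT)) := isClosed_eq (L.comp e).continuous continuous_const
  exact Submodule.topologicalClosure_minimal _ h1 h2 y.val_mem

/-- an induction principle: closed properties -/
theorem YT.closure_induction {P : YT F N → Prop} (hgen : ∀ (f : Ω → ℝ) (hf : C0 f) (k j : ℕ), j < 2 ^ k →
    P (gY F N f hf k j)) (hzero : P 0) (hadd : ∀ y y', P y → P y' → P (y + y')) (hsmul : ∀ (c : ℝ) y, P y → P (c • y))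
    (hcl : ∀ y, (∀ ε > 0, ∃ y', P y' ∧ ‖y - y'‖ ≤ ε) → P y) (y : YT F N) : P y := by
  have h1 : ∀ y : Ω →ᵇ WT, y ∈ Yf F N → ∀ h : y ∈ YY F N, P (YT.mk y h) := by
    intro y hy
    unfold Yf at hy
    induction hy using Submodule.span_induction with
    | mem y hy =>
      obtain ⟨f, hf, k, j, hj, rfl⟩ := hy
      intro h
      have := hgen f hf k j hj
      unfold gY at this
      rw [dif_pos hj] at this
      exact this
    | zero => intro h; exact hzero
    | add y y' hy hy' ih ih' =>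
      intro h
      exact hadd _ _ (ih (Submodule.le_topologicalClosure _ hy)) (ih' (Submodule.le_topologicalClosure _ hy'))
    | smul c y hy ih =>
      intro h
      exact hsmul _ _ (ih (Submodule.le_topologicalClosure _ hy))
  apply hcl
  intro ε hε
  have h2 : y.val ∈ closure (Yf F N : Set (Ω →ᵇ WT)) := y.val_mem
  obtain ⟨y', hy', hd⟩ := Metric.mem_closure_iff.1 h2 ε hε
  refine ⟨YT.mk y' (Submodule.le_topologicalClosure _ hy'), h1 y' hy' _, ?_⟩
  rw [dist_eq_norm] at hd
  exact hd.le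

/-- sections vanish at infinity -/
theorem YT.c0 (y : YT F N) : C0 (fun t => ‖evY F N t y‖) := by
  refine YT.closure_induction F N (P := fun y => C0 (fun t => ‖evY F N t y‖)) ?_ ?_ ?_ ?_ ?_ y
  · intro f hf k j hj
    refine hf.of_le (continuous_ev_YT _).norm (c := 2) (by norm_num) fun t => ?_
    rw [abs_norm, ev_gY F N hf hj, norm_smul, Real.norm_eq_abs, mul_comm]
    exact mul_le_mul_of_nonneg_right (norm_EE_le N _ _ _) (abs_nonneg _)
  · simp only [_root_.map_zero, norm_zero]
    exact C0.zero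
  · intro y y' h h'
    refine (h.add h').of_le (continuous_ev_YT _).norm one_pos fun t => ?_
    rw [abs_norm, one_mul, _root_.map_add, abs_of_nonneg (by positivity)]
    exact norm_add_le _ _
  · intro c y h
    refine (h.const_mul c).of_le (continuous_ev_YT _).norm one_pos fun t => ?_
    rw [abs_norm, one_mul, _root_.map_smul, norm_smul, abs_mul, abs_norm, Real.norm_eq_abs]
  · intro y hy
    refine ⟨(continuous_ev_YT _).norm, fun ε hε => ?_⟩
    obtain ⟨y', h1, h2⟩ := hy (ε / 2) (by positivity)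
    refine (h1.2 (ε / 2) (by positivity)).of_isClosed_subset
      (isClosed_le continuous_const (continuous_ev_YT _).norm.abs) ?_
    intro t ht
    have h3 : ε ≤ |‖evY F N t y‖| := ht
    show ε / 2 ≤ |‖evY F N t y'‖|
    rw [abs_norm] at h3 ⊢
    have h4 := (norm_evY_le t (y - y')).trans h2
    rw [_root_.map_sub] at h4
    have h5 := norm_sub_norm_le (evY F N t y) (evY F N t y')
    linarith

/-- multiplication of bounded sections with a bounded continuous function -/
def mulB (g : Ω → ℝ) (hg : Continuous g) (c : ℝ) (hc : 0 ≤ c) (h : ∀ t, |g t| ≤ c) : (Ω →ᵇ WT) →L[ℝ] (Ω →ᵇ WT) :=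
  LinearMap.mkContinuous
    { toFun := fun y => BoundedContinuousFunction.ofNormedAddCommGroup (fun t => g t • y t) (hg.smul y.continuous)
        (c * ‖y‖) (fun t => by
          rw [norm_smul, Real.norm_eq_abs]
          exact mul_le_mul (h t) (y.norm_coe_le_norm t) (norm_nonneg _) hc)
      map_add' := fun y y' => by
        ext t
        exact smul_add (g t) (y t) (y' t)
      map_smul' := fun r y => by
        ext t
        exact smul_comm (g t) r (y t) } c
    (fun y => (BoundedContinuousFunction.norm_le (by positivity)).2 fun t => by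
      show ‖g t • y t‖ ≤ _
      rw [norm_smul, Real.norm_eq_abs]
      exact mul_le_mul (h t) (y.norm_coe_le_norm t) (norm_nonneg _) hc)

theorem mulB_mem (g : Ω → ℝ) (hg : Continuous g) (c : ℝ) (hc : 0 ≤ c) (h : ∀ t, |g t| ≤ c) (y : Ω →ᵇ WT)
    (hy : y ∈ YY F N) : mulB g hg c hc h y ∈ YY F N := by
  have h1 : Yf F N ≤ (YY F N).comap (mulB g hg c hc h : (Ω →ᵇ WT) →ₗ[ℝ] (Ω →ᵇ WT)) := by
    unfold Yf
    rw [Submodule.span_le]
    rintro _ ⟨f, hf, k, j, hj, rfl⟩
    have h2 : C0 (fun t => g t * f t) := hf.mul_left hg (c := c + 1) (by positivity) (fun t => (h t).trans (by linarith))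
    have h3 : mulB g hg c hc h (sec F N f k j hf) = sec F N (fun t => g t * f t) k j h2 := by
      ext t
      show g t • f t • EE N (F t) k j = (g t * f t) • EE N (F t) k j
      rw [smul_smul]
    show mulB g hg c hc h (sec F N f k j hf) ∈ YY F N
    rw [h3]
    exact sec_mem F N h2 hj
  have h2 : IsClosed (((YY F N).comap (mulB g hg c hc h : (Ω →ᵇ WT) →ₗ[ℝ] (Ω →ᵇ WT)) : Submodule ℝ (Ω →ᵇ WT)) :
      Set (Ω →ᵇ WT)) := (isClosed_YY F N).preimage (mulB g hg c hc h).continuous
  exact Submodule.topologicalClosure_minimal _ h1 h2 hy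

/-- multiplication with a bounded continuous function -/
def mulY (g : Ω → ℝ) (hg : Continuous g) (c : ℝ) (hc : 0 ≤ c) (h : ∀ t, |g t| ≤ c) : YT F N →L[ℝ] YT F N :=
  ((mulB g hg c hc h).comp (YY F N).subtypeL).codRestrict (YY F N) (fun y => mulB_mem F N g hg c hc h _ y.2)

theorem ev_mulY (g : Ω → ℝ) (hg : Continuous g) (c : ℝ) (hc : 0 ≤ c) (h : ∀ t, |g t| ≤ c) (y : YT F N) (t : Ω) :
    evY F N t (mulY F N g hg c hc h y) = g t • evY F N t y := rfl

end

end Pool.Agent.TH313.SC
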