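import Pool.Agent.TH313.SC.Local

/-! The symbol of an operator on sections. -/

set_option autoImplicit false

namespace Pool.Agent.TH313.SC

open Finset Filter Topology Pool.Agent.TH313.HI
open scoped BoundedContinuousFunction

noncomputable section

variable {Ω M : Type} [TopologicalSpace Ω] [MetricSpace M] {F : C(Ω, M)} {N : Net M}

/-- operators to `WT` map bounded pointwise null sequences to null sequences -/
def DC (F : C(Ω, M)) (N : Net M) : Prop := ∀ (S : YT F N →L[ℝ] WT) (D : ℕ → YT F N) (C : ℝ), (∀ l, ‖D l‖ ≤ C) →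
  (∀ t, Tendsto (fun l => evY F N t (D l)) atTop (𝓝 0)) → Tendsto (fun l => S (D l)) atTop (𝓝 0)

/-- the scalar -/
def lam [Nonempty Ω] (T : YT F N →L[ℝ] YT F N) {s : Ω} (c : Cut F s) : ℝ := (lamR_exists T c).choose

theorem lam_spec [Nonempty Ω] (T : YT F N →L[ℝ] YT F N) {s : Ω} (c : Cut F s) {k j : ℕ → ℕ}
    (hk : ∀ l, k l + 2 ≤ k (l + 1)) (hj : ∀ l, j l < 2 ^ k l) :
    Tendsto (fun l => evY F N s (T (zc N c (k l) (j l))) - lam T c • EE N (F s) (k l) (j l)) atTop (𝓝 0) :=
  (lamR_exists T c).choose_spec k j hk hj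

theorem lam_eq [Nonempty Ω] (T : YT F N →L[ℝ] YT F N) {s : Ω} (c : Cut F s) {k j : ℕ → ℕ}
    (hk : ∀ l, k l + 2 ≤ k (l + 1)) (hj : ∀ l, j l < 2 ^ k l) {b : ℝ}
    (h : Tendsto (fun l => evY F N s (T (zc N c (k l) (j l))) - b • EE N (F s) (k l) (j l)) atTop (𝓝 0)) :
    lam T c = b := by
  have h1 := (lam_spec T c hk hj).sub h
  rw [sub_zero] at h1
  have h2 : Tendsto (fun l => ‖(b - lam T c) • EE N (F s) (k l) (j l)‖) atTop (𝓝 0) := by
    rw [← tendsto_zero_iff_norm_tendsto_zero]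
    refine h1.congr fun l => ?_
    rw [sub_smul]
    abel
  have h3 : ‖b - lam T c‖ * 1 ≤ 0 := ge_of_tendsto' h2 fun l => by
    rw [norm_smul]
    exact mul_le_mul_of_nonneg_left (one_le_norm_EE N _ (hj l)) (norm_nonneg _)
  rw [mul_one, norm_le_zero_iff, sub_eq_zero] at h3
  exact h3.symm

/-- the scalar of an idempotent is zero or one -/
theorem lam_idem [Nonempty Ω] [T1Space Ω] (hF : Function.Injective F) (hdc : DC F N) (P : YT F N →L[ℝ] YT F N)
    (hP : ∀ y, P (P y) = P y) {s : Ω} (c : Cut F s) : lam P c = 0 ∨ lam P c = 1 := by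
  set b := lam P c with hb
  have hk : ∀ l : ℕ, (fun l => 2 * l : ℕ → ℕ) l + 2 ≤ (fun l => 2 * l : ℕ → ℕ) (l + 1) := fun l => by
    simp only; omega
  have hj : ∀ l : ℕ, (fun _ => 0 : ℕ → ℕ) l < 2 ^ (fun l => 2 * l : ℕ → ℕ) l := fun l => by positivity
  have h1 := lam_spec P c hk hj
  let z : ℕ → YT F N := fun l => zc N c (2 * l) 0
  let D : ℕ → YT F N := fun l => P (z l) - b • z l
  have hj' : ∀ l : ℕ, 0 < 2 ^ (2 * l) := fun l => by positivity
  have hzn : ∀ l, ‖z l‖ ≤ 2 := fun l => norm_zc_le c (hj' l)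
  have hD : ∀ l, ‖D l‖ ≤ ‖P‖ * 2 + |b| * 2 := by
    intro l
    refine (norm_sub_le _ _).trans (add_le_add ((P.le_opNorm _).trans (mul_le_mul_of_nonneg_left (hzn l) (norm_nonneg _))) ?_)
    rw [norm_smul, Real.norm_eq_abs]
    exact mul_le_mul_of_nonneg_left (hzn l) (abs_nonneg _)
  have h0 : ∀ t, Tendsto (fun l => evY F N t (D l)) atTop (𝓝 0) := by
    intro t
    by_cases hts : t = s
    · subst hts
      refine h1.congr fun l => ?_
      show _ = evY F N t (P (z l) - b • z l)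
      rw [_root_.map_sub, _root_.map_smul, ev_zc_self c (hj' l)]
    · have e1 := off_null P (fun h => hts (hF h)) c hk hj
      obtain ⟨r, hr⟩ := c.small {t}ᶜ (isOpen_compl_singleton.mem_nhds (Ne.symm hts))
      have e2 : c.ρ r t = 0 := by
        by_contra h
        exact hr t h rfl
      have e3 : ∀ᶠ l in atTop, evY F N t (z l) = 0 := by
        filter_upwards [eventually_ge_atTop r] with l hl
        apply zc_zero c (hj' l)
        exact c.zero_of_ne (by rw [e2]; exact zero_ne_one) (by omega)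
      refine e1.congr' ?_
      filter_upwards [e3] with l hl
      show _ = evY F N t (P (z l) - b • z l)
      rw [_root_.map_sub, _root_.map_smul, hl, smul_zero, sub_zero]
  have h2 := hdc ((evY F N s).comp P) D _ hD h0
  have h3 : Tendsto (fun l => (1 - b) • evY F N s (P (z l))) atTop (𝓝 0) := by
    refine h2.congr fun l => ?_
    show evY F N s (P (P (z l) - b • z l)) = _
    rw [_root_.map_sub, _root_.map_smul, hP, _root_.map_sub, _root_.map_smul, sub_smul, one_smul]
  have h4 := h3.sub (h1.const_smul (1 - b))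
  rw [smul_zero, sub_zero] at h4
  have h5 : Tendsto (fun l => ‖((1 - b) * b) • EE N (F s) (2 * l) 0‖) atTop (𝓝 0) := by
    rw [← tendsto_zero_iff_norm_tendsto_zero]
    refine h4.congr fun l => ?_
    show (1 - b) • evY F N s (P (z l)) - (1 - b) • (evY F N s (P (z l)) - b • EE N (F s) (2 * l) 0) = _
    rw [smul_sub, sub_sub_cancel, smul_smul]
  have h6 : ‖(1 - b) * b‖ * 1 ≤ 0 := ge_of_tendsto' h5 fun l => by
    rw [norm_smul]
    exact mul_le_mul_of_nonneg_left (one_le_norm_EE N _ (hj' l)) (norm_nonneg _)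
  rw [mul_one, norm_le_zero_iff, mul_eq_zero] at h6
  rcases h6 with h6 | h6
  · right; linarith
  · exact Or.inl h6

/-- localization of the cut-offs -/
theorem cut_tail [Nonempty Ω] [T1Space Ω] (hdc : DC F N) (T : YT F N →L[ℝ] WT) {s : Ω} (c : Cut F s)
    {k j : ℕ → ℕ} (hk : ∀ l, k l + 2 ≤ k (l + 1)) (hj : ∀ l, j l < 2 ^ k l) {ε : ℝ} (hε : 0 < ε) :
    ∃ r₀, ∀ r ≥ r₀, ∀ᶠ l in atTop,
      ‖T (gY F N (fun t => c.ρ r t - c.ρ (2 * k l + 2) t) ((c.c0 r).sub (c.c0 _)) (k l) (j l))‖ ≤ ε := by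
  have hkm : StrictMono k := strictMono_nat_of_lt_succ fun l => by have := hk l; omega
  by_contra hcon
  push Not at hcon
  have h1 : ∀ n : ℕ, ∃ r l, n ≤ r ∧ n ≤ l ∧
      ε < ‖T (gY F N (fun t => c.ρ r t - c.ρ (2 * k l + 2) t) ((c.c0 r).sub (c.c0 _)) (k l) (j l))‖ := by
    intro n
    obtain ⟨r, hr, hfr⟩ := hcon n
    obtain ⟨l, hl1, hl2⟩ := ((frequently_atTop.1 hfr) n)
    exact ⟨r, l, hr, hl1, by simpa using hl2⟩
  choose r l hr hl hbig using h1
  have h2 : Tendsto (fun n => T (gY F N (fun t => c.ρ (r n) t - c.ρ (2 * k (l n) + 2) t)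
      ((c.c0 (r n)).sub (c.c0 _)) (k (l n)) (j (l n)))) atTop (𝓝 0) := by
    refine hdc T _ (2 * 2) (fun n => ?_) fun t => ?_
    · refine norm_gY_le F N _ (hj (l n)) (fun t => ?_) (by norm_num)
      refine (abs_sub _ _).trans ?_
      linarith [c.abs_le (r n) t, c.abs_le (2 * k (l n) + 2) t]
    · by_cases hts : t = s
      · subst hts
        refine tendsto_const_nhds.congr fun n => ?_
        rw [ev_gY F N _ (hj _), c.self, c.self, sub_self, zero_smul]
      · obtain ⟨r', hr'⟩ := c.small {t}ᶜ (isOpen_compl_singleton.mem_nhds (Ne.symm hts))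
        have e2 : c.ρ r' t = 0 := by
          by_contra h
          exact hr' t h rfl
        have e3 : ∀ n, r' < n → c.ρ n t = 0 := fun n hn => c.zero_of_ne (by rw [e2]; exact zero_ne_one) hn
        refine tendsto_const_nhds.congr' ?_
        filter_upwards [eventually_gt_atTop r'] with n hn
        have e4 := hr n
        have e5 := hl n
        have e6 := hkm.id_le (l n)
        simp only [id] at e6
        rw [ev_gY F N _ (hj _), e3 _ (by omega), e3 _ (by omega), sub_self, zero_smul]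
  have h3 := ge_of_tendsto' (tendsto_zero_iff_norm_tendsto_zero.1 h2) fun n => (hbig n).le
  linarith

/-- the symbol is reached on all generators -/
theorem sym_limit [Nonempty Ω] [T1Space Ω] (hF : Function.Injective F) (hdc : DC F N)
    (T : YT F N →L[ℝ] YT F N) {s : Ω} (c : Cut F s) {f : Ω → ℝ} (hf : C0 f)
    {k j : ℕ → ℕ} (hk : ∀ l, k l + 2 ≤ k (l + 1)) (hj : ∀ l, j l < 2 ^ k l) :
    Tendsto (fun l => alv N (F s) (k l) (j l) (evY F N s (T (gY F N f hf (k l) (j l))))) atTop
      (𝓝 (((lam T c * f s : ℝ) : ℂ))) := by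
  set b := lam T c with hb
  let S : YT F N →L[ℝ] WT := (evY F N s).comp T
  have hS : ∀ y, S y = evY F N s (T y) := fun _ => rfl
  rw [Metric.tendsto_atTop]
  intro ε hε
  -- choice of the radius
  have hbpos : 0 < |f s| + 1 := by positivity
  obtain ⟨r₀, hr₀⟩ := cut_tail hdc S c hk hj (ε := ε / (8 * (|f s| + 1))) (by positivity)
  set η : ℝ := ε / (8 * (‖S‖ + 1)) with hη
  have hS1 : 0 < ‖S‖ + 1 := by positivity
  have hηpos : 0 < η := by positivity
  have hopen : IsOpen {t | |f t - f s| < η} := isOpen_lt (hf.1.sub continuous_const).abs continuous_const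
  obtain ⟨r₁, hr₁⟩ := c.small {t | |f t - f s| < η} (hopen.mem_nhds (by
    show |f s - f s| < η
    rw [sub_self, abs_zero]; exact hηpos))
  set r := max r₀ (r₁ + 1) with hr
  have hr₁' : ∀ t, c.ρ r t ≠ 0 → |f t - f s| < η := by
    intro t ht
    apply hr₁
    intro h0
    apply ht
    exact c.zero_of_ne (by rw [h0]; exact zero_ne_one) (lt_of_lt_of_le (Nat.lt_succ_self r₁) (le_max_right _ _))
  have hρb : ∀ t, |1 - c.ρ r t| ≤ 1 := fun t => by
    rw [abs_le]; constructor <;> linarith [c.nonneg r t, c.le_one r t]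
  have hI : C0 (fun t => (1 - c.ρ r t) * f t) := hf.mul_left (continuous_const.sub (c.c0 r).1) one_pos hρb
  have hII : C0 (fun t => (f t - f s) * c.ρ r t) := by
    obtain ⟨K, hK, hfK⟩ := hf.bdd
    exact (c.c0 r).mul_left (hf.1.sub continuous_const) (c := K + |f s| + 1) (by positivity) fun t => by
      refine (abs_sub _ _).trans ?_
      linarith [hfK t]
  have hIV : ∀ l, C0 (fun t => c.ρ r t - c.ρ (2 * k l + 2) t) := fun l => (c.c0 r).sub (c.c0 _)
  -- the decomposition
  have hdec : ∀ l, gY F N f hf (k l) (j l) = gY F N _ hI (k l) (j l) + gY F N _ hII (k l) (j l) +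
      f s • (zc N c (k l) (j l) + gY F N _ (hIV l) (k l) (j l)) := by
    intro l
    apply YT.ext
    intro t
    rw [_root_.map_add, _root_.map_add, _root_.map_smul, _root_.map_add, ev_gY F N _ (hj l), ev_gY F N _ (hj l),
      ev_gY F N _ (hj l), ev_gY F N _ (hj l), ev_zc c (hj l), ← add_smul, ← add_smul, smul_smul, ← add_smul]
    congr 1
    ring
  -- the limits
  have h1 : Tendsto (fun l => alv N (F s) (k l) (j l) (S (gY F N _ hI (k l) (j l)))) atTop (𝓝 0) := by
    apply far_null hF S hI _ hk hj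
    have h2 : IsOpen {t | c.ρ (r + 1) t ≠ 0} := isOpen_ne_fun (c.c0 _).1 continuous_const
    filter_upwards [h2.mem_nhds (show c.ρ (r + 1) s ≠ 0 by rw [c.self]; exact one_ne_zero)] with t ht
    rw [c.nest r t ht, sub_self, zero_mul]
  have h3 := lam_spec T c hk hj
  obtain ⟨L₁, hL₁⟩ := (Metric.tendsto_atTop.1 h1) (ε / 4) (by positivity)
  obtain ⟨L₂, hL₂⟩ := eventually_atTop.1 (hr₀ r (le_max_left _ _))
  obtain ⟨L₃, hL₃⟩ := (Metric.tendsto_atTop.1 (tendsto_zero_iff_norm_tendsto_zero.1 h3))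
    (ε / (8 * (|f s| + 1))) (by positivity)
  refine ⟨max L₁ (max L₂ L₃), fun l hl => ?_⟩
  have e1 := hL₁ l ((le_max_left _ _).trans hl)
  have e2 := hL₂ l (((le_max_left _ _).trans (le_max_right _ _)).trans hl)
  have e3 := hL₃ l (((le_max_right _ _).trans (le_max_right _ _)).trans hl)
  rw [dist_zero_right] at e1
  rw [dist_zero_right, norm_norm] at e3
  rw [dist_eq_norm, ← hS, hdec l]
  have rs : ∀ (x : ℝ) (w : WT), x • w = ((x : ℝ) : ℂ) • w := fun _ _ => rfl
  have e4 : alv N (F s) (k l) (j l) (S (gY F N _ hI (k l) (j l) + gY F N _ hII (k l) (j l) +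
      f s • (zc N c (k l) (j l) + gY F N _ (hIV l) (k l) (j l)))) - ((b * f s : ℝ) : ℂ) =
      alv N (F s) (k l) (j l) (S (gY F N _ hI (k l) (j l))) + alv N (F s) (k l) (j l) (S (gY F N _ hII (k l) (j l))) +
      ((f s : ℝ) : ℂ) * (alv N (F s) (k l) (j l) (S (zc N c (k l) (j l)) - b • EE N (F s) (k l) (j l)) +
        alv N (F s) (k l) (j l) (S (gY F N _ (hIV l) (k l) (j l)))) := by
    rw [_root_.map_add, _root_.map_add, _root_.map_smul, _root_.map_add, _root_.map_add, _root_.map_add, rs,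
      _root_.map_smul, _root_.map_add, _root_.map_sub, rs, _root_.map_smul, alv_EE N _ (hj l)]
    simp only [smul_eq_mul]
    push_cast
    ring
  rw [e4]
  have e5 : ‖alv N (F s) (k l) (j l) (S (gY F N _ hII (k l) (j l)))‖ ≤ ε / 4 := by
    refine (norm_alv_le N _ _ _ _).trans ((S.le_opNorm _).trans ?_)
    have h4 : ‖gY F N _ hII (k l) (j l)‖ ≤ 2 * η := by
      refine norm_gY_le F N hII (hj l) (fun t => ?_) hηpos.le
      by_cases h0 : c.ρ r t = 0
      · rw [h0, mul_zero, abs_zero]; exact hηpos.le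
      · rw [abs_mul]
        calc |f t - f s| * |c.ρ r t| ≤ η * 1 :=
              mul_le_mul (hr₁' t h0).le (c.abs_le _ _) (abs_nonneg _) hηpos.le
          _ = η := mul_one _
    refine (mul_le_mul_of_nonneg_left h4 (norm_nonneg _)).trans ?_
    have h12 : (‖S‖ + 1) * (8 * η) = ε := by
      rw [hη]; field_simp
    nlinarith
  have e6 : ‖((f s : ℝ) : ℂ) * (alv N (F s) (k l) (j l) (S (zc N c (k l) (j l)) - b • EE N (F s) (k l) (j l)) +
        alv N (F s) (k l) (j l) (S (gY F N _ (hIV l) (k l) (j l))))‖ ≤ ε / 4 := by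
    rw [norm_mul, Complex.norm_real, Real.norm_eq_abs]
    have f1 : ‖alv N (F s) (k l) (j l) (S (zc N c (k l) (j l)) - b • EE N (F s) (k l) (j l)) +
        alv N (F s) (k l) (j l) (S (gY F N _ (hIV l) (k l) (j l)))‖ ≤ ε / (8 * (|f s| + 1)) + ε / (8 * (|f s| + 1)) := by
      refine (norm_add_le _ _).trans (add_le_add ?_ ?_)
      · exact (norm_alv_le N _ _ _ _).trans e3.le
      · exact (norm_alv_le N _ _ _ _).trans e2
    calc |f s| * _ ≤ (|f s| + 1) * (ε / (8 * (|f s| + 1)) + ε / (8 * (|f s| + 1))) :=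
          mul_le_mul (by linarith) f1 (norm_nonneg _) hbpos.le
      _ = ε / 4 := by field_simp; ring
  refine (norm_add_le _ _).trans_lt ?_
  have e7 := norm_add_le (alv N (F s) (k l) (j l) (S (gY F N _ hI (k l) (j l))))
    (alv N (F s) (k l) (j l) (S (gY F N _ hII (k l) (j l))))
  linarith

/-- the approximate traces tend to the symbol -/
theorem bt_limit [Nonempty Ω] [T1Space Ω] (hF : Function.Injective F) (hdc : DC F N)
    (T : YT F N →L[ℝ] YT F N) {s : Ω} (c : Cut F s) {f : Ω → ℝ} (hf : C0 f) :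
    Tendsto (fun k => bt N F T f hf k s) atTop (𝓝 (((lam T c * f s : ℝ) : ℂ))) := by
  rw [Metric.tendsto_atTop]
  intro ε hε
  by_contra hcon
  push Not at hcon
  have h1 : ∀ n : ℕ, ∃ k ≥ n, ∃ j < 2 ^ k, ε ≤ ‖alv N (F s) k j (evY F N s (T (gY F N f hf k j))) -
      ((lam T c * f s : ℝ) : ℂ)‖ := by
    intro n
    obtain ⟨k, hk, hkε⟩ := hcon n
    refine ⟨k, hk, ?_⟩
    by_contra hno
    push Not at hno
    rw [dist_eq_norm] at hkε
    have h2 : bt N F T f hf k s - ((lam T c * f s : ℝ) : ℂ) = (1 / 2 ^ k : ℂ) * ∑ j ∈ range (2 ^ k),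
        (alv N (F s) k j (evY F N s (T (gY F N f hf k j))) - ((lam T c * f s : ℝ) : ℂ)) := by
      unfold bt
      rw [Finset.sum_sub_distrib, mul_sub, Finset.sum_const, Finset.card_range, nsmul_eq_mul, ← mul_assoc]
      have : (1 / 2 ^ k : ℂ) * ((2 ^ k : ℕ) : ℂ) = 1 := by
        push_cast
        rw [one_div, inv_mul_cancel₀]
        exact pow_ne_zero _ two_ne_zero
      rw [this, one_mul]
    rw [h2, norm_mul] at hkε
    have h3 : ‖(1 / 2 ^ k : ℂ)‖ = 1 / 2 ^ k := by simp
    rw [h3] at hkε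
    have h4 : ‖∑ j ∈ range (2 ^ k), (alv N (F s) k j (evY F N s (T (gY F N f hf k j))) -
        ((lam T c * f s : ℝ) : ℂ))‖ < 2 ^ k * ε := by
      refine (norm_sum_le _ _).trans_lt ?_
      calc _ < ∑ j ∈ range (2 ^ k), ε := Finset.sum_lt_sum_of_nonempty ⟨0, mem_range.2 (by positivity)⟩
            fun j hj => hno j (mem_range.1 hj)
        _ = 2 ^ k * ε := by rw [Finset.sum_const, Finset.card_range, nsmul_eq_mul]; push_cast; ring
    have h5 : (1 / 2 ^ k : ℝ) * ‖∑ j ∈ range (2 ^ k), (alv N (F s) k j (evY F N s (T (gY F N f hf k j))) -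
        ((lam T c * f s : ℝ) : ℂ))‖ < ε := by
      rw [one_div, inv_mul_lt_iff₀ (by positivity)]
      exact h4
    linarith
  choose kf hkf jf hjf hfar using h1
  let k : ℕ → ℕ := fun l => Nat.rec 0 (fun _ n => kf n + 2) l
  have hk : ∀ l, k (l + 1) = kf (k l) + 2 := fun _ => rfl
  have h2 := sym_limit hF hdc T c hf (k := fun l => kf (k l)) (j := fun l => jf (k l)) (fun l => by
    have := hkf (k (l + 1))
    rw [hk] at this ⊢
    exact this) (fun l => hjf _)
  rw [tendsto_iff_norm_sub_tendsto_zero] at h2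
  have h3 := ge_of_tendsto' h2 fun l => hfar (k l)
  linarith

/-- the symbol is continuous -/
theorem lam_cont [Nonempty Ω] [T1Space Ω] (hF : Function.Injective F) (hdc : DC F N)
    (htr : ∀ (T : YT F N →L[ℝ] YT F N) (f : Ω → ℝ) (hf : C0 f) (B : Ω → ℂ),
      (∀ t, Tendsto (fun k => bt N F T f hf k t) atTop (𝓝 (B t))) → Continuous B)
    (c : ∀ s, Cut F s) (T : YT F N →L[ℝ] YT F N) : Continuous fun s => lam T (c s) := by
  rw [continuous_iff_continuousAt]
  intro s
  have h1 := htr T ((c s).ρ 0) ((c s).c0 0) (fun t => ((lam T (c t) * (c s).ρ 0 t : ℝ) : ℂ))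
    (fun t => bt_limit hF hdc T (c t) ((c s).c0 0))
  have h2 : Continuous fun t => lam T (c t) * (c s).ρ 0 t := by
    have := Complex.continuous_re.comp h1
    simpa only [Function.comp_def, Complex.ofReal_re] using this
  refine h2.continuousAt.congr ?_
  have h3 : IsOpen {t | (c s).ρ (0 + 1) t ≠ 0} := isOpen_ne_fun ((c s).c0 _).1 continuous_const
  filter_upwards [h3.mem_nhds (show (c s).ρ (0 + 1) s ≠ 0 by rw [(c s).self]; exact one_ne_zero)] with t ht
  rw [(c s).nest 0 t ht, mul_one]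

/-- no separable subspace containing the canonical vectors at a point is complemented -/
theorem not_compl [Nonempty Ω] [T1Space Ω] [PreconnectedSpace Ω] (hF : Function.Injective F) (hdc : DC F N)
    (htr : ∀ (T : YT F N →L[ℝ] YT F N) (f : Ω → ℝ) (hf : C0 f) (B : Ω → ℂ),
      (∀ t, Tendsto (fun k => bt N F T f hf k t) atTop (𝓝 (B t))) → Continuous B)
    (c : ∀ s, Cut F s) (hbig : ∀ K : ℕ → Set Ω, (∀ n, IsCompact (K n)) → ∃ t, ∀ n, t ∉ K n)
    (s₀ : Ω) (P : YT F N →L[ℝ] YT F N) (hP : ∀ y, P (P y) = P y)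
    (hsep : TopologicalSpace.IsSeparable (Set.range P))
    (hfix : ∀ k j, j < 2 ^ k → P (zc N (c s₀) k j) = zc N (c s₀) k j) : False := by
  -- the scalar at `s₀` is one
  have h1 : lam P (c s₀) = 1 := by
    refine lam_eq P (c s₀) (k := fun l => 2 * l) (j := fun _ => 0) (fun l => by omega) (fun l => by positivity) ?_
    refine tendsto_const_nhds.congr fun l => ?_
    have hj : 0 < 2 ^ (2 * l) := by positivity
    rw [hfix _ _ hj, ev_zc_self _ hj, one_smul, sub_self]
  -- a point where the sections of the range vanish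
  obtain ⟨t₀, ht₀⟩ : ∃ t₀, ∀ y, evY F N t₀ (P y) = 0 := by
    obtain ⟨D, hD, hDc⟩ := hsep
    rcases D.eq_empty_or_nonempty with hD0 | hD0
    · have : P 0 ∈ closure D := hDc ⟨0, rfl⟩
      rw [hD0, closure_empty] at this
      exact this.elim
    · obtain ⟨d, hd⟩ := hD.exists_eq_range hD0
      obtain ⟨t, ht⟩ := hbig (fun n => {t | 1 / ((n.unpair.2 : ℝ) + 1) ≤ |‖evY F N t (d n.unpair.1)‖|})
        (fun n => (YT.c0 F N (d n.unpair.1)).2 _ (by positivity))
      have hd0 : ∀ i, evY F N t (d i) = 0 := by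
        intro i
        by_contra hne
        have hpos : 0 < ‖evY F N t (d i)‖ := norm_pos_iff.2 hne
        obtain ⟨n, hn⟩ := exists_nat_one_div_lt hpos
        apply ht (Nat.pair i n)
        show 1 / (((Nat.pair i n).unpair.2 : ℝ) + 1) ≤ |‖evY F N t (d (Nat.pair i n).unpair.1)‖|
        rw [Nat.unpair_pair, abs_norm]
        exact hn.le
      refine ⟨t, fun y => ?_⟩
      have h2 : D ⊆ {y : YT F N | evY F N t y = 0} := by
        rw [hd]
        rintro _ ⟨i, rfl⟩
        exact hd0 i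
      have h3 : IsClosed {y : YT F N | evY F N t y = 0} := isClosed_eq (evY F N t).continuous continuous_const
      exact h3.closure_subset_iff.2 h2 (hDc ⟨y, rfl⟩)
  have h2 : lam P (c t₀) = 0 := by
    refine lam_eq P (c t₀) (k := fun l => 2 * l) (j := fun _ => 0) (fun l => by omega) (fun l => by positivity) ?_
    refine tendsto_const_nhds.congr fun l => ?_
    rw [ht₀, zero_smul, sub_self]
  -- connectedness
  have hcont := lam_cont hF hdc htr c P
  have h3 : (1 / 2 : ℝ) ∈ Set.range fun s => lam P (c s) :=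
    mem_range_of_exists_le_of_exists_ge hcont ⟨t₀, by rw [h2]; norm_num⟩ ⟨s₀, by rw [h1]; norm_num⟩
  obtain ⟨s, hs⟩ := h3
  have hs' : lam P (c s) = 1 / 2 := hs
  rcases lam_idem hF hdc P hP (c s) with h4 | h4
  · rw [h4] at hs'; norm_num at hs'
  · rw [h4] at hs'; norm_num at hs'

end

end Pool.Agent.TH313.SC
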